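import Pool.Agent.P.MP_3c2f8c_gt.Ex.HP.Defs

/-! Ex-HP-Cmp1: identities in composition algebras. -/

namespace Pool.Agent.P.MP_3c2f8c_gt.Ex

variable {K : Type} [Field K] [CharZero K] {C : Type} [AddCommGroup C] [Module K C]

namespace CompAlg

variable (A : CompAlg K C)

omit [CharZero K] in
theorem Cmp1Aux_ext {x y : C} (h : ∀ z, A.b x z = A.b y z) : x = y := by
  rw [← sub_eq_zero]
  exact A.nondeg _ fun z => by rw [map_sub, LinearMap.sub_apply, h, sub_self]

theorem b_one : A.b A.one A.one = 2 := by
  by_contra hne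
  have h1 := A.comp A.one A.one
  rw [A.one_mul] at h1
  have h0 : A.b A.one A.one = 0 := by
    have : A.b A.one A.one * (A.b A.one A.one - 2) = 0 := by linear_combination -h1
    rcases mul_eq_zero.1 this with h | h
    · exact h
    · exact absurd (sub_eq_zero.1 h) hne
  have hx : ∀ x, A.b x x = 0 := fun x => by
    have := A.comp x A.one
    rw [A.mul_one, h0, mul_zero] at this
    linear_combination this / 2
  have hxy : ∀ x y, A.b x y = 0 := fun x y => by
    have := hx (x + y)
    simp only [map_add, LinearMap.add_apply, hx, A.symm y x] at this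
    linear_combination this / 2
  have : Subsingleton C := ⟨fun x y => by
    rw [A.nondeg x (hxy x), A.nondeg y (hxy y)]⟩
  have hd := A.dim
  rw [Module.finrank_zero_of_subsingleton] at hd
  exact absurd hd (by decide)

theorem comp_left (x x' y : C) : 2 * A.b (A.mul x y) (A.mul x' y) = A.b x x' * A.b y y := by
  have h := A.comp (x + x') y
  have h1 := A.comp x y
  have h2 := A.comp x' y
  simp only [map_add, LinearMap.add_apply, A.symm x' x, A.symm (A.mul x' y) (A.mul x y)] at h
  linear_combination (h - h1 - h2) / 2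

theorem comp_right (x y y' : C) : 2 * A.b (A.mul x y) (A.mul x y') = A.b x x * A.b y y' := by
  have h := A.comp x (y + y')
  have h1 := A.comp x y
  have h2 := A.comp x y'
  simp only [map_add, LinearMap.add_apply, A.symm y' y, A.symm (A.mul x y') (A.mul x y)] at h
  linear_combination (h - h1 - h2) / 2

theorem comp_pol (x x' y y' : C) :
    A.b (A.mul x y) (A.mul x' y') + A.b (A.mul x y') (A.mul x' y) = A.b x x' * A.b y y' := by
  have h := A.comp_left x x' (y + y')
  have h1 := A.comp_left x x' y
  have h2 := A.comp_left x x' y'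
  simp only [map_add, LinearMap.add_apply, A.symm y' y] at h
  linear_combination (h - h1 - h2) / 2

omit [CharZero K] in
theorem conj_add (x y : C) : A.conj (x + y) = A.conj x + A.conj y := by
  simp only [conj, map_add, LinearMap.add_apply, add_smul]
  abel

omit [CharZero K] in
theorem conj_smul (t : K) (x : C) : A.conj (t • x) = t • A.conj x := by
  simp only [conj, map_smul, LinearMap.smul_apply, smul_eq_mul, smul_sub, mul_smul]

theorem conj_one : A.conj A.one = A.one := by
  rw [conj, b_one, two_smul, add_sub_cancel_right]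

theorem conj_conj (x : C) : A.conj (A.conj x) = x := by
  simp only [conj, map_sub, map_smul, LinearMap.sub_apply, LinearMap.smul_apply, b_one,
    smul_eq_mul]
  module

omit [CharZero K] in
theorem b_conj (x y : C) : A.b (A.conj x) y = A.b x (A.conj y) := by
  simp only [conj, map_sub, map_smul, LinearMap.sub_apply, LinearMap.smul_apply, smul_eq_mul,
    A.symm A.one y]
  ring

theorem b_mul_left (x y z : C) : A.b (A.mul x y) z = A.b y (A.mul (A.conj x) z) := by
  have h := A.comp_pol x A.one y z
  rw [A.one_mul, A.one_mul, A.symm (A.mul x z) y] at h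
  simp only [conj, map_sub, map_smul, LinearMap.sub_apply, LinearMap.smul_apply, smul_eq_mul,
    A.one_mul]
  linear_combination h

theorem b_mul_right (x y z : C) : A.b (A.mul x y) z = A.b x (A.mul z (A.conj y)) := by
  have h := A.comp_pol x z y A.one
  rw [A.mul_one, A.mul_one] at h
  simp only [conj, map_sub, map_smul, smul_eq_mul, A.mul_one]
  linear_combination h

theorem conj_mul (x y : C) : A.conj (A.mul x y) = A.mul (A.conj y) (A.conj x) := by
  refine A.Cmp1Aux_ext fun z => ?_
  rw [b_conj, b_mul_left, A.b_mul_left (A.conj y), conj_conj, A.symm y, b_mul_right, conj_conj]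

theorem conj_mul_left (x x' y : C) :
    A.mul (A.conj x) (A.mul x' y) + A.mul (A.conj x') (A.mul x y) = A.b x x' • y := by
  refine A.Cmp1Aux_ext fun z => ?_
  have h := A.comp_pol x x' y z
  rw [map_add, LinearMap.add_apply, b_mul_left, b_mul_left, conj_conj, A.b_mul_left (A.conj x'),
    conj_conj, ← b_mul_left, map_smul, LinearMap.smul_apply, smul_eq_mul,
    A.symm (A.mul x' y) (A.mul x z)]
  linear_combination h

theorem mul_conj_right (x y y' : C) :
    A.mul (A.mul x y) (A.conj y') + A.mul (A.mul x y') (A.conj y) = A.b y y' • x := by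
  refine A.Cmp1Aux_ext fun z => ?_
  have h := A.comp_pol x z y y'
  rw [map_add, LinearMap.add_apply, A.b_mul_right (A.mul x y), A.b_mul_right (A.mul x y'),
    conj_conj, conj_conj, map_smul, LinearMap.smul_apply, smul_eq_mul]
  linear_combination h

theorem b_conj_rotate (x y z : C) :
    A.b (A.conj (A.mul x y)) z = A.b (A.conj (A.mul y z)) x := by
  rw [b_conj, b_conj, b_mul_left, A.b_mul_right y z]

/-- The doubling formulas for a unit vector `l` orthogonal to a subalgebra `D`. -/
theorem doubling (D : Submodule K C) (h1 : A.one ∈ D) (hD : ∀ x ∈ D, ∀ y ∈ D, A.mul x y ∈ D)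
    {l : C} (hl : ∀ x ∈ D, A.b l x = 0) (hl2 : A.b l l = 2) {x y : C} (hx : x ∈ D) (hy : y ∈ D) :
    A.b x (A.mul y l) = 0 ∧ A.b (A.mul x l) (A.mul y l) = A.b x y ∧
      A.mul x (A.mul y l) = A.mul (A.mul y x) l ∧
      A.mul (A.mul x l) y = A.mul (A.mul x (A.conj y)) l ∧
      A.mul (A.mul x l) (A.mul y l) = -A.mul (A.conj y) x := by
  have hc : ∀ x ∈ D, A.conj x ∈ D := fun x hx => D.sub_mem (D.smul_mem _ h1) hx
  have hlc : A.conj l = -l := by rw [conj, hl _ h1, zero_smul, zero_sub]
  have hcomm : ∀ u ∈ D, A.mul u l = A.mul l (A.conj u) := fun u hu => by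
    have h := A.conj_mul_left (A.conj u) l A.one
    rw [conj_conj, A.mul_one, A.mul_one, hlc, A.symm _ l, hl _ (hc u hu), zero_smul, map_neg,
      LinearMap.neg_apply] at h
    exact eq_of_sub_eq_zero (by rw [sub_eq_add_neg]; exact h)
  have e1 : ∀ x ∈ D, ∀ y ∈ D, A.b x (A.mul y l) = 0 := fun x hx y hy => by
    rw [A.symm, b_mul_left]
    exact hl _ (hD _ (hc y hy) _ hx)
  have e2 : ∀ x y, A.b (A.mul x l) (A.mul y l) = A.b x y := fun x y => by
    have h := A.comp_left x y l
    rw [hl2] at h
    linear_combination h / 2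
  have e3 : A.mul x (A.mul y l) = A.mul (A.mul y x) l := by
    have h := A.conj_mul_left (A.conj x) l (A.conj y)
    rw [conj_conj, hlc, A.symm _ l, hl _ (hc x hx), zero_smul, map_neg, LinearMap.neg_apply,
      ← conj_mul, ← hcomm _ (hD y hy x hx), ← hcomm y hy] at h
    exact eq_of_sub_eq_zero (by rw [sub_eq_add_neg]; exact h)
  have e4 : A.mul (A.mul x l) y = A.mul (A.mul x (A.conj y)) l := by
    have h := A.mul_conj_right x l (A.conj y)
    rw [conj_conj, hlc, hl _ (hc y hy), zero_smul, map_neg] at h
    exact eq_of_sub_eq_zero (by rw [sub_eq_add_neg]; exact h)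
  refine ⟨e1 x hx y hy, e2 x y, e3, e4, ?_⟩
  have hll : ∀ u, A.mul (A.mul u l) l = -u := fun u => by
    have h := A.mul_conj_right u l l
    rw [hlc, hl2, map_neg] at h
    have h2 : (2 : K) • (A.mul (A.mul u l) l + u) = 0 := by
      rw [smul_add, ← h]
      module
    exact eq_neg_of_add_eq_zero_left ((smul_eq_zero.1 h2).resolve_left two_ne_zero)
  have hyl : A.conj (A.mul y l) = -A.mul y l := by
    rw [conj, A.symm, e1 _ h1 y hy, zero_smul, zero_sub]
  have hb : A.b l (A.mul y l) = A.b y A.one := by
    rw [← e2 y A.one, A.one_mul, A.symm]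
  have h := A.mul_conj_right x l (A.mul y l)
  rw [hyl, hlc, hb, e3, map_neg, map_neg, hll, neg_neg] at h
  rw [conj, map_sub, map_smul, LinearMap.sub_apply, LinearMap.smul_apply, A.one_mul, ← h]
  abel

end CompAlg

end Pool.Agent.P.MP_3c2f8c_gt.Ex
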