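import Pool.Agent.P.MP_3c2f8c_gt.Ex.HP.Cmp1

/-! Ex-HP-Cmp2: recognising the octonions. -/

namespace Pool.Agent.P.MP_3c2f8c_gt.Ex

variable {K : Type} [Field K] [CharZero K] {C : Type} [AddCommGroup C] [Module K C]

namespace Cmp2Aux

/-- A coordinate model of a subalgebra. -/
structure Mdl (A : CompAlg K C) (V : Type) [AddCommGroup V] [Module K V] where
  g : V →ₗ[K] C
  μ : V → V → V
  κ : V → V
  β : V → V → K
  e : V
  he : g e = A.one
  hμ : ∀ x y, g (μ x y) = A.mul (g x) (g y)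
  hκ : ∀ x, g (κ x) = A.conj (g x)
  hβ : ∀ x y, A.b (g x) (g y) = β x y

/-- The scalars. -/
def base (A : CompAlg K C) : Mdl A K where
  g := LinearMap.toSpanSingleton K C A.one
  μ x y := x * y
  κ x := x
  β x y := 2 * (x * y)
  e := 1
  he := by simp
  hμ x y := by simp [A.one_mul, smul_smul, mul_comm]
  hκ x := by simp [A.conj_smul, A.conj_one]
  hβ x y := by
    simp [A.b_one]
    ring

theorem dbl_aux {A : CompAlg K C} {V : Type} [AddCommGroup V] [Module K V] (M : Mdl A V) {l : C}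
    (hl : ∀ x, A.b l (M.g x) = 0) (hl2 : A.b l l = 2) (x y : V) :
    A.b (M.g x) (A.mul (M.g y) l) = 0 ∧
      A.b (A.mul (M.g x) l) (A.mul (M.g y) l) = A.b (M.g x) (M.g y) ∧
      A.mul (M.g x) (A.mul (M.g y) l) = A.mul (A.mul (M.g y) (M.g x)) l ∧
      A.mul (A.mul (M.g x) l) (M.g y) = A.mul (A.mul (M.g x) (A.conj (M.g y))) l ∧
      A.mul (A.mul (M.g x) l) (A.mul (M.g y) l) = -A.mul (A.conj (M.g y)) (M.g x) :=
  A.doubling (LinearMap.range M.g) ⟨M.e, M.he⟩
    (by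
      rintro _ ⟨x, rfl⟩ _ ⟨y, rfl⟩
      exact ⟨_, M.hμ x y⟩)
    (by
      rintro _ ⟨x, rfl⟩
      exact hl x) hl2 ⟨x, rfl⟩ ⟨y, rfl⟩

/-- The doubling of a model. -/
def Mdl.dbl {A : CompAlg K C} {V : Type} [AddCommGroup V] [Module K V] (M : Mdl A V) (l : C)
    (hl : ∀ x, A.b l (M.g x) = 0) (hl2 : A.b l l = 2) : Mdl A (V × V) where
  g := M.g.coprod (A.mul.flip l ∘ₗ M.g)
  μ x y := (M.μ x.1 y.1 - M.μ (M.κ y.2) x.2, M.μ y.2 x.1 + M.μ x.2 (M.κ y.1))
  κ x := (M.κ x.1, -x.2)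
  β x y := M.β x.1 y.1 + M.β x.2 y.2
  e := (M.e, 0)
  he := by simp [M.he]
  hμ x y := by
    simp only [LinearMap.coprod_apply, LinearMap.comp_apply, LinearMap.flip_apply, map_add, map_sub,
      LinearMap.add_apply, M.hμ, M.hκ, (dbl_aux M hl hl2 _ _).2.2.1,
      (dbl_aux M hl hl2 _ _).2.2.2.1, (dbl_aux M hl hl2 _ _).2.2.2.2]
    abel
  hκ x := by
    have h := (dbl_aux M hl hl2 M.e x.2).1
    rw [M.he, A.symm] at h
    simp only [LinearMap.coprod_apply, LinearMap.comp_apply, LinearMap.flip_apply, map_neg,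
      A.conj_add, M.hκ]
    rw [show A.conj (A.mul (M.g x.2) l) = _ • _ - _ from rfl, h, zero_smul, zero_sub]
  hβ x y := by
    have h := (dbl_aux M hl hl2 y.1 x.2).1
    rw [A.symm] at h
    simp only [LinearMap.coprod_apply, LinearMap.comp_apply, LinearMap.flip_apply, map_add,
      LinearMap.add_apply, (dbl_aux M hl hl2 _ _).1, (dbl_aux M hl hl2 _ _).2.1, h, M.hβ, add_zero,
      zero_add]

theorem dbl_g {A : CompAlg K C} {V : Type} [AddCommGroup V] [Module K V] (M : Mdl A V) (l : C)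
    (hl : ∀ x, A.b l (M.g x) = 0) (hl2 : A.b l l = 2) (x : V × V) :
    (M.dbl l hl hl2).g x = M.g x.1 + A.mul (M.g x.2) l := rfl

theorem base_g (A : CompAlg K C) (x : K) : (base A).g x = x • A.one := rfl

/-- Eight coordinates as an iterated pair. -/
def spl (x : Fin 8 → K) : ((K × K) × (K × K)) × ((K × K) × (K × K)) :=
  (((x 0, x 1), (x 2, x 3)), ((x 4, x 5), (x 6, x 7)))

end Cmp2Aux

open Cmp2Aux

theorem CompAlg.exists_equiv (A : CompAlg K C) {i j l : C} (hi : A.b i A.one = 0)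
    (hi2 : A.b i i = 2) (hj : A.b j A.one = 0) (hji : A.b j i = 0) (hj2 : A.b j j = 2)
    (hl : A.b l A.one = 0) (hli : A.b l i = 0) (hlj : A.b l j = 0) (hlk : A.b l (A.mul i j) = 0)
    (hl2 : A.b l l = 2) :
    ∃ f : (Fin 8 → K) ≃ₗ[K] C, (∀ x, f x = ∑ u, x u • ![A.one, i, j, A.mul i j, l, A.mul i l,
      A.mul j l, A.mul (A.mul i j) l] u) ∧ (∀ x y, f (om x y) = A.mul (f x) (f y)) ∧
      (∀ x y, A.b (f x) (f y) = ob x y) ∧ ∀ x, f (ocj x) = A.conj (f x) := by
  have h1 : ∀ x, A.b i ((base A).g x) = 0 := fun x => by simp [base_g, hi]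
  have h2 : ∀ x, A.b j (((base A).dbl i h1 hi2).g x) = 0 := fun x => by
    simp [dbl_g, base_g, A.one_mul, hj, hji]
  have h3 : ∀ x, A.b l ((((base A).dbl i h1 hi2).dbl j h2 hj2).g x) = 0 := fun x => by
    simp [dbl_g, base_g, A.one_mul, hl, hli, hlj, hlk]
  set M := (((base A).dbl i h1 hi2).dbl j h2 hj2).dbl l h3 hl2 with hM
  set f := Fintype.linearCombination K ![A.one, i, j, A.mul i j, l, A.mul i l, A.mul j l,
    A.mul (A.mul i j) l] with hf
  have e : ∀ x, f x = M.g (spl x) := fun x => by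
    simp only [hf, hM, Fintype.linearCombination_apply, Fin.sum_univ_eight, dbl_g, base_g, spl,
      map_add, map_smul, LinearMap.add_apply, LinearMap.smul_apply, A.one_mul]
    simp only [Matrix.cons_val]
    abel
  have eb : ∀ x y, A.b (f x) (f y) = ob x y := fun x y => by
    rw [e, e, M.hβ]
    simp only [hM, Mdl.dbl, base, spl, ob, Fin.sum_univ_eight]
    ring
  have inj : Function.Injective f := (injective_iff_map_eq_zero f).2 fun x hx => by
    funext u
    have := eb x (Pi.single u 1)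
    rw [hx, map_zero, LinearMap.zero_apply, ob] at this
    simpa [Pi.single_apply] using this
  have : FiniteDimensional K C := Module.finite_of_finrank_pos (by rw [A.dim]; norm_num)
  refine ⟨f.linearEquivOfInjective inj (by simp [A.dim]), fun x => ?_, fun x y => ?_, eb,
    fun x => ?_⟩
  · exact Fintype.linearCombination_apply _ _ x
  · change f _ = A.mul (f x) (f y)
    rw [e, e, e, ← M.hμ]
    congr 1
    simp only [hM, Mdl.dbl, base, spl, om, Matrix.cons_val, Prod.mk_add_mk, Prod.mk_sub_mk,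
      Prod.neg_mk, Prod.mk.injEq]
    refine ⟨⟨⟨?_, ?_⟩, ?_, ?_⟩, ⟨?_, ?_⟩, ?_, ?_⟩ <;> ring
  · change f _ = A.conj (f x)
    rw [e, e, ← M.hκ]
    congr 1

end Pool.Agent.P.MP_3c2f8c_gt.Ex
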