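import Pool.Agent.P.MP_3c2f8c_gt.Ex.HP.Frm
import Pool.Agent.P.MP_3c2f8c_gt.Ex.Al.J1

/-! Ex-HP-Iso: the isomorphism with the standard model. -/

namespace Pool.Agent.P.MP_3c2f8c_gt.Ex

open Matrix

variable {K : Type} [Field K] [CharZero K] {σ : K ≃+* K} {n : T3 K} {φ : GL I K} {b : K}
  {e : I → K}

namespace IsoAux

omit [CharZero K] in
theorem comp_add (x y : Fin 8 → K) : σ ∘ (x + y) = σ ∘ x + σ ∘ y := by
  funext a
  simp

omit [CharZero K] in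
theorem comp_smul (t : K) (x : Fin 8 → K) : σ ∘ (t • x) = σ t • σ ∘ x := by
  funext a
  simp

omit [CharZero K] in
theorem comp_three (h3 : ∀ a, σ (σ (σ a)) = a) (x : Fin 8 → K) : σ ∘ σ ∘ σ ∘ x = x :=
  funext fun a => h3 (x a)

omit [CharZero K] in
theorem ob_map (x y : Fin 8 → K) : σ (ob x y) = ob (σ ∘ x) (σ ∘ y) := by
  simp [ob, map_sum, map_ofNat]

omit [CharZero K] in
theorem ob_self (x : Fin 8 → K) : ob x x = 2 * ∑ u, x u ^ 2 := by
  simp only [ob, sq]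

/-- The linear map from the standard model. -/
def mp (h3 : ∀ a, σ (σ (σ a)) = a) (φ : Matrix I I K) (b : K) (e : I → K) (c : K)
    {W : Submodule K (I → K)} (f : (Fin 8 → K) ≃ₗ[K] W) : (I → K) →ₗ[K] I → K where
  toFun x := frm σ φ b e ![c * x (.inl 0), σ c * x (.inl 1), σ (σ c) * x (.inl 2)]
    (f (ov x 0)).1 (f (σ ∘ σ ∘ ov x 1)).1 (f (σ ∘ ov x 2)).1
  map_add' x y := by
    have h : ∀ i, ov (x + y) i = ov x i + ov y i := fun _ => rfl
    simp only [frm, h, comp_add, map_add, Submodule.coe_add, sl_add, Pi.add_apply,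
      cons_val_zero, cons_val_one, cons_val_two, tail_cons, head_cons]
    module
  map_smul' t x := by
    have h : ∀ i, ov (t • x) i = t • ov x i := fun _ => rfl
    simp only [frm, h, comp_smul, map_smul, Submodule.coe_smul, sl_smul, Pi.smul_apply, h3,
      cons_val_zero, cons_val_one, cons_val_two, tail_cons, head_cons, smul_eq_mul,
      RingHom.id_apply]
    module

end IsoAux

open IsoAux in
theorem exists_iso (h3 : ∀ a, σ (σ (σ a)) = a) (hn : Sym3 n) (hb : b ≠ 0) (hσb : σ b = b)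
    (hφ3 : φ.1 * φ.1.map σ * (φ.1.map σ).map σ = b ^ 2 • (1 : Matrix I I K))
    {W : Submodule K (I → K)} (C C' : Cyc σ W) {c : K} (hc : c ≠ 0)
    (hm : ∀ x y, C.mul x y = c • C'.mul x y) (hb' : ∀ x y, C.b x y = σ c * σ (σ c) * C'.b x y)
    (hs : ∀ v, ∃ (α : Fin 3 → K) (x₀ x₁ x₂ : W), v = frm σ φ.1 b e α x₀.1 x₁.1 x₂.1)
    (ht : ∀ (α : Fin 3 → K) (x₀ x₁ x₂ : W) (v : I → K),
      v = frm σ φ.1 b e α x₀.1 x₁.1 x₂.1 → tri n v v v = 6 * (α 0 * α 1 * α 2) -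
        3 * (α 0 * C.b x₀ x₀ + α 1 * σ (C.b x₁ x₁) + α 2 * σ (σ (C.b x₂ x₂))) +
        6 * C.b (C.mul x₁ x₂) x₀)
    (f : (Fin 8 → K) ≃ₗ[K] W) (hf : ∀ u v, C'.b (f u) (f v) = ob u v)
    (hf' : ∀ u v, C'.mul (f u) (f v) = f (ocj (om (σ ∘ u) (σ ∘ σ ∘ v)))) :
    ∃ θ : GL I K, (∃ ν, Sim n (nJ K) θ.1 ν) ∧ θ.1 * φ.1 = phi b * θ.1.map σ := by
  set L := mp h3 φ.1 b e c f with hL
  have hLx : ∀ x, L x = frm σ φ.1 b e ![c * x (.inl 0), σ c * x (.inl 1), σ (σ c) * x (.inl 2)]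
      (f (ov x 0)).1 (f (σ ∘ σ ∘ ov x 1)).1 (f (σ ∘ ov x 2)).1 := fun _ => rfl
  have hc1 : σ c ≠ 0 := (map_ne_zero σ).2 hc
  have hc2 : σ (σ c) ≠ 0 := (map_ne_zero σ).2 hc1
  have hM : ∀ x, LinearMap.toMatrix' L *ᵥ x = L x := LinearMap.toMatrix'_mulVec L
  have hsurj : Function.Surjective (LinearMap.toMatrix' L).mulVec := fun v => by
    obtain ⟨α, x₀, x₁, x₂, rfl⟩ := hs v
    refine ⟨mkJ ![α 0 / c, α 1 / σ c, α 2 / σ (σ c)]
      ![f.symm x₀, σ ∘ f.symm x₁, σ ∘ σ ∘ f.symm x₂], ?_⟩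
    rw [hM, hLx]
    have h0 : ∀ (a : Fin 3 → K) (y : Fin 3 → Fin 8 → K) i, ov (mkJ a y) i = y i :=
      fun _ _ _ => rfl
    have h1 : ∀ (a : Fin 3 → K) (y : Fin 3 → Fin 8 → K) i, mkJ a y (.inl i) = a i :=
      fun _ _ _ => rfl
    simp only [h0, h1, frm, cons_val_zero, cons_val_one, cons_val_two, tail_cons, head_cons,
      comp_three h3, LinearEquiv.apply_symm_apply, mul_div_cancel₀ _ hc, mul_div_cancel₀ _ hc1,
      mul_div_cancel₀ _ hc2]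
  obtain ⟨M, hMv⟩ := mulVec_surjective_iff_isUnit.1 hsurj
  have hν : c * σ c * σ (σ c) ≠ 0 := mul_ne_zero (mul_ne_zero hc hc1) hc2
  have hsim : Sim (nJ K) n M.1 (Units.mk0 _ hν).1 := by
    refine sim_of_diag sym3_nJ hn fun x => ?_
    rw [hMv, hM, ht _ _ _ _ _ (hLx x), tri_nJ_self, NJ_eq, hm, hb', hb', hb', hb', map_smul,
      LinearMap.smul_apply, hf', hf, hf, hf, hf, ← ot_eq, comp_three h3, comp_three h3,
      ot_rotate (ov x 0), Fin.sum_univ_three]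
    simp only [map_mul, ob_map, comp_three h3, h3, cons_val_zero, cons_val_one, cons_val_two,
      tail_cons, head_cons, Units.val_mk0, smul_eq_mul]
    simp only [ob_self]
    ring
  have hint : φ.1 * M.1.map σ = M.1 * phi b := by
    refine J1Aux.ext_mulVec fun y => ?_
    obtain ⟨x, rfl⟩ : ∃ x : I → K, y = σ ∘ x := ⟨σ ∘ σ ∘ y, funext fun a => (h3 (y a)).symm⟩
    have h1 : M.1.map σ *ᵥ (σ ∘ x) = σ ∘ (M.1 *ᵥ x) :=
      funext fun a => (RingHom.map_mulVec σ.toRingHom M.1 x a).symm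
    have h2 := phi_mulVec b (σ ∘ x)
    rw [← mulVec_mulVec, ← mulVec_mulVec, h1]
    set z := phi b *ᵥ (σ ∘ x)
    have a0 : z (.inl 0) = b ^ 2 * σ (x (.inl 2)) := h2 (.inl 2)
    have a1 : z (.inl 1) = 1 * σ (x (.inl 0)) := h2 (.inl 0)
    have a2 : z (.inl 2) = 1 * σ (x (.inl 1)) := h2 (.inl 1)
    have b0 : ov z 0 = (1 : K) • σ ∘ ov x 2 := funext fun u => h2 (.inr (2, u))
    have b1 : ov z 1 = b • σ ∘ ov x 0 := funext fun u => h2 (.inr (0, u))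
    have b2 : ov z 2 = b • σ ∘ ov x 1 := funext fun u => h2 (.inr (1, u))
    change sl σ φ.1 (M.1 *ᵥ x) = _
    rw [hMv, hM, hM, hLx, hLx, sl_frm h3 hb hσb hφ3, a0, a1, a2, b0, b1, b2]
    simp only [one_smul, one_mul, comp_smul, hσb, comp_three h3, map_smul, Submodule.coe_smul,
      map_mul, h3, cons_val_zero, cons_val_one, cons_val_two, tail_cons, head_cons,
      mul_left_comm c]
  refine ⟨M⁻¹, ⟨_, hsim.inv⟩, ?_⟩
  have h1 : M.1.map σ * (M⁻¹).1.map σ = 1 := by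
    have := Matrix.map_mul (L := M.1) (M := (M⁻¹).1) (f := σ)
    rw [← this, Units.mul_inv]
    exact Matrix.map_one _ (map_zero σ) (map_one σ)
  calc (M⁻¹).1 * φ.1 = (M⁻¹).1 * (φ.1 * M.1.map σ) * (M⁻¹).1.map σ := by
        rw [Matrix.mul_assoc, Matrix.mul_assoc, h1, Matrix.mul_one]
    _ = phi b * (M⁻¹).1.map σ := by
        rw [hint, ← Matrix.mul_assoc, Units.inv_mul, Matrix.one_mul]

end Pool.Agent.P.MP_3c2f8c_gt.Ex
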