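import Pool.Agent.P.MP_3c2f8c_gt.NT.HM

/-! Ex-HP-Mey: positive definite quaternary forms over the rationals. -/

namespace Pool.Agent.P.MP_3c2f8c_gt.Ex

open Matrix NumberField IsDedekindDomain Pool.Agent.P.MP_9ec3f0_nt.SY HMAux in
theorem MeyAux.five {F : Type} [Field F] [NumberField F] {a b c d e : F}
    (hF : ∀ φ : F →+* ℝ, Iso ![φ c, φ d, φ e]) (ha : a ≠ 0) (hb : b ≠ 0) (hc : c ≠ 0)
    (hd : d ≠ 0) (he : e ≠ 0) : Iso ![a, b, c, d, e] := by
  have := fun v : Pr F => adic_charZero v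
  choose L hL using fun v : Pr F => exists_adicLF v
  have n0 : ∀ (v : Pr F) {x : F}, x ≠ 0 → algebraMap F (v.adicCompletion F) x ≠ 0 :=
    fun v _ h => (map_ne_zero _).2 h
  choose x₀ y₀ h0 h1 using fun v : Pr F =>
    iso5_split (n0 v ha) (n0 v hb) (n0 v hc) (n0 v hd) (n0 v he) ((L v).iso_five _)
  choose k hk using fun v : Pr F => near (L v) (h0 v)
  obtain ⟨T, hT⟩ : ∃ T : Finset (Pr F), ∀ v, v ∉ T → v.valuation F 2 = 1 ∧
      v.valuation F c = 1 ∧ v.valuation F d = 1 ∧ v.valuation F e = 1 :=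
    ⟨(((fin_ne two_ne_zero).union (fin_ne hc)).union ((fin_ne hd).union (fin_ne he))).toFinset,
      fun v hv => by simpa [and_assoc] using hv⟩
  obtain ⟨x, y, ht, h2⟩ : ∃ x y : F, a * x ^ 2 + b * y ^ 2 ≠ 0 ∧ ∀ v ∈ T,
      IsSquare ((algebraMap F _ a * x₀ v ^ 2 + algebraMap F _ b * y₀ v ^ 2) *
        algebraMap F (v.adicCompletion F) (a * x ^ 2 + b * y ^ 2)) := by
    rcases T.eq_empty_or_nonempty with rfl | ⟨v₀, hv₀⟩
    · exact ⟨1, 0, by simpa using ha, by simp⟩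
    obtain ⟨m, hm⟩ := (T.finite_toSet.image k).bddBelow
    obtain ⟨x, hx, -⟩ := weak_approx T x₀ m (fun _ => 0) one_pos
    obtain ⟨y, hy, -⟩ := weak_approx T y₀ m (fun _ => 0) one_pos
    have h3 := fun v (hv : v ∈ T) => hk v (algebraMap F _ x) (algebraMap F _ y)
      (by rw [hL]; exact (hx v hv).trans_le (WithZero.exp_le_exp.2 (hm ⟨v, hv, rfl⟩)))
      (by rw [hL]; exact (hy v hv).trans_le (WithZero.exp_le_exp.2 (hm ⟨v, hv, rfl⟩)))
    simp only [← map_pow, ← map_mul, ← map_add] at h3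
    exact ⟨x, y, (map_ne_zero _).1 (h3 v₀ hv₀).1, fun v hv => (h3 v hv).2⟩
  obtain ⟨z, hz, h3⟩ : Iso ![a * x ^ 2 + b * y ^ 2, c, d, e] := by
    refine hm4_adic (fun v => ?_) fun φ => of_inj Fin.succ (Fin.succ_injective 3) (hF φ)
    by_cases hv : v ∈ T
    · exact iso4_of_sq_mul (h0 v) (n0 v ht) (h2 v hv) (h1 v)
    · obtain ⟨a1, a2, a3, a4⟩ := hT v hv
      rw [← adic_v_algebraMap, ← hL] at a1 a2 a3 a4
      refine of_inj Fin.succ (Fin.succ_injective 3)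
        ((iso3_iff (n0 v hc) (n0 v hd) (n0 v he)).2 ((L v).isNm_of_unit ?_ ?_ ?_))
      · rwa [map_ofNat] at a1
      · rw [Valuation.map_neg, map_mul, a2, a4, one_mul]
      · rw [Valuation.map_neg, map_mul, a2, a3, one_mul]
  refine ⟨![x * z 0, y * z 0, z 1, z 2, z 3], fun h => hz ?_, ?_⟩
  · have b0 : x * z 0 = 0 := congrFun h 0
    have b1 : y * z 0 = 0 := congrFun h 1
    have b2 : z 0 = 0 := by
      by_contra h'
      rw [(mul_eq_zero.1 b0).resolve_right h', (mul_eq_zero.1 b1).resolve_right h'] at ht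
      simp at ht
    funext i
    fin_cases i
    exacts [b2, congrFun h 2, congrFun h 3, congrFun h 4]
  · simp only [Fin.sum_univ_succ, cons_val_zero, cons_val_succ, Finset.univ_eq_empty,
      Finset.sum_empty] at h3 ⊢
    exact Eq.trans (by simp; ring) h3

theorem rep_of_pos {a b c d t : ℚ} (ha : 0 < a) (hb : 0 < b) (hc : 0 < c) (hd : 0 < d)
    (ht : 0 < t) : ∃ x y z w : ℚ, a * x ^ 2 + b * y ^ 2 + c * z ^ 2 + d * w ^ 2 = t := by
  obtain ⟨v, hv, h⟩ := MeyAux.five (a := a) (b := b) (c := c) (d := d) (e := -t) (fun φ => by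
    have hd' : (0 : ℝ) < φ d := by simpa using hd
    have ht' : (0 : ℝ) < φ t := by simpa using ht
    refine ⟨![0, √(φ t), √(φ d)], fun h => (Real.sqrt_pos.2 hd').ne' (congrFun h 2), ?_⟩
    rw [Fin.sum_univ_three]
    change φ c * 0 ^ 2 + φ d * √(φ t) ^ 2 + φ (-t) * √(φ d) ^ 2 = 0
    rw [Real.sq_sqrt hd'.le, Real.sq_sqrt ht'.le, map_neg]
    ring) ha.ne' hb.ne' hc.ne' hd.ne' (neg_ne_zero.2 ht.ne')
  rw [Fin.sum_univ_five] at h
  change a * v 0 ^ 2 + b * v 1 ^ 2 + c * v 2 ^ 2 + d * v 3 ^ 2 + -t * v 4 ^ 2 = 0 at h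
  have h4 : v 4 ≠ 0 := by
    intro h4
    have k : ∀ {a : ℚ} (x : ℚ), 0 < a → a * x ^ 2 ≤ 0 → x = 0 := fun x ha h =>
      pow_eq_zero_iff two_ne_zero |>.1
        (le_antisymm (nonpos_of_mul_nonpos_right h ha) (sq_nonneg x))
    have n0 : 0 ≤ a * v 0 ^ 2 := by positivity
    have n1 : 0 ≤ b * v 1 ^ 2 := by positivity
    have n2 : 0 ≤ c * v 2 ^ 2 := by positivity
    have n3 : 0 ≤ d * v 3 ^ 2 := by positivity
    rw [h4] at h
    refine hv (funext fun i => ?_)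
    fin_cases i
    exacts [k (v 0) ha (by linarith), k (v 1) hb (by linarith), k (v 2) hc (by linarith),
      k (v 3) hd (by linarith), h4]
  refine ⟨v 0 / v 4, v 1 / v 4, v 2 / v 4, v 3 / v 4, ?_⟩
  field_simp
  linarith

end Pool.Agent.P.MP_3c2f8c_gt.Ex
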