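import Pool.Agent.P.MP_3c2f8c_gt.Ex.HP.Oc1
import Pool.Agent.P.MP_3c2f8c_gt.Ex.HP.Cmp2
import Pool.Agent.P.MP_3c2f8c_gt.Ex.HP.Mey

/-! Ex-HP-Oc2: definite cyclic compositions with an idempotent are the standard one. -/

namespace Pool.Agent.P.MP_3c2f8c_gt.Ex

variable {K : Type} [Field K] [CharZero K] {σ : K ≃+* K} {W : Type} [AddCommGroup W] [Module K W]

omit [CharZero K] in
theorem exists_fixed_orth (h3 : ∀ a, σ (σ (σ a)) = a) (hσ : σ ≠ RingEquiv.refl K)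
    (b : W →ₗ[K] W →ₗ[K] K) (hd : Module.finrank K W = 8) {Θ : W →+ W}
    (hΘ : ∀ (a : K) x, Θ (a • x) = σ a • Θ x) (hΘ3 : ∀ x, Θ (Θ (Θ x)) = x)
    (hb : ∀ x y, b (Θ x) (Θ y) = σ (b x y)) (s : List W) (hs : s.length < 8)
    (hf : ∀ v ∈ s, Θ v = v) : ∃ u, u ≠ 0 ∧ Θ u = u ∧ ∀ v ∈ s, b u v = 0 := by
  have : FiniteDimensional K W := Module.finite_of_finrank_eq_succ hd
  let L : W →ₗ[K] (Fin s.length → K) := LinearMap.pi fun i => b.flip (s.get i)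
  have hL : LinearMap.ker L ≠ ⊥ := by
    apply LinearMap.ker_ne_bot_of_finrank_lt
    rw [hd, Module.finrank_fin_fun]
    exact hs
  obtain ⟨w, hw, hw0⟩ := Submodule.exists_mem_ne_zero_of_ne_bot hL
  have hws : ∀ v ∈ s, b w v = 0 := by
    intro v hv
    obtain ⟨i, rfl⟩ := List.mem_iff_get.1 hv
    exact congrFun (LinearMap.mem_ker.1 hw) i
  obtain ⟨κ, hκ⟩ : ∃ κ, σ κ ≠ κ := by
    by_contra h
    exact hσ (RingEquiv.ext fun a => not_not.1 fun ha => h ⟨a, ha⟩)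
  have hκ' : σ (σ κ) ≠ κ := fun h => hκ ((congrArg σ h).symm.trans (h3 κ))
  have key : ∀ c : K, Θ (c • w + Θ (c • w) + Θ (Θ (c • w))) =
      c • w + Θ (c • w) + Θ (Θ (c • w)) ∧
      ∀ v ∈ s, b (c • w + Θ (c • w) + Θ (Θ (c • w))) v = 0 := by
    intro c
    refine ⟨by rw [map_add, map_add, hΘ3]; abel, fun v hv => ?_⟩
    have e0 : b (c • w) v = 0 := by
      rw [map_smul, LinearMap.smul_apply, hws v hv, smul_zero]
    have e1 : b (Θ (c • w)) v = 0 := by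
      rw [← hf v hv, hb, e0, map_zero]
    have e2 : b (Θ (Θ (c • w))) v = 0 := by
      rw [← hf v hv, hb, e1, map_zero]
    rw [map_add, map_add, LinearMap.add_apply, LinearMap.add_apply, e0, e1, e2]
    simp
  by_contra hcon
  have hz : ∀ c : K, c • w + σ c • Θ w + σ (σ c) • Θ (Θ w) = 0 := by
    intro c
    by_contra hc
    refine hcon ⟨_, ?_, (key c).1, (key c).2⟩
    rwa [hΘ, hΘ]
  have z0 := hz 1
  have z1 := hz κ
  have z2 := hz (κ ^ 2)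
  simp only [map_one, map_pow] at z0 z2
  have hfin : ((κ - σ κ) * (κ - σ (σ κ))) • w = 0 := by
    linear_combination (norm := module) z2 - (σ κ + σ (σ κ)) • z1 + (σ κ * σ (σ κ)) • z0
  exact hw0 ((smul_eq_zero.1 hfin).resolve_left
    (mul_ne_zero (sub_ne_zero.2 hκ.symm) (sub_ne_zero.2 hκ'.symm)))

theorem Cyc.exists_unit (C : Cyc σ W) (hσ : σ ≠ RingEquiv.refl K)
    (hk : ∀ a, σ a = a → ∃ r : ℚ, a = r) {ι : K →+* ℝ} (hd : C.Defn ι) {ε : W}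
    (h2 : C.b ε ε = 2) {Θ : W →+ W} (hΘ : ∀ (a : K) x, Θ (a • x) = σ a • Θ x)
    (hΘ3 : ∀ x, Θ (Θ (Θ x)) = x) (hb : ∀ x y, C.b (Θ x) (Θ y) = σ (C.b x y)) (s : List W)
    (hs : s.length ≤ 4) (hf : ∀ v ∈ s, Θ v = v) :
    ∃ u, Θ u = u ∧ C.b u u = 2 ∧ ∀ v ∈ s, C.b u v = 0 := by
  have ex := exists_fixed_orth C.three hσ C.b C.dim hΘ hΘ3 hb
  have pos : ∀ u : W, u ≠ 0 → Θ u = u → ∃ r : ℚ, 0 < r ∧ C.b u u = r := by
    intro u hu hu'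
    obtain ⟨r, hr⟩ := hk (C.b u u) (by rw [← hb, hu'])
    refine ⟨r, ?_, hr⟩
    have h1 := hd.2 u ε
    rw [hr, h2, map_ratCast, map_ofNat] at h1
    have h3 : (0 : ℝ) ≤ r := by nlinarith [sq_nonneg (ι (C.b u ε))]
    refine lt_of_le_of_ne (by exact_mod_cast h3) fun h0 => hu (hd.1 u ?_)
    rw [hr, ← h0, Rat.cast_zero]
  obtain ⟨u₁, n₁, f₁, o₁⟩ := ex s (by omega) hf
  obtain ⟨u₂, n₂, f₂, o₂⟩ := ex (u₁ :: s) (by simp only [List.length_cons]; omega)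
    (List.forall_mem_cons.2 ⟨f₁, hf⟩)
  obtain ⟨u₃, n₃, f₃, o₃⟩ := ex (u₂ :: u₁ :: s) (by simp only [List.length_cons]; omega)
    (List.forall_mem_cons.2 ⟨f₂, List.forall_mem_cons.2 ⟨f₁, hf⟩⟩)
  obtain ⟨u₄, n₄, f₄, o₄⟩ := ex (u₃ :: u₂ :: u₁ :: s) (by simp only [List.length_cons]; omega)
    (List.forall_mem_cons.2 ⟨f₃, List.forall_mem_cons.2 ⟨f₂, List.forall_mem_cons.2 ⟨f₁, hf⟩⟩⟩)
  obtain ⟨r₁, p₁, e₁⟩ := pos u₁ n₁ f₁
  obtain ⟨r₂, p₂, e₂⟩ := pos u₂ n₂ f₂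
  obtain ⟨r₃, p₃, e₃⟩ := pos u₃ n₃ f₃
  obtain ⟨r₄, p₄, e₄⟩ := pos u₄ n₄ f₄
  obtain ⟨x, y, z, w, h⟩ := rep_of_pos p₁ p₂ p₃ p₄ (two_pos : (0 : ℚ) < 2)
  rw [List.forall_mem_cons] at o₂
  rw [List.forall_mem_cons, List.forall_mem_cons] at o₃
  rw [List.forall_mem_cons, List.forall_mem_cons, List.forall_mem_cons] at o₄
  obtain ⟨a21, o₂⟩ := o₂
  obtain ⟨a32, a31, o₃⟩ := o₃
  obtain ⟨a43, a42, a41, o₄⟩ := o₄
  have a12 := (C.symm _ _).trans a21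
  have a23 := (C.symm _ _).trans a32
  have a13 := (C.symm _ _).trans a31
  have a34 := (C.symm _ _).trans a43
  have a24 := (C.symm _ _).trans a42
  have a14 := (C.symm _ _).trans a41
  refine ⟨(x : K) • u₁ + (y : K) • u₂ + (z : K) • u₃ + (w : K) • u₄, ?_, ?_, fun v hv => ?_⟩
  · simp only [map_add, hΘ, map_ratCast, f₁, f₂, f₃, f₄]
  · have h' : (r₁ : K) * x ^ 2 + r₂ * y ^ 2 + r₃ * z ^ 2 + r₄ * w ^ 2 = 2 := by
      exact_mod_cast congrArg (Rat.cast : ℚ → K) h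
    simp only [map_add, map_smul, LinearMap.add_apply, LinearMap.smul_apply, smul_eq_mul, e₁, e₂,
      e₃, e₄, a12, a13, a14, a21, a23, a24, a31, a32, a34, a41, a42, a43]
    linear_combination h'
  · simp only [map_add, map_smul, LinearMap.add_apply, LinearMap.smul_apply, smul_eq_mul,
      o₁ v hv, o₂ v hv, o₃ v hv, o₄ v hv, mul_zero, add_zero]

theorem Cyc.exists_oct (C : Cyc σ W) (hσ : σ ≠ RingEquiv.refl K)
    (hk : ∀ a, σ a = a → ∃ r : ℚ, a = r) {ι : K →+* ℝ} (hd : C.Defn ι) {ε : W}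
    (h1 : C.mul ε ε = ε) (h2 : C.b ε ε = 2) :
    ∃ f : (Fin 8 → K) ≃ₗ[K] W, (∀ u v, C.b (f u) (f v) = ob u v) ∧
      ∀ u v, C.mul (f u) (f v) = f (ocj (om (σ ∘ u) (σ ∘ σ ∘ v))) := by
  obtain ⟨A, Θ, hAb, hA1, hε, hΘ, hΘ3, hb, hm, hmul⟩ := C.exists_comp h1 h2
  have ex := C.exists_unit hσ hk hd h2 hΘ hΘ3 hb
  obtain ⟨i, fi, i2, oi⟩ := ex [ε] (by simp) (by simpa using hε)
  obtain ⟨j, fj, j2, oj⟩ := ex [ε, i] (by simp) (by simpa using ⟨hε, fi⟩)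
  obtain ⟨l, fl, l2, ol⟩ := ex [ε, i, j, A.mul i j] (by simp)
    (by simpa using ⟨hε, fi, fj, by rw [hm, fi, fj]⟩)
  rw [← hAb, ← hA1] at oi oj ol
  rw [← hAb] at i2 j2 l2
  obtain ⟨f, hf, fm, fb, fc⟩ := A.exists_equiv (oi _ (by simp)) i2 (oj _ (by simp))
    (oj _ (by simp)) j2 (ol _ (by simp)) (ol _ (by simp)) (ol _ (by simp)) (ol _ (by simp)) l2
  have hfix : ∀ u : Fin 8 → K, Θ (f u) = f (σ ∘ u) := by
    intro u
    rw [hf, hf, map_sum]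
    refine Finset.sum_congr rfl fun k _ => ?_
    rw [hΘ]
    refine congrArg (σ (u k) • ·) ?_
    fin_cases k <;> simp [hm, fi, fj, fl, hA1, hε]
  refine ⟨f, fun u v => by rw [← hAb, fb], fun u v => ?_⟩
  rw [hmul, hfix, hfix, hfix, fc, fm]

end Pool.Agent.P.MP_3c2f8c_gt.Ex
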