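import Pool.Agent.P.MP_3c2f8c_gt.Ex.HP.Red2
import Pool.Agent.P.MP_3c2f8c_gt.Ex.HP.Oc2
import Pool.Agent.P.MP_3c2f8c_gt.Ex.HP.Iso

/-! Ex-HP-Core: the Hasse principle over the cubic field. -/

namespace Pool.Agent.P.MP_3c2f8c_gt.Ex

open Matrix

namespace CoreAux

theorem map_smul_tensor {R S : Type} [CommRing R] [CommRing S] (f : R →+* S) (t : R) (n : T3 R) :
    (t • n).map f = f t • n.map f := by
  funext a b c
  simp [T3.map]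

end CoreAux

theorem core {K : Type} [Field K] [NumberField K] {σ : K ≃+* K} (h3 : ∀ a, σ (σ (σ a)) = a)
    (hσ : σ ≠ RingEquiv.refl K) (hk : ∀ a, σ a = a → ∃ r : ℚ, a = r) {b : K} (hσb : σ b = b)
    (hβ : ∀ x, x * σ x * σ (σ x) ≠ b ^ 2) {n m : T3 K} (hA : IsAlb n m) {φ : GL I K} {ν : K}
    (hφ : Sim (n.map σ) n φ.1 ν)
    (hφ3 : φ.1 * φ.1.map σ * (φ.1.map σ).map σ = b ^ 2 • (1 : Matrix I I K))
    {ι : K →+* ℝ} {G : GL I ℝ} {ν' : ℝ} (hG : Sim (n.map ι) (nJ ℝ) G.1 ν') :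
    ∃ θ : GL I K, (∃ ν, Sim n (nJ K) θ.1 ν) ∧ θ.1 * φ.1 = phi b * θ.1.map σ := by
  have hb : b ≠ 0 := by
    rintro rfl
    exact hβ 0 (by simp)
  have hn : NoPlane (n.map ι) := NoPlane.of_sim hG noPlane_nJ
  obtain ⟨u, rfl⟩ := Sim.isUnit (isAlb_nJ ℝ) hG
  have hm : NoPlane (m.map ι) :=
    NoPlane.of_sim (Sim.dag (hA.map ι) (isAlb_nJ ℝ) hG) noPlane_mJ
  obtain ⟨e, he0, he⟩ := hA.exists_sing
  have hτ := tri_orb_ne h3 hA hφ hφ3 hβ (NoPlane.of_map ι hn) (NoPlane.of_map ι hm) he0 he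
  set τ := tri n e (sl σ φ.1 e) (sl σ φ.1 (sl σ φ.1 e)) with hτd
  have key : ν * σ τ = b ^ 2 * τ := by
    rw [hτd, ← hφ.tri_sl, sl_three h3 hφ3, tri_smul₃, hA.sym.tri_rotate e]
  have hστ : σ τ ≠ 0 := by simpa using hτ
  have hA' : IsAlb (τ⁻¹ • n) (τ • m) := by
    simpa using hA.smul (Units.mk0 τ hτ)⁻¹
  have hφ' : Sim ((τ⁻¹ • n).map σ) (τ⁻¹ • n) φ.1 (b ^ 2) := fun x y z => by
    have e1 : (τ⁻¹ • n).map σ = (σ τ)⁻¹ • n.map σ := by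
      rw [← map_inv₀]
      exact CoreAux.map_smul_tensor σ.toRingHom τ⁻¹ n
    rw [e1, tri_smul_tensor, tri_smul_tensor, hφ]
    have e2 : τ⁻¹ * ν = b ^ 2 * (σ τ)⁻¹ := by
      field_simp
      linear_combination key
    rw [← mul_assoc, e2, mul_assoc]
  have he' : crs (τ⁻¹ • n) e e = 0 := by rw [crs_smul_tensor, he, smul_zero]
  have h1 : tri (τ⁻¹ • n) e (sl σ φ.1 e) (sl σ φ.1 (sl σ φ.1 e)) = 1 := by
    rw [tri_smul_tensor, ← hτd, inv_mul_cancel₀ hτ]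
  obtain ⟨C, hCb, hs, -, ht⟩ := exists_cyc h3 hA' hb hσb hφ' hφ3 he' h1
  have hn' : NoPlane ((τ⁻¹ • n).map ι) := by
    refine NoPlane.of_sim (g := 1) (ν := ι τ) (fun x y z => ?_) hn
    have hιτ : ι τ ≠ 0 := by simpa using hτ
    rw [CoreAux.map_smul_tensor, tri_smul_tensor, map_inv₀, mul_inv_cancel_left₀ hιτ]
    simp
  have hd : C.Defn ι := defn_of_noPlane hA' (frame_orb hφ' he' h1) C hCb hn'
  obtain ⟨x, hx, hT⟩ := C.exists_T_zero hσ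
  obtain ⟨c, C', ε, hc, hmul, hb', hd', hε1, hε2⟩ := C.exists_idem hd hx hT
  obtain ⟨f, hf, hf'⟩ := C'.exists_oct hσ hk hd' hε1 hε2
  obtain ⟨θ, ⟨ν₁, hθ⟩, hθ'⟩ :=
    exists_iso h3 hA'.sym hb hσb hφ3 C C' hc hmul hb' hs ht f hf hf'
  refine ⟨θ, ⟨ν₁ * τ⁻¹, fun x y z => ?_⟩, hθ'⟩
  rw [hθ, tri_smul_tensor, mul_assoc]

end Pool.Agent.P.MP_3c2f8c_gt.Ex
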