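import Pool.Agent.P.MP_3c2f8c_gt.Ex.HP.Defs

/-! Ex-HP-CyB: identities in cyclic compositions, isotopes, base change. -/

namespace Pool.Agent.P.MP_3c2f8c_gt.Ex

variable {K : Type} [Field K] [CharZero K] {σ : K ≃+* K} {W : Type} [AddCommGroup W] [Module K W]

namespace Cyc

variable (C : Cyc σ W)

omit [CharZero K] in
theorem cyc' (x y z : W) : C.b (C.mul x y) z = σ (σ (C.b (C.mul z x) y)) := by
  rw [C.cyc x y z, C.cyc y z x]

theorem left_pol (x y z : W) :
    C.mul x (C.mul y z) + C.mul z (C.mul y x) = σ (C.b x z) • y := by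
  have h := C.left (x + z) y
  have h1 := C.left x y
  have h2 := C.left z y
  simp only [map_add, AddMonoidHom.add_apply, LinearMap.add_apply, C.symm z x] at h
  apply smul_right_injective W (two_ne_zero (α := K))
  linear_combination (norm := module) h - h1 - h2

theorem right_pol (x y z : W) :
    C.mul (C.mul x y) z + C.mul (C.mul z y) x = σ (σ (C.b x z)) • y := by
  have h := C.right (x + z) y
  have h1 := C.right x y
  have h2 := C.right z y
  simp only [map_add, AddMonoidHom.add_apply, LinearMap.add_apply, C.symm z x] at h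
  apply smul_right_injective W (two_ne_zero (α := K))
  linear_combination (norm := module) h - h1 - h2

theorem comp_left (x x' y : W) :
    2 * C.b (C.mul x y) (C.mul x' y) = σ (C.b x x') * σ (σ (C.b y y)) := by
  have h := congrArg (fun w => σ (C.b w x)) (C.left y x')
  simp only [map_smul, LinearMap.smul_apply, smul_eq_mul, map_mul, map_ofNat] at h
  rw [C.cyc, h, C.symm x' x, mul_comm]

theorem comp (x y : W) :
    2 * C.b (C.mul x y) (C.mul x y) = σ (C.b x x) * σ (σ (C.b y y)) := C.comp_left x x y

theorem comp_right (x y y' : W) :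
    2 * C.b (C.mul x y) (C.mul x y') = σ (C.b x x) * σ (σ (C.b y y')) := by
  have h := congrArg (fun w => σ (σ (C.b w y))) (C.right x y')
  simp only [map_smul, LinearMap.smul_apply, smul_eq_mul, map_mul, map_ofNat, C.three] at h
  rw [C.cyc', h, C.symm y' y]

omit [CharZero K] in
theorem T_fixed (x : W) : σ (C.T x) = C.T x := (C.cyc x x x).symm

theorem sq_sq (x : W) :
    (2 : K) • C.mul (C.mul x x) (C.mul x x) = (2 * C.T x) • x - C.b x x • C.mul x x := by
  have h := C.left_pol (C.mul x x) x x
  have h1 := congrArg (C.mul x) (C.left x x)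
  rw [C.mul_smul, C.mul_smul, C.three, map_ofNat, map_ofNat] at h1
  change _ = σ (C.T x) • x at h
  rw [C.T_fixed] at h
  linear_combination (norm := module) (2 : K) • h - h1

omit [CharZero K] in
theorem exists_scale {c : K} (hc : c ≠ 0) : ∃ C' : Cyc σ W,
    (∀ x y, C.mul x y = c • C'.mul x y) ∧ ∀ x y, C.b x y = σ c * σ (σ c) * C'.b x y := by
  have h1 : σ c ≠ 0 := by simpa using hc
  have h2 : σ (σ c) ≠ 0 := by simpa using hc
  refine ⟨{ mul := c⁻¹ • C.mul
            b := (σ c * σ (σ c))⁻¹ • C.b
            three := C.three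
            symm := fun x y => by simp [C.symm x y]
            nondeg := fun x h => C.nondeg x fun y => by simpa [h1, h2] using h y
            dim := C.dim
            smul_mul := fun a x y => by simp [C.smul_mul, smul_comm (σ a)]
            mul_smul := fun a x y => by simp [C.mul_smul, smul_comm (σ (σ a))]
            cyc := fun x y z => by
              simp only [AddMonoidHom.smul_apply, LinearMap.smul_apply, map_smul, smul_eq_mul,
                map_mul, map_inv₀, C.three, C.cyc x y z]
              ring
            left := fun x y => by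
              simp only [AddMonoidHom.smul_apply, LinearMap.smul_apply, smul_eq_mul,
                map_mul, map_inv₀, C.three, C.mul_smul, mul_inv]
              linear_combination (norm := module) (c⁻¹ * (σ (σ c))⁻¹) • C.left x y
            right := fun x y => by
              simp only [AddMonoidHom.smul_apply, LinearMap.smul_apply, smul_eq_mul,
                map_mul, map_inv₀, C.three, C.smul_mul, mul_inv]
              linear_combination (norm := module) (c⁻¹ * (σ c)⁻¹) • C.right x y },
    fun x y => by simp [hc], fun x y => ?_⟩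
  simp only [LinearMap.smul_apply, smul_eq_mul]
  field_simp

/-- A zero of the cubic form gives an isotope with an idempotent. -/
theorem exists_idem {ι : K →+* ℝ} (hd : C.Defn ι) {x : W} (hx : x ≠ 0) (hT : C.T x = 0) :
    ∃ (c : K) (C' : Cyc σ W) (ε : W), c ≠ 0 ∧ (∀ x y, C.mul x y = c • C'.mul x y) ∧
      (∀ x y, C.b x y = σ c * σ (σ c) * C'.b x y) ∧ C'.Defn ι ∧ C'.mul ε ε = ε ∧
      C'.b ε ε = 2 := by
  have hb : C.b x x ≠ 0 := fun h => hx (hd.1 x h)
  have hc : -C.b x x / 2 ≠ 0 := div_ne_zero (neg_ne_zero.2 hb) two_ne_zero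
  obtain ⟨C', h1, h2⟩ := C.exists_scale hc
  have hk : σ (-C.b x x / 2) * σ (σ (-C.b x x / 2)) ≠ 0 := by simpa using hb
  refine ⟨_, C', C.mul x x, hc, h1, h2, ⟨fun y hy => hd.1 y (by rw [h2, hy, mul_zero]),
    fun y z => ?_⟩, ?_, ?_⟩
  · have h := hd.2 y z
    rw [h2 y z, h2 y y, h2 z z] at h
    have hk' : ι (σ (-C.b x x / 2) * σ (σ (-C.b x x / 2))) ≠ 0 := (map_ne_zero ι).2 hk
    generalize σ (-C.b x x / 2) * σ (σ (-C.b x x / 2)) = k at h hk'
    simp only [map_mul] at h
    have hp : 0 < ι k ^ 2 := by positivity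
    apply le_of_mul_le_mul_left _ hp
    linarith
  · apply smul_right_injective W hc
    have h := C.sq_sq x
    rw [hT, h1 (C.mul x x)] at h
    linear_combination (norm := module) (1 / 2 : K) • h
  · apply mul_left_cancel₀ hk
    have h := C.comp x x
    rw [← h2]
    simp only [map_div₀, map_neg, map_ofNat]
    linear_combination (1 / 2 : K) * h

/-- Base change, in coordinates. -/
theorem exists_ext {K' : Type} [Field K'] [CharZero K'] (f : K →+* K') {σ' : K' ≃+* K'}
    (h3 : ∀ a, σ' (σ' (σ' a)) = a) (hf : ∀ a, σ' (f a) = f (σ a)) :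
    ∃ (C' : Cyc σ' (Fin 8 → K')) (β : W ≃ₗ[K] (Fin 8 → K)),
      (∀ x y, C'.mul (f ∘ β x) (f ∘ β y) = f ∘ β (C.mul x y)) ∧
      ∀ x y, C'.b (f ∘ β x) (f ∘ β y) = f (C.b x y) := by
  have : Module.Finite K W := Module.finite_of_finrank_eq_succ C.dim
  let e := Module.finBasisOfFinrankEq K W C.dim
  let β := e.equivFun
  let G : Matrix (Fin 8) (Fin 8) K := Matrix.of fun i j => C.b (e i) (e j)
  let m : (Fin 8 → K') →+ (Fin 8 → K') →+ (Fin 8 → K') :=
    AddMonoidHom.mk' (fun u => AddMonoidHom.mk'
      (fun v k => ∑ i, ∑ j, σ' (u i) * (σ' (σ' (v j)) * f (β (C.mul (e i) (e j)) k)))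
      (fun v w => by funext k; simp [add_mul, mul_add, Finset.sum_add_distrib]))
      (fun u w => by ext v k; simp [add_mul, Finset.sum_add_distrib])
  have hm : ∀ u v k, m u v k =
      ∑ i, ∑ j, σ' (u i) * (σ' (σ' (v j)) * f (β (C.mul (e i) (e j)) k)) := fun _ _ _ => rfl
  let b : (Fin 8 → K') →ₗ[K'] (Fin 8 → K') →ₗ[K'] K' := Matrix.toLinearMap₂' K' (G.map f)
  have hb : ∀ u v, b u v = ∑ i, ∑ j, u i * (v j * f (C.b (e i) (e j))) := fun u v => by
    simp [b, G, Matrix.toLinearMap₂'_apply]
  have hx : ∀ x : W, x = ∑ i, β x i • e i := fun x => (e.sum_equivFun x).symm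
  have m1 : ∀ x y, m (f ∘ β x) (f ∘ β y) = f ∘ β (C.mul x y) := fun x y => by
    funext k
    rw [hm]
    conv_rhs => rw [hx x, hx y]
    simp only [map_sum, AddMonoidHom.finsetSum_apply, C.smul_mul, C.mul_smul, map_smul,
      Function.comp_apply, Finset.sum_apply, Pi.smul_apply, smul_eq_mul, map_mul, hf]
    rw [Finset.sum_comm]
  have b1 : ∀ x y, b (f ∘ β x) (f ∘ β y) = f (C.b x y) := fun x y => by
    rw [hb]
    conv_rhs => rw [hx x, hx y]
    simp only [map_sum, LinearMap.sum_apply, LinearMap.smul_apply, map_smul,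
      Function.comp_apply, smul_eq_mul, map_mul, Finset.mul_sum]
    rw [Finset.sum_comm]
    exact Finset.sum_congr rfl fun _ _ => Finset.sum_congr rfl fun _ _ => by ring
  have s1 : ∀ (a : K') u v, m (a • u) v = σ' a • m u v := fun a u v => by
    funext k; simp [hm, Finset.mul_sum, mul_assoc]
  have s2 : ∀ (a : K') u v, m u (a • v) = σ' (σ' a) • m u v := fun a u v => by
    funext k; simp [hm, Finset.mul_sum, mul_assoc, mul_left_comm]
  have ind : ∀ P : (Fin 8 → K') → Prop, (∀ u v, P u → P v → P (u + v)) →
      (∀ (a : K') x, P (a • (f ∘ β x))) → ∀ u, P u := by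
    intro P h1 h2 u
    have : u = ∑ i, u i • (f ∘ β (e i)) := by
      funext k
      simp [β, Finsupp.single_apply, Pi.single_apply, apply_ite f]
    rw [this]
    exact Finset.sum_induction_nonempty _ P h1 Finset.univ_nonempty fun i _ => h2 _ _
  have ind3 : ∀ {A : Type} [AddCommGroup A] (F : (Fin 8 → K') → (Fin 8 → K') → (Fin 8 → K') → A),
      (∀ u u' v w, F (u + u') v w = F u v w + F u' v w) →
      (∀ u v v' w, F u (v + v') w = F u v w + F u v' w) →
      (∀ u v w w', F u v (w + w') = F u v w + F u v w') →
      (∀ (a a' a'' : K') x y z, F (a • (f ∘ β x)) (a' • (f ∘ β y)) (a'' • (f ∘ β z)) = 0) →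
      ∀ u v w, F u v w = 0 := by
    intro A _ F h1 h2 h3 h4 u v w
    refine ind (fun u => F u v w = 0) (fun _ _ p q => by rw [h1, p, q, add_zero]) (fun a x => ?_) u
    refine ind (fun v => F _ v w = 0) (fun _ _ p q => by rw [h2, p, q, add_zero]) (fun a' y => ?_) v
    exact ind (fun w => F _ _ w = 0) (fun _ _ p q => by rw [h3, p, q, add_zero])
      (fun a'' z => h4 _ _ _ _ _ _) w
  have fa : ∀ x y : W, f ∘ β (x + y) = f ∘ β x + f ∘ β y := fun x y => by funext k; simp
  have fs : ∀ (a : K) (x : W), f ∘ β (a • x) = f a • (f ∘ β x) := fun a x => by funext k; simp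
  have c1 := ind3 (fun u v w => b (m u v) w - σ' (b (m v w) u))
    (fun _ _ _ _ => by simp only [map_add, AddMonoidHom.add_apply, LinearMap.add_apply]; ring)
    (fun _ _ _ _ => by simp only [map_add, AddMonoidHom.add_apply, LinearMap.add_apply]; ring)
    (fun _ _ _ _ => by simp only [map_add, AddMonoidHom.add_apply, LinearMap.add_apply]; ring)
    (fun a a' a'' x y z => by
      simp only [s1, s2, m1, map_smul, LinearMap.smul_apply, b1, smul_eq_mul, map_mul, h3, hf,
        C.cyc x y z]
      ring)
  have c2 := ind3 (fun u v w => m u (m v w) + m w (m v u) - σ' (b u w) • v)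
    (fun _ _ _ _ => by simp only [map_add, AddMonoidHom.add_apply, LinearMap.add_apply]; module)
    (fun _ _ _ _ => by simp only [map_add, AddMonoidHom.add_apply, LinearMap.add_apply]; module)
    (fun _ _ _ _ => by simp only [map_add, AddMonoidHom.add_apply, LinearMap.add_apply]; module)
    (fun a a' a'' x y z => by
      have h := congrArg (fun w => f ∘ β w) (C.left_pol x y z)
      simp only [fa, fs] at h
      simp only [s1, s2, m1, map_smul, LinearMap.smul_apply, b1, smul_eq_mul, map_mul, h3, hf]
      linear_combination (norm := module) (σ' a * a' * σ' a'') • h)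
  have c3 := ind3 (fun u v w => m (m u v) w + m (m w v) u - σ' (σ' (b u w)) • v)
    (fun _ _ _ _ => by simp only [map_add, AddMonoidHom.add_apply, LinearMap.add_apply]; module)
    (fun _ _ _ _ => by simp only [map_add, AddMonoidHom.add_apply, LinearMap.add_apply]; module)
    (fun _ _ _ _ => by simp only [map_add, AddMonoidHom.add_apply, LinearMap.add_apply]; module)
    (fun a a' a'' x y z => by
      have h := congrArg (fun w => f ∘ β w) (C.right_pol x y z)
      simp only [fa, fs] at h
      simp only [s1, s2, m1, map_smul, LinearMap.smul_apply, b1, smul_eq_mul, map_mul, h3, hf]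
      linear_combination (norm := module) (σ' (σ' a) * a' * σ' (σ' a'')) • h)
  have hG : IsUnit G := by
    rw [← Matrix.vecMul_injective_iff_isUnit]
    intro a a' h
    have h0 : β.symm a - β.symm a' = 0 := C.nondeg _ fun y => by
      have : C.b (β.symm a - β.symm a') = 0 := e.ext fun j => by
        have := congrFun h j
        simp only [Matrix.vecMul, dotProduct, G, Matrix.of_apply] at this
        simp [β, Module.Basis.equivFun_symm_apply, this]
      rw [this]; rfl
    exact β.symm.injective (sub_eq_zero.1 h0)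
  have hG' : IsUnit (G.map f) := hG.map f.mapMatrix
  refine ⟨{ mul := m
            b := b
            three := h3
            symm := fun u v => ?_
            nondeg := fun u h => ?_
            dim := by simp
            smul_mul := s1
            mul_smul := s2
            cyc := fun u v w => sub_eq_zero.1 (c1 u v w)
            left := fun u v => by rw [two_smul]; exact sub_eq_zero.1 (c2 u v u)
            right := fun u v => by rw [two_smul]; exact sub_eq_zero.1 (c3 u v u) }, β, m1, b1⟩
  · rw [hb, hb, Finset.sum_comm]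
    refine Finset.sum_congr rfl fun i _ => Finset.sum_congr rfl fun j _ => ?_
    rw [C.symm (e j), mul_left_comm]
  · apply Matrix.vecMul_injective_iff_isUnit.2 hG'
    funext j
    have := h (Pi.single j 1)
    rw [hb] at this
    simpa [Matrix.vecMul, dotProduct, G, Pi.single_apply] using this

end Cyc

end Pool.Agent.P.MP_3c2f8c_gt.Ex
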