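import Pool.Agent.P.MP_3c2f8c_gt.Ex.AlbA

/-!
Definitions for the Hasse principle: frames, Peirce spaces, semilinear maps, cyclic compositions.
-/

namespace Pool.Agent.P.MP_3c2f8c_gt.Ex

open Matrix

variable {K : Type} [Field K]

/-- Three singular vectors on which the trilinear form takes the value one. -/
structure PFrame (n : T3 K) (e : Fin 3 → I → K) : Prop where
  sing : ∀ i, crs n (e i) (e i) = 0
  one : tri n (e 0) (e 1) (e 2) = 1

/-- The dual frame. -/
def xi (n : T3 K) (e : Fin 3 → I → K) (i : Fin 3) : I → K := crs n (e (i + 1)) (e (i + 2))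

/-- The Peirce spaces of a frame. -/
def Vp (n : T3 K) (e : Fin 3 → I → K) (i : Fin 3) : Submodule K (I → K) where
  carrier := {x | ∀ j, j ≠ i → crs n (e j) x = 0}
  add_mem' := fun {x y} hx hy j hj => by rw [crs_add_right, hx j hj, hy j hj, add_zero]
  zero_mem' := fun j _ => crs_zero_right n (e j)
  smul_mem' := fun t x hx j hj => by rw [crs_smul_right, hx j hj, smul_zero]

theorem mem_Vp {n : T3 K} {e : Fin 3 → I → K} {i : Fin 3} {x : I → K} :
    x ∈ Vp n e i ↔ ∀ j, j ≠ i → crs n (e j) x = 0 := Iff.rfl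

/-- The triality product with values in the `k`-th Peirce space. -/
def pst (n m : T3 K) (e : Fin 3 → I → K) (k : Fin 3) (x y : I → K) : I → K :=
  -crs m (xi n e k) (crs n x y)

/-- The semilinear map `v ↦ φ σ(v)`. -/
def sl (σ : K ≃+* K) (φ : Matrix I I K) (v : I → K) : I → K := φ *ᵥ (σ ∘ v)

/-- The orbit of a vector under a semilinear map. -/
def orb (σ : K ≃+* K) (φ : Matrix I I K) (e : I → K) : Fin 3 → I → K :=
  ![e, sl σ φ e, sl σ φ (sl σ φ e)]

/-- The vector with diagonal coordinates `α` and Peirce coordinates `x₀, x₁, x₂`, all three taken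
in the first Peirce space. -/
def frm (σ : K ≃+* K) (φ : Matrix I I K) (b : K) (e : I → K) (α : Fin 3 → K)
    (x₀ x₁ x₂ : I → K) : I → K :=
  α 0 • e + α 1 • sl σ φ e + α 2 • sl σ φ (sl σ φ e) + x₀ + b⁻¹ • sl σ φ x₁ +
    b⁻¹ ^ 2 • sl σ φ (sl σ φ x₂)

/-- Cyclic compositions of dimension eight; the quadratic form is `b x x / 2`. -/
structure Cyc (σ : K ≃+* K) (W : Type) [AddCommGroup W] [Module K W] where
  mul : W →+ W →+ W
  b : W →ₗ[K] W →ₗ[K] K
  three : ∀ a, σ (σ (σ a)) = a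
  symm : ∀ x y, b x y = b y x
  nondeg : ∀ x, (∀ y, b x y = 0) → x = 0
  dim : Module.finrank K W = 8
  smul_mul : ∀ (a : K) x y, mul (a • x) y = σ a • mul x y
  mul_smul : ∀ (a : K) x y, mul x (a • y) = σ (σ a) • mul x y
  cyc : ∀ x y z, b (mul x y) z = σ (b (mul y z) x)
  left : ∀ x y, (2 : K) • mul x (mul y x) = σ (b x x) • y
  right : ∀ x y, (2 : K) • mul (mul x y) x = σ (σ (b x x)) • y

variable {σ : K ≃+* K} {W : Type} [AddCommGroup W] [Module K W]

/-- The cubic form of a cyclic composition. -/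
def Cyc.T (C : Cyc σ W) (x : W) : K := C.b (C.mul x x) x

/-- The quadratic form is definite at the real place `ι`. -/
def Cyc.Defn (C : Cyc σ W) (ι : K →+* ℝ) : Prop :=
  (∀ x, C.b x x = 0 → x = 0) ∧ ∀ x y, ι (C.b x y) ^ 2 ≤ ι (C.b x x) * ι (C.b y y)

/-- The conjugation of a composition algebra. -/
def CompAlg.conj {C : Type} [AddCommGroup C] [Module K C] (A : CompAlg K C) (x : C) : C :=
  A.b x A.one • A.one - x

theorem sl_add (φ : Matrix I I K) (x y : I → K) : sl σ φ (x + y) = sl σ φ x + sl σ φ y := by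
  rw [sl, sl, sl, ← mulVec_add]
  congr 1
  funext a
  simp

theorem sl_smul (φ : Matrix I I K) (t : K) (x : I → K) : sl σ φ (t • x) = σ t • sl σ φ x := by
  rw [sl, sl, ← mulVec_smul]
  congr 1
  funext a
  simp

theorem sl_zero (φ : Matrix I I K) : sl σ φ 0 = 0 := by
  simpa using sl_smul (σ := σ) φ 0 0

theorem sl_one (x : I → K) : sl σ 1 x = σ ∘ x := one_mulVec _

theorem sl_sl (φ ψ : Matrix I I K) (x : I → K) :
    sl σ φ (sl σ ψ x) = (φ * ψ.map σ) *ᵥ (σ ∘ σ ∘ x) := by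
  rw [sl, sl, ← mulVec_mulVec]
  congr 1
  funext a
  exact RingHom.map_mulVec σ.toRingHom ψ (σ ∘ x) a

theorem sl_three (h3 : ∀ a, σ (σ (σ a)) = a) {φ : Matrix I I K} {β : K}
    (h : φ * φ.map σ * (φ.map σ).map σ = β • (1 : Matrix I I K)) (x : I → K) :
    sl σ φ (sl σ φ (sl σ φ x)) = β • x := by
  have e : (σ ∘ σ ∘ sl σ φ x) = (φ.map σ).map σ *ᵥ x := by
    funext a
    have h1 := RingHom.map_mulVec (σ.toRingHom.comp σ.toRingHom) φ (σ ∘ x) a
    have h2 : (σ.toRingHom.comp σ.toRingHom) ∘ σ ∘ x = x := funext fun c => h3 (x c)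
    rw [h2] at h1
    exact h1
  rw [sl_sl, e, mulVec_mulVec, h, smul_mulVec, one_mulVec]

theorem Sim.tri_sl {n : T3 K} {φ : Matrix I I K} {ν : K} (h : Sim (n.map σ) n φ ν)
    (x y z : I → K) : tri n (sl σ φ x) (sl σ φ y) (sl σ φ z) = ν * σ (tri n x y z) := by
  rw [sl, sl, sl, h]
  exact congrArg _ (tri_map σ.toRingHom n x y z)

theorem Sim.crs_sl {n : T3 K} {φ : GL I K} {ν : K} (h : Sim (n.map σ) n φ.1 ν) (x y : I → K) :
    Ex.crs n (sl σ φ.1 x) (sl σ φ.1 y) = ν • sl σ (dag φ).1 (Ex.crs n x y) := by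
  rw [sl, sl, sl, h.crs]
  exact congrArg (fun v => ν • (dag φ).1 *ᵥ v) (crs_map σ.toRingHom n x y)

theorem dot_sl (φ : GL I K) (η x : I → K) :
    sl σ (dag φ).1 η ⬝ᵥ sl σ φ.1 x = σ (η ⬝ᵥ x) := by
  rw [sl, sl, dag_dot]
  simp [dotProduct]

end Pool.Agent.P.MP_3c2f8c_gt.Ex
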