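import Pool.Agent.P.MP_3c2f8c_gt.Ex.HP.Ix
import Pool.Agent.P.MP_3c2f8c_gt.Ex.Al.Tw

/-! Ex-HP-Dsc1: descent of the semilinear action to the cubic field. -/

namespace Pool.Agent.P.MP_3c2f8c_gt.Ex

open Pool.Agent.Lib.CFT
open scoped TensorProduct

namespace Dsc1Aux

variable {R S T U : Type} [CommRing R] [CommRing S] [CommRing T] [CommRing U]

/-- Base change of invertible matrices. -/
def mp (f : R →+* S) : GL I R →* GL I S := Matrix.GeneralLinearGroup.map f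

theorem mp_val (f : R →+* S) (g : GL I R) : (mp f g).1 = g.1.map f := rfl

theorem mp_inj {f : R →+* S} (hf : Function.Injective f) : Function.Injective (mp f) :=
  fun _ _ h => Units.ext (Matrix.map_injective hf (congrArg Units.val h))

theorem mp_comm {f : R →+* S} {g : S →+* U} {f' : R →+* T} {g' : T →+* U}
    (h : ∀ x, g (f x) = g' (f' x)) (X : GL I R) : mp g (mp f X) = mp g' (mp f' X) :=
  Units.ext (Matrix.ext fun a c => h (X.1 a c))

theorem mp_comp {f : R →+* S} {g : S →+* U} {k : R →+* U}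
    (h : ∀ x, g (f x) = k x) (X : GL I R) : mp g (mp f X) = mp k X :=
  Units.ext (Matrix.ext fun a c => h (X.1 a c))

theorem mp_id {f : R →+* R} (h : ∀ x, f x = x) (X : GL I R) : mp f X = X :=
  Units.ext (Matrix.ext fun a c => h (X.1 a c))

theorem mp_entry {f : R →+* R} {X : GL I R} (h : mp f X = X) (a c : I) :
    f (X.1 a c) = X.1 a c := congrArg (fun Z : GL I R => Z.1 a c) h

theorem inc_inj (M : Type) [Field M] [NumberField M] : Function.Injective (inc ℝ M) :=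
  (inc ℝ M).injective

/-- The generator as an algebra automorphism. -/
noncomputable def tau : Aut (Cub ℚ) :=
  AlgEquiv.ofRingEquiv (f := (Cub.sig : Cub ℚ ≃+* Cub ℚ)) fun _ => Cub.sig_C _

theorem tau_apply (x : Cub ℚ) : tau x = Cub.sig x := rfl

variable {F : Type} [Field F] [NumberField F]

/-- The action on the real algebra as a ring homomorphism. -/
noncomputable def la (s : Aut F) : ℝ ⊗[ℚ] F →+* ℝ ⊗[ℚ] F := (lact ℝ s).toRingEquiv.toRingHom

/-- An automorphism as a ring homomorphism. -/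
noncomputable def rh (s : Aut F) : F →+* F := s.toRingEquiv.toRingHom

end Dsc1Aux

open Dsc1Aux

variable {F : Type} [Field F] [NumberField F] [IsGalois ℚ F] {j : Cub ℚ →+* F} {ix : Aut F → ℕ}

theorem exists_frame_descent {b : ℚ} (hb : b ≠ 0) (hix : ∀ s x, s (j x) = j ((Cub.sig ^ ix s) x))
    (ψ : Aut F → GL I F) {G : GL I (ℝ ⊗[ℚ] F)}
    (hG : ∀ s, G.1 * (ψ s).1.map (inc ℝ F) = ph b _ ^ (ix s % 3) * G.1.map (lact ℝ s)) :
    ∃ (P : GL I F) (φ : GL I (Cub ℚ)) (G₀ : GL I (ℝ ⊗[ℚ] Cub ℚ)),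
      φ.1 * φ.1.map Cub.sig * (φ.1.map Cub.sig).map Cub.sig =
        algebraMap ℚ (Cub ℚ) b ^ 2 • (1 : Matrix I I (Cub ℚ)) ∧
      G₀.1.map (lmap ℝ j) = G.1 * P.1.map (inc ℝ F) ∧
      (∀ s, ix s % 3 = 0 → (ψ s).1 * P.1.map s = P.1) ∧
      (∀ s, ix s % 3 = 1 → (ψ s).1 * P.1.map s = P.1 * φ.1.map j) ∧
      ∀ s, ix s % 3 = 2 → (ψ s).1 * P.1.map s = P.1 * (φ.1 * φ.1.map Cub.sig).map j := by
  obtain ⟨Φ₀, hΦ₀⟩ := exists_phU hb (ℝ ⊗[ℚ] Cub ℚ)
  set L : ℝ ⊗[ℚ] Cub ℚ →+* ℝ ⊗[ℚ] F := (lmap ℝ j).toRingHom with hL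
  have Linj : Function.Injective L := lmap_injective ℝ j
  set Φ : GL I (ℝ ⊗[ℚ] F) := mp L Φ₀ with hΦ
  have hΦv : Φ.1 = ph b _ := by rw [hΦ, mp_val, hΦ₀, ph_map]
  have hG' : ∀ s, G * mp (inc ℝ F) (ψ s) = Φ ^ (ix s % 3) * mp (la s) G := fun s => by
    apply Units.ext
    rw [Units.val_mul, Units.val_mul, Units.val_pow_eq_pow_val, hΦv]
    exact hG s
  have hψ : ∀ s, mp (inc ℝ F) (ψ s) = G⁻¹ * (Φ ^ (ix s % 3) * mp (la s) G) := fun s => by
    rw [← hG', inv_mul_cancel_left]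
  have hai : ∀ (s : Aut F) (X : GL I F), mp (la s) (mp (inc ℝ F) X) = mp (inc ℝ F) (mp (rh s) X) :=
    fun s X => mp_comm (fun x => lact_inc ℝ s x) X
  have haa : ∀ (s t : Aut F) (X : GL I (ℝ ⊗[ℚ] F)), mp (la s) (mp (la t) X) = mp (la (s * t)) X :=
    fun s t X => mp_comp (fun x => (lact_mul ℝ s t x).symm) X
  let H : Subgroup (Aut F) :=
    { carrier := {s | ∀ x, s (j x) = j x}
      one_mem' := fun _ => rfl
      mul_mem' := fun {s t} hs ht x => by rw [AlgEquiv.mul_apply, ht x, hs x]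
      inv_mem' := fun {s} hs x => by
        conv_lhs => rw [← hs x]
        exact s.symm_apply_apply _ }
  have hH : ∀ s, s ∈ H ↔ ix s % 3 = 0 := fun s => (ix_zero_iff hix s).symm
  obtain ⟨P, hP⟩ := exists_speiser H ψ fun s hs t ht => by
    have e : ψ (s * t) = ψ s * mp (rh s) (ψ t) := by
      apply mp_inj (inc_inj F)
      rw [map_mul, ← hai, hψ, hψ, hψ, (hH _).1 hs, (hH _).1 ht, (hH _).1 (H.mul_mem hs ht)]
      simp only [pow_zero, one_mul, map_mul, map_inv, haa]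
      group
    exact congrArg Units.val e
  have hP' : ∀ s, ix s % 3 = 0 → ψ s * mp (rh s) P = P := fun s hs =>
    Units.ext (hP s ((hH s).2 hs))
  set Q : GL I (ℝ ⊗[ℚ] F) := G * mp (inc ℝ F) P with hQ
  have hQs : ∀ s, mp (inc ℝ F) (P⁻¹ * (ψ s * mp (rh s) P)) =
      Q⁻¹ * (Φ ^ (ix s % 3) * mp (la s) Q) := fun s => by
    rw [map_mul, map_mul, hψ, hQ, map_mul, hai, map_inv]
    group
  have hQf : ∀ s, ix s % 3 = 0 → mp (la s) Q = Q := fun s hs => by
    have := hQs s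
    rw [hP' s hs, hs, pow_zero, one_mul, inv_mul_cancel, map_one] at this
    exact (inv_mul_eq_one.1 this.symm).symm
  obtain ⟨G₀, hG₀⟩ := exists_gl_of_map Linj Q
    (fun a c => exists_of_fixed_real hix fun s hs =>
      mp_entry (hQf s hs) a c)
    (fun a c => exists_of_fixed_real hix fun s hs => by
      have e : mp (la s) Q⁻¹ = Q⁻¹ := by rw [map_inv, hQf s hs]
      exact mp_entry e a c)
  have hG₀' : mp L G₀ = Q := Units.ext hG₀
  have hj1 : ∀ s, ix s % 3 = 1 → ∀ x, s (j x) = j (tau x) := fun s hs x => by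
    rw [hix, ← sig_pow_mod, hs, pow_one, tau_apply]
  have hj2 : ∀ s, ix s % 3 = 2 → ∀ x, s (j x) = j ((tau * tau) x) := fun s hs x => by
    rw [hix, ← sig_pow_mod, hs, pow_two]
    rfl
  have hT : mp (la tau) Φ₀ = Φ₀ := Units.ext (by rw [mp_val, hΦ₀, ph_map])
  set Y : GL I (ℝ ⊗[ℚ] Cub ℚ) := G₀⁻¹ * (Φ₀ * mp (la tau) G₀) with hY
  have hY1 : ∀ s, ix s % 3 = 1 → mp (inc ℝ F) (P⁻¹ * (ψ s * mp (rh s) P)) = mp L Y :=
    fun s hs => by
      have e : mp (la s) (mp L G₀) = mp L (mp (la tau) G₀) :=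
        mp_comm (fun x => lact_lmap (hj1 s hs) x) G₀
      rw [hQs, hs, pow_one, hY, map_mul (mp L), map_mul (mp L), map_inv, ← e, hG₀']
  have hYY : Y * mp (la tau) Y = G₀⁻¹ * (Φ₀ ^ 2 * mp (la tau) (mp (la tau) G₀)) := by
    rw [hY]
    simp only [map_mul, map_inv, hT, pow_two]
    group
  have hY2 : ∀ s, ix s % 3 = 2 →
      mp (inc ℝ F) (P⁻¹ * (ψ s * mp (rh s) P)) = mp L (Y * mp (la tau) Y) := fun s hs => by
    have e : mp (la s) (mp L G₀) = mp L (mp (la tau) (mp (la tau) G₀)) := by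
      rw [mp_comp (k := la (tau * tau)) (fun x => (lact_mul ℝ tau tau x).symm) G₀]
      exact mp_comm (fun x => lact_lmap (hj2 s hs) x) G₀
    rw [hQs, hs, hYY, map_mul (mp L), map_mul (mp L), map_inv, map_pow, ← e, hG₀']
  obtain ⟨s₁, hs₁⟩ := exists_ix_one hix
  have hX : ∀ t, ix t % 3 = 0 → mp (rh t) (P⁻¹ * (ψ s₁ * mp (rh s₁) P)) =
      P⁻¹ * (ψ s₁ * mp (rh s₁) P) := fun t ht => by
    apply mp_inj (inc_inj F)
    rw [← hai, hY1 s₁ hs₁]
    exact mp_comp (fun x => lact_lmap_fixed ((ix_zero_iff hix t).1 ht) x) Y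
  obtain ⟨φ, hφ⟩ := exists_gl_of_map j.injective (P⁻¹ * (ψ s₁ * mp (rh s₁) P))
    (fun a c => exists_of_fixed hix fun s hs =>
      mp_entry (hX s hs) a c)
    (fun a c => exists_of_fixed hix fun s hs => by
      have e : mp (rh s) (P⁻¹ * (ψ s₁ * mp (rh s₁) P))⁻¹ = (P⁻¹ * (ψ s₁ * mp (rh s₁) P))⁻¹ := by
        rw [map_inv, hX s hs]
      exact mp_entry e a c)
  have hφ' : mp j φ = P⁻¹ * (ψ s₁ * mp (rh s₁) P) := Units.ext hφ
  have hLi : ∀ X : GL I (Cub ℚ), mp L (mp (inc ℝ (Cub ℚ)) X) = mp (inc ℝ F) (mp j X) :=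
    fun X => mp_comm (fun x => lmap_inc ℝ j x) X
  have hφY : mp (inc ℝ (Cub ℚ)) φ = Y := by
    apply mp_inj Linj
    rw [hLi, hφ', hY1 s₁ hs₁]
  have hti : ∀ X : GL I (Cub ℚ),
      mp (inc ℝ (Cub ℚ)) (mp (rh tau) X) = mp (la tau) (mp (inc ℝ (Cub ℚ)) X) :=
    fun X => mp_comm (fun x => (lact_inc ℝ tau x).symm) X
  refine ⟨P, φ, G₀, ?_, hG₀, fun s hs => hP s ((hH s).2 hs), fun s hs => ?_, fun s hs => ?_⟩
  · have h3 : mp (la tau) (mp (la tau) (mp (la tau) G₀)) = G₀ := by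
      rw [mp_comp (k := la (tau * tau)) (fun x => (lact_mul ℝ tau tau x).symm) G₀,
        mp_comp (k := la (tau * (tau * tau))) (fun x => (lact_mul ℝ tau (tau * tau) x).symm) G₀]
      have : tau * (tau * tau) = 1 := AlgEquiv.ext fun x => Cub.sig_sig_sig x
      rw [this]
      exact mp_id (fun x => lact_one ℝ x) G₀
    have e : mp (inc ℝ (Cub ℚ)) (φ * mp (rh tau) φ * mp (rh tau) (mp (rh tau) φ)) =
        G₀⁻¹ * (Φ₀ * Φ₀ * Φ₀) * G₀ := by
      rw [map_mul, map_mul, hti, hti, hti, hφY, hY]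
      simp only [map_mul, map_inv, hT, h3]
      group
    have e2 := congrArg Units.val e
    rw [Units.val_mul, Units.val_mul, Units.val_mul, Units.val_mul, hΦ₀, ph, phi_cube,
      Matrix.mul_smul, Matrix.mul_one, Matrix.smul_mul, Units.inv_mul, mp_val] at e2
    apply Matrix.map_injective (inc_inj (Cub ℚ))
    refine e2.trans ?_
    ext a c
    by_cases h : a = c
    · subst h
      simp only [Matrix.smul_apply, Matrix.one_apply_eq, smul_eq_mul, mul_one, Matrix.map_apply,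
        map_pow, RingHom.map_rat_algebraMap]
    · simp only [Matrix.smul_apply, Matrix.one_apply_ne h, smul_eq_mul, mul_zero, Matrix.map_apply,
        map_zero]
  · have e : P⁻¹ * (ψ s * mp (rh s) P) = mp j φ := by
      apply mp_inj (inc_inj F)
      rw [hY1 s hs, ← hLi, hφY]
    exact congrArg Units.val (inv_mul_eq_iff_eq_mul.1 e)
  · have e : P⁻¹ * (ψ s * mp (rh s) P) = mp j (φ * mp (rh tau) φ) := by
      apply mp_inj (inc_inj F)
      rw [hY2 s hs, ← hLi, map_mul (mp (inc ℝ (Cub ℚ))), hti, hφY]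
    exact congrArg Units.val (inv_mul_eq_iff_eq_mul.1 e)

end Pool.Agent.P.MP_3c2f8c_gt.Ex
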