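import Pool.Agent.P.MP_3c2f8c_gt.Ex.HP.Ix
import Pool.Agent.P.MP_3c2f8c_gt.Ex.Al.Tw

/-! Ex-HP-Dsc2: descent of the tensors to the cubic field; the real point. -/

namespace Pool.Agent.P.MP_3c2f8c_gt.Ex

open Matrix Pool.Agent.Lib.CFT
open scoped TensorProduct

variable {F : Type} [Field F] [NumberField F] {j : Cub ℚ →+* F} {ix : Aut F → ℕ} {n m : T3 F}

namespace Dsc2Aux

theorem desc {R S : Type} [CommRing R] [CommRing S] {f : R →+* S} (hf : Function.Injective f)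
    {n n' : T3 R} {g : Matrix I I R} {ω : S} (h : Sim (n.map f) (n'.map f) (g.map f) ω) {a b c : I}
    (h1 : n a b c = 1) : ∃ ν, Sim n n' g ν := by
  have h2 := sim_iff_pull.1 h
  rw [T3.pull_map] at h2
  have h3 : f (n'.pull g a b c) = ω * f (n a b c) := congrFun (congrFun (congrFun h2 a) b) c
  rw [h1, map_one, mul_one] at h3
  exact ⟨_, Sim.of_map hf (h3 ▸ h)⟩

end Dsc2Aux

theorem exists_tensor_descent [IsGalois ℚ F] (hix : ∀ s x, s (j x) = j ((Cub.sig ^ ix s) x))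
    (hA : IsAlb n m) (ψ : Aut F → GL I F) (hψ : ∀ s : Aut F, ∃ ν, Sim (n.map s) n (ψ s).1 ν)
    {P : GL I F} {φ : GL I (Cub ℚ)} (h0 : ∀ s, ix s % 3 = 0 → (ψ s).1 * P.1.map s = P.1)
    (h1 : ∀ s, ix s % 3 = 1 → (ψ s).1 * P.1.map s = P.1 * φ.1.map j) :
    ∃ (u : Fˣ) (n₀ m₀ : T3 (Cub ℚ)) (ν : Cub ℚ), IsAlb n₀ m₀ ∧ Sim (n₀.map j) n P.1 u.1 ∧
      Sim (n₀.map Cub.sig) n₀ φ.1 ν := by
  have key : ∀ (s : Aut F) (A : Matrix I I F), (ψ s).1 * P.1.map s = P.1 * A →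
      ∃ ν, Sim ((n.pull P.1).map s) (n.pull P.1) A ν := fun s A e => by
    obtain ⟨ν, hν⟩ := hψ s
    refine ⟨ν, fun x y z => ?_⟩
    have h2 : (n.map s).pull (P.1.map s) = (n.pull P.1).map s := T3.pull_map (s : F →+* F) n P.1
    rw [tri_pull, mulVec_mulVec, mulVec_mulVec, mulVec_mulVec, ← e, ← mulVec_mulVec,
      ← mulVec_mulVec, ← mulVec_mulVec, hν, ← h2, tri_pull]
  have hA1 := hA.pull P
  obtain ⟨a, b, c, hu⟩ : ∃ a b c, n.pull P.1 a b c ≠ 0 := by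
    obtain ⟨x, hx⟩ := hA1.exists_ne
    by_contra h
    push Not at h
    exact hx (by simp [tri, h])
  let u : Fˣ := Units.mk0 _ hu
  have hA2 := hA1.smul u⁻¹
  have f2 : ∀ s : Aut F, ix s % 3 = 0 → ((u⁻¹).1 • n.pull P.1).map s = (u⁻¹).1 • n.pull P.1 :=
    fun s hs => by
      obtain ⟨ν, hν⟩ := key s 1 ((h0 s hs).trans (Matrix.mul_one _).symm)
      have h2 : ∀ a b c, n.pull P.1 a b c = ν * s (n.pull P.1 a b c) := fun a b c => by
        have h3 := hν (Pi.single a 1) (Pi.single b 1) (Pi.single c 1)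
        rwa [one_mulVec, one_mulVec, one_mulVec, tri_single, tri_single] at h3
      have h4 : ν ≠ 0 := left_ne_zero_of_mul (h2 a b c ▸ hu)
      funext a' b' c'
      change s ((n.pull P.1 a b c)⁻¹ * n.pull P.1 a' b' c') =
        (n.pull P.1 a b c)⁻¹ * n.pull P.1 a' b' c'
      conv_rhs => rw [h2 a b c, h2 a' b' c']
      rw [map_mul, map_inv₀, mul_inv, mul_mul_mul_comm, inv_mul_cancel₀ h4, one_mul]
  have f3 : ∀ s : Aut F, ix s % 3 = 0 →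
      (u⁻¹⁻¹).1 • m.pull (dag P).1 = ((u⁻¹⁻¹).1 • m.pull (dag P).1).map s := fun s hs => by
    have h2 : IsAlb (((u⁻¹).1 • n.pull P.1).map s) (((u⁻¹⁻¹).1 • m.pull (dag P).1).map s) :=
      hA2.map (s : F →+* F)
    rw [f2 s hs] at h2
    exact hA2.unique h2
  choose n₀ hn₀ using fun a b c => exists_of_fixed hix (x := ((u⁻¹).1 • n.pull P.1) a b c)
    fun s hs => congrFun (congrFun (congrFun (f2 s hs) a) b) c
  choose m₀ hm₀ using fun a b c => exists_of_fixed hix (x := ((u⁻¹⁻¹).1 • m.pull (dag P).1) a b c)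
    fun s hs => (congrFun (congrFun (congrFun (f3 s hs) a) b) c).symm
  have e1 : T3.map j n₀ = (u⁻¹).1 • n.pull P.1 := funext fun a => funext fun b => funext (hn₀ a b)
  have e2 : T3.map j m₀ = (u⁻¹⁻¹).1 • m.pull (dag P).1 :=
    funext fun a => funext fun b => funext (hm₀ a b)
  have e3 : n.pull P.1 = u.1 • T3.map j n₀ := by rw [e1, smul_smul, Units.mul_inv, one_smul]
  obtain ⟨s, hs⟩ := exists_ix_one hix
  obtain ⟨ν, hν⟩ := key s _ (h1 s hs)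
  have e4 : (n.pull P.1).map s = s u.1 • T3.map j (T3.map Cub.sig n₀) := by
    rw [e3]
    funext a' b' c'
    change s (u.1 * j (n₀ a' b' c')) = s u.1 * j (Cub.sig (n₀ a' b' c'))
    rw [map_mul, hix, ← sig_pow_mod, hs, pow_one]
  have e5 : n₀ a b c = 1 := j.injective ((hn₀ a b c).trans
    ((inv_mul_cancel₀ hu).trans (map_one j).symm))
  obtain ⟨τ, hτ⟩ := Dsc2Aux.desc j.injective (n := T3.map Cub.sig n₀) (n' := n₀) (g := φ.1)
    (ω := (u⁻¹).1 * (ν * s u.1)) (fun x y z => by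
      have h2 := hν x y z
      rw [e4, e3, tri_smul_tensor, tri_smul_tensor] at h2
      rw [mul_assoc, mul_assoc, ← h2, Units.inv_mul_cancel_left])
    (a := a) (b := b) (c := c) ((congrArg Cub.sig e5).trans (map_one _))
  refine ⟨u, n₀, m₀, τ, IsAlb.of_map j.injective (by rw [e1, e2]; exact hA2),
    fun x y z => ?_, hτ⟩
  rw [← tri_pull, e3, tri_smul_tensor]

theorem exists_real_point {n₀ m₀ : T3 (Cub ℚ)} (hA₀ : IsAlb n₀ m₀) {P : GL I F} {u : F}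
    (hP : Sim (n₀.map j) n P.1 u) {G : GL I (ℝ ⊗[ℚ] F)} {ν : ℝ ⊗[ℚ] F}
    (hG : Sim (n.map (inc ℝ F)) (nJ _) G.1 ν) {G₀ : GL I (ℝ ⊗[ℚ] Cub ℚ)}
    (h : G₀.1.map (lmap ℝ j) = G.1 * P.1.map (inc ℝ F)) :
    ∃ (G₁ : GL I ℝ) (ν₁ : ℝ), Sim (n₀.map iotaQ) (nJ ℝ) G₁.1 ν₁ := by
  let f : ℝ ⊗[ℚ] Cub ℚ →+* ℝ ⊗[ℚ] F := (lmap ℝ j).toRingHom
  have h1 : Sim ((n₀.map (inc ℝ (Cub ℚ))).map f) (nJ _) (glmap f G₀).1 (ν * inc ℝ F u) := by
    have h2 := hG.mul (hP.map (inc ℝ F))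
    rw [← h] at h2
    exact h2
  obtain ⟨ω, hω⟩ := h1.isUnit (isAlb_nJ _)
  rw [← hω] at h1
  have h2 := h1.inv
  rw [← nJ_map f] at h2
  obtain ⟨τ, hτ⟩ := Dsc2Aux.desc (f := f) (lmap_injective ℝ j) (g := (G₀⁻¹).1) h2 nJ_base
  let π : ℝ ⊗[ℚ] Cub ℚ →+* ℝ :=
    (Algebra.TensorProduct.productMap (AlgHom.id ℚ ℝ) iotaQ.toRatAlgHom).toRingHom
  have e : (n₀.map (inc ℝ (Cub ℚ))).map π = n₀.map iotaQ := by
    funext a b c
    exact one_mul (iotaQ (n₀ a b c))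
  have h3 : Sim (nJ ℝ) (n₀.map iotaQ) (glmap π G₀⁻¹).1 (π τ) := by
    have h4 := hτ.map π
    rwa [nJ_map, e] at h4
  obtain ⟨ω', hω'⟩ := h3.isUnit (hA₀.map iotaQ)
  rw [← hω'] at h3
  exact ⟨_, _, h3.inv⟩

end Pool.Agent.P.MP_3c2f8c_gt.Ex
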