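import Pool.Agent.P.MP_3c2f8c_gt.Ex.HP.Pe2

/-! Ex-HP-Frm: the cyclic composition of a frame permuted by a semilinear similitude. -/

namespace Pool.Agent.P.MP_3c2f8c_gt.Ex

open Matrix

variable {K : Type} [Field K] [CharZero K] {σ : K ≃+* K} {n m : T3 K} {φ : GL I K} {b : K}
  {e : I → K}

omit [CharZero K] in
theorem frame_orb (hφ : Sim (n.map σ) n φ.1 (b ^ 2)) (he : crs n e e = 0)
    (h1 : tri n e (sl σ φ.1 e) (sl σ φ.1 (sl σ φ.1 e)) = 1) : PFrame n (orb σ φ.1 e) := by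
  have k1 : crs n (sl σ φ.1 e) (sl σ φ.1 e) = 0 := by
    rw [hφ.crs_sl, he, sl_zero, smul_zero]
  have k2 : crs n (sl σ φ.1 (sl σ φ.1 e)) (sl σ φ.1 (sl σ φ.1 e)) = 0 := by
    rw [hφ.crs_sl, k1, sl_zero, smul_zero]
  refine ⟨fun i => ?_, h1⟩
  fin_cases i
  · exact he
  · exact k1
  · exact k2

namespace FrmAux

/-- The standing hypotheses. -/
structure Hyp (σ : K ≃+* K) (n m : T3 K) (φ : GL I K) (b : K) (e : I → K) : Prop where
  h3 : ∀ a, σ (σ (σ a)) = a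
  hA : IsAlb n m
  hb : b ≠ 0
  hσb : σ b = b
  hφ : Sim (n.map σ) n φ.1 (b ^ 2)
  hφ3 : φ.1 * φ.1.map σ * (φ.1.map σ).map σ = b ^ 2 • (1 : Matrix I I K)
  he : crs n e e = 0
  h1 : tri n e (sl σ φ.1 e) (sl σ φ.1 (sl σ φ.1 e)) = 1

/-- The map from the first to the second Peirce space. -/
def pA (σ : K ≃+* K) (φ : GL I K) (b : K) (x : I → K) : I → K := b⁻¹ • sl σ φ.1 x

/-- The map from the first to the third Peirce space. -/
def pB (σ : K ≃+* K) (φ : GL I K) (b : K) (x : I → K) : I → K :=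
  b⁻¹ ^ 2 • sl σ φ.1 (sl σ φ.1 x)

omit [CharZero K] in
theorem pA_add (x y : I → K) : pA σ φ b (x + y) = pA σ φ b x + pA σ φ b y := by
  rw [pA, pA, pA, sl_add, smul_add]

omit [CharZero K] in
theorem pB_add (x y : I → K) : pB σ φ b (x + y) = pB σ φ b x + pB σ φ b y := by
  rw [pB, pB, pB, sl_add, sl_add, smul_add]

omit [CharZero K] in
theorem pA_smul (a : K) (x : I → K) : pA σ φ b (a • x) = σ a • pA σ φ b x := by
  rw [pA, pA, sl_smul, smul_comm]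

omit [CharZero K] in
theorem pB_smul (a : K) (x : I → K) : pB σ φ b (a • x) = σ (σ a) • pB σ φ b x := by
  rw [pB, pB, sl_smul, sl_smul, smul_comm]

omit [CharZero K] in
theorem pst_add_left (E : Fin 3 → I → K) (k : Fin 3) (x x' y : I → K) :
    pst n m E k (x + x') y = pst n m E k x y + pst n m E k x' y := by
  rw [pst, pst, pst, crs_add_left, crs_add_right, neg_add]

omit [CharZero K] in
theorem pst_add_right (E : Fin 3 → I → K) (k : Fin 3) (x y y' : I → K) :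
    pst n m E k x (y + y') = pst n m E k x y + pst n m E k x y' := by
  rw [pst, pst, pst, crs_add_right, crs_add_right, neg_add]

omit [CharZero K] in
theorem pst_smul_left (E : Fin 3 → I → K) (k : Fin 3) (a : K) (x y : I → K) :
    pst n m E k (a • x) y = a • pst n m E k x y := by
  rw [pst, pst, crs_smul_left, crs_smul_right, smul_neg]

omit [CharZero K] in
theorem pst_smul_right (E : Fin 3 → I → K) (k : Fin 3) (a : K) (x y : I → K) :
    pst n m E k x (a • y) = a • pst n m E k x y := by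
  rw [pst, pst, crs_smul_right, crs_smul_right, smul_neg]

omit [CharZero K] in
theorem tri_sub₂ (x y y' z : I → K) : tri n x (y - y') z = tri n x y z - tri n x y' z := by
  rw [tri_eq_dot, tri_eq_dot, tri_eq_dot, crs_sub_right, sub_dotProduct]

namespace Hyp

variable (H : Hyp σ n m φ b e)
include H

omit [CharZero K] in
theorem frame : PFrame n (orb σ φ.1 e) := frame_orb H.hφ H.he H.h1

omit [CharZero K] in
theorem three (x : I → K) : sl σ φ.1 (sl σ φ.1 (sl σ φ.1 x)) = b ^ 2 • x :=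
  sl_three H.h3 H.hφ3 x

omit [CharZero K] in
theorem tri1 (x y z : I → K) :
    tri n (sl σ φ.1 x) (sl σ φ.1 y) (sl σ φ.1 z) = b ^ 2 * σ (tri n x y z) := H.hφ.tri_sl x y z

omit [CharZero K] in
theorem crs0 {x y : I → K} (h : crs n x y = 0) : crs n (sl σ φ.1 x) (sl σ φ.1 y) = 0 := by
  rw [H.hφ.crs_sl, h, sl_zero, smul_zero]

omit [CharZero K] in
theorem crs2 {y : I → K} (h : crs n (sl σ φ.1 (sl σ φ.1 e)) y = 0) :
    crs n e (sl σ φ.1 y) = 0 := by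
  have k := H.crs0 h
  rw [H.three, crs_smul_left] at k
  exact (smul_eq_zero.1 k).resolve_left (pow_ne_zero _ H.hb)

omit [CharZero K] in
theorem mem01 {x : I → K} (hx : x ∈ Vp n (orb σ φ.1 e) 0) :
    sl σ φ.1 x ∈ Vp n (orb σ φ.1 e) 1 := by
  intro j hj
  fin_cases j
  · exact H.crs2 (hx 2 (by decide))
  · exact absurd rfl hj
  · exact H.crs0 (hx 1 (by decide))

omit [CharZero K] in
theorem mem12 {x : I → K} (hx : x ∈ Vp n (orb σ φ.1 e) 1) :
    sl σ φ.1 x ∈ Vp n (orb σ φ.1 e) 2 := by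
  intro j hj
  fin_cases j
  · exact H.crs2 (hx 2 (by decide))
  · exact H.crs0 (hx 0 (by decide))
  · exact absurd rfl hj

omit [CharZero K] in
theorem mem20 {x : I → K} (hx : x ∈ Vp n (orb σ φ.1 e) 2) :
    sl σ φ.1 x ∈ Vp n (orb σ φ.1 e) 0 := by
  intro j hj
  fin_cases j
  · exact absurd rfl hj
  · exact H.crs0 (hx 0 (by decide))
  · exact H.crs0 (hx 1 (by decide))

omit [CharZero K] in
theorem memA {x : I → K} (hx : x ∈ Vp n (orb σ φ.1 e) 0) :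
    pA σ φ b x ∈ Vp n (orb σ φ.1 e) 1 := Submodule.smul_mem _ _ (H.mem01 hx)

omit [CharZero K] in
theorem memB {x : I → K} (hx : x ∈ Vp n (orb σ φ.1 e) 0) :
    pB σ φ b x ∈ Vp n (orb σ φ.1 e) 2 := Submodule.smul_mem _ _ (H.mem12 (H.mem01 hx))

omit [CharZero K] in
theorem σinv : σ b⁻¹ = b⁻¹ := by rw [map_inv₀, H.hσb]

omit [CharZero K] in
theorem surj1 (z : I → K) : ∃ w, z = sl σ φ.1 w := by
  refine ⟨b⁻¹ ^ 2 • sl σ φ.1 (sl σ φ.1 z), ?_⟩
  rw [sl_smul, H.three, map_pow, H.σinv, smul_smul, ← mul_pow, inv_mul_cancel₀ H.hb, one_pow,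
    one_smul]

omit [CharZero K] in
theorem inj {x : I → K} (h : sl σ φ.1 x = 0) : x = 0 := by
  have k := H.three x
  rw [h, sl_zero, sl_zero] at k
  exact (smul_eq_zero.1 k.symm).resolve_left (pow_ne_zero _ H.hb)

omit [CharZero K] in
/-- The basic cyclic identity. -/
theorem cyc (x y z : I → K) :
    tri n (pA σ φ b x) (pB σ φ b y) z = σ (tri n (pA σ φ b y) (pB σ φ b z) x) := by
  have k := H.tri1 (sl σ φ.1 y) (sl σ φ.1 (sl σ φ.1 z)) x
  rw [H.three, tri_smul₂, ← H.hA.sym.tri_rotate] at k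
  have k' := mul_left_cancel₀ (pow_ne_zero _ H.hb) k
  simp only [pA, pB, tri_smul₁, tri_smul₂, map_mul, map_pow, H.σinv, k']

omit [CharZero K] in
theorem qA (x y : I → K) :
    tri n (sl σ φ.1 e) (pA σ φ b x) (pA σ φ b y) = σ (tri n e x y) := by
  have hb := H.hb
  rw [pA, pA, tri_smul₂, tri_smul₃, H.tri1]
  field_simp

omit [CharZero K] in
theorem qB (x y : I → K) :
    tri n (sl σ φ.1 (sl σ φ.1 e)) (pB σ φ b x) (pB σ φ b y) = σ (σ (tri n e x y)) := by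
  have hb := H.hb
  rw [pB, pB, tri_smul₂, tri_smul₃, H.tri1, H.tri1, map_mul, map_pow, H.hσb]
  field_simp

omit [CharZero K] in
theorem surjA (z : I → K) : pA σ φ b (b⁻¹ • sl σ φ.1 (sl σ φ.1 z)) = z := by
  rw [pA_smul, pA, H.three, H.σinv, smul_smul, smul_smul, ← pow_two, ← mul_pow,
    inv_mul_cancel₀ H.hb, one_pow, one_smul]

omit [CharZero K] in
theorem surjB (z : I → K) : pB σ φ b (sl σ φ.1 z) = z := by
  rw [pB, H.three, smul_smul, ← mul_pow, inv_mul_cancel₀ H.hb, one_pow, one_smul]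

theorem mul_mem {x y : I → K} (hx : x ∈ Vp n (orb σ φ.1 e) 0) (hy : y ∈ Vp n (orb σ φ.1 e) 0) :
    pst n m (orb σ φ.1 e) 0 (pA σ φ b x) (pB σ φ b y) ∈ Vp n (orb σ φ.1 e) 0 :=
  H.frame.pst_mem H.hA (by decide) (by decide) (by decide) (H.memA hx) (H.memB hy)

theorem tri_mul {x y : I → K} (hx : x ∈ Vp n (orb σ φ.1 e) 0) (hy : y ∈ Vp n (orb σ φ.1 e) 0)
    (z : I → K) : tri n e (pst n m (orb σ φ.1 e) 0 (pA σ φ b x) (pB σ φ b y)) z =
      -tri n (pA σ φ b x) (pB σ φ b y) z :=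
  H.frame.tri_pst H.hA (k := 0) (by decide) (by decide) (by decide) (H.memA hx) (H.memB hy) z

theorem pA_mul {x y : I → K} (hx : x ∈ Vp n (orb σ φ.1 e) 0) (hy : y ∈ Vp n (orb σ φ.1 e) 0) :
    pA σ φ b (pst n m (orb σ φ.1 e) 0 (pA σ φ b x) (pB σ φ b y)) =
      pst n m (orb σ φ.1 e) 1 (pB σ φ b x) y := by
  refine sub_eq_zero.1 (H.frame.nondeg H.hA (i := 1) (Submodule.sub_mem _ (H.memA (H.mul_mem hx hy))
    (H.frame.pst_mem H.hA (by decide) (by decide) (by decide) (H.memB hx) hy)) fun z _ => ?_)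
  rw [tri_sub₂, H.frame.tri_pst H.hA (by decide) (by decide) (by decide) (H.memB hx) hy,
    ← H.surjA z]
  generalize b⁻¹ • sl σ φ.1 (sl σ φ.1 z) = w
  have k := H.qA (pst n m (orb σ φ.1 e) 0 (pA σ φ b x) (pB σ φ b y)) w
  rw [H.tri_mul hx hy, map_neg, ← H.cyc, H.hA.sym.tri_rotate (pA σ φ b w)] at k
  exact sub_eq_zero.2 k

theorem pB_mul {x y : I → K} (hx : x ∈ Vp n (orb σ φ.1 e) 0) (hy : y ∈ Vp n (orb σ φ.1 e) 0) :
    pB σ φ b (pst n m (orb σ φ.1 e) 0 (pA σ φ b x) (pB σ φ b y)) =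
      pst n m (orb σ φ.1 e) 2 (pA σ φ b y) x := by
  refine sub_eq_zero.1 (H.frame.nondeg H.hA (i := 2) (Submodule.sub_mem _ (H.memB (H.mul_mem hx hy))
    (H.frame.pst_mem H.hA (by decide) (by decide) (by decide) (H.memA hy) hx)) fun z _ => ?_)
  rw [tri_sub₂, H.frame.tri_pst H.hA (by decide) (by decide) (by decide) (H.memA hy) hx,
    ← H.surjB z]
  generalize sl σ φ.1 z = w
  have k := H.qB (pst n m (orb σ φ.1 e) 0 (pA σ φ b x) (pB σ φ b y)) w
  rw [H.tri_mul hx hy, map_neg, map_neg, ← H.cyc, ← H.cyc,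
    H.hA.sym.tri_swap₂₃ (pA σ φ b y)] at k
  exact sub_eq_zero.2 k

/-- The product of the cyclic composition. -/
noncomputable def mul :
    Vp n (orb σ φ.1 e) 0 →+ Vp n (orb σ φ.1 e) 0 →+ Vp n (orb σ φ.1 e) 0 :=
  AddMonoidHom.mk' (fun x => AddMonoidHom.mk' (fun y => ⟨_, H.mul_mem x.2 y.2⟩) fun y y' =>
    Subtype.ext (by
      simp only [Submodule.coe_add]
      rw [pB_add, pst_add_right])) fun x x' => by
    ext1 y
    exact Subtype.ext (by
      simp only [Submodule.coe_add, AddMonoidHom.mk'_apply, AddMonoidHom.add_apply]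
      rw [pA_add, pst_add_left])

theorem mul_val (x y : Vp n (orb σ φ.1 e) 0) :
    (H.mul x y).1 = pst n m (orb σ φ.1 e) 0 (pA σ φ b x.1) (pB σ φ b y.1) := rfl

end Hyp

/-- The bilinear form of the cyclic composition. -/
noncomputable def bil (n : T3 K) (e : I → K) (W : Submodule K (I → K)) : W →ₗ[K] W →ₗ[K] K :=
  -(triL n e).compl₁₂ W.subtype W.subtype

omit [CharZero K] in
theorem bil_apply (W : Submodule K (I → K)) (x y : W) : bil n e W x y = -tri n e x.1 y.1 := rfl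

/-- The cyclic composition. -/
noncomputable def Hyp.cy (H : Hyp σ n m φ b e) : Cyc σ (Vp n (orb σ φ.1 e) 0) where
  mul := H.mul
  b := bil n e _
  three := H.h3
  symm x y := by rw [bil_apply, bil_apply, H.hA.sym.tri_swap₂₃]
  nondeg x hx := Subtype.ext (H.frame.nondeg H.hA x.2 fun y hy =>
    neg_eq_zero.1 (hx ⟨y, hy⟩))
  dim := H.frame.finrank_Vp H.hA 0
  smul_mul a x y := Subtype.ext (by
    rw [Submodule.coe_smul, H.mul_val, H.mul_val, Submodule.coe_smul, pA_smul, pst_smul_left])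
  mul_smul a x y := Subtype.ext (by
    rw [Submodule.coe_smul, H.mul_val, H.mul_val, Submodule.coe_smul, pB_smul, pst_smul_right])
  cyc x y z := by
    rw [bil_apply, bil_apply, H.mul_val, H.mul_val, H.tri_mul x.2 y.2, H.tri_mul y.2 z.2, neg_neg,
      neg_neg, H.cyc]
  left x y := Subtype.ext (by
    rw [Submodule.coe_smul, Submodule.coe_smul, H.mul_val, H.mul_val, H.pB_mul y.2 x.2,
      pst_comm H.hA, H.frame.pst_pst H.hA (by decide) (by decide) (by decide) (H.memA x.2) y.2,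
      bil_apply, map_neg, ← H.qA]
    rfl)
  right x y := Subtype.ext (by
    rw [Submodule.coe_smul, Submodule.coe_smul, H.mul_val, H.mul_val, H.pA_mul x.2 y.2,
      H.frame.pst_pst H.hA (by decide) (by decide) (by decide) (H.memB x.2) y.2,
      bil_apply, map_neg, map_neg, ← H.qB]
    rfl)

omit [CharZero K] in
theorem frm_eq (α : Fin 3 → K) (x₀ x₁ x₂ : I → K) : frm σ φ.1 b e α x₀ x₁ x₂ =
    ∑ i, α i • orb σ φ.1 e i + ∑ i, ![x₀, pA σ φ b x₁, pB σ φ b x₂] i := by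
  simp only [Fin.sum_univ_three, frm, orb, pA, pB, cons_val_zero, cons_val_one, cons_val_two,
    Nat.succ_eq_add_one, Nat.reduceAdd, tail_cons, head_cons, add_assoc]

omit [CharZero K] in
theorem Hyp.mem3 (H : Hyp σ n m φ b e) (x₀ x₁ x₂ : Vp n (orb σ φ.1 e) 0) (i : Fin 3) :
    ![x₀.1, pA σ φ b x₁.1, pB σ φ b x₂.1] i ∈ Vp n (orb σ φ.1 e) i := by
  fin_cases i
  · exact x₀.2
  · exact H.memA x₁.2
  · exact H.memB x₂.2

/-- Without totally singular planes the quadratic form on a Peirce space is anisotropic. -/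
theorem aniso {E : Fin 3 → I → K} (hA : IsAlb n m) (h : PFrame n E) (hn : NoPlane n) {x : I → K}
    (hx : x ∈ Vp n E 0) (h0 : tri n (E 0) x x = 0) : x = 0 := by
  have k1 : xi n E 1 ⬝ᵥ E 1 = 1 := by simpa using h.xi_dot hA 1 1
  have hne : E 1 ≠ 0 := fun h' => by
    rw [h', dotProduct_zero] at k1
    exact zero_ne_one k1
  obtain ⟨c, hc⟩ := hn (E 1) x (h.sing 1) (hx 1 (by decide))
    (by rw [h.crs_same hA hx hx, h0, zero_smul]) hne
  have k2 := PFrame.xi_dot_Vp hA hx 1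
  rw [hc, dotProduct_smul, k1, smul_eq_mul, mul_one] at k2
  rw [hc, k2, zero_smul]

end FrmAux

open FrmAux

theorem exists_cyc (h3 : ∀ a, σ (σ (σ a)) = a) (hA : IsAlb n m) (hb : b ≠ 0) (hσb : σ b = b)
    (hφ : Sim (n.map σ) n φ.1 (b ^ 2))
    (hφ3 : φ.1 * φ.1.map σ * (φ.1.map σ).map σ = b ^ 2 • (1 : Matrix I I K))
    (he : crs n e e = 0) (h1 : tri n e (sl σ φ.1 e) (sl σ φ.1 (sl σ φ.1 e)) = 1) :
    ∃ C : Cyc σ (Vp n (orb σ φ.1 e) 0), (∀ x y, C.b x y = -tri n e x.1 y.1) ∧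
      (∀ v, ∃ (α : Fin 3 → K) (x₀ x₁ x₂ : Vp n (orb σ φ.1 e) 0),
        v = frm σ φ.1 b e α x₀.1 x₁.1 x₂.1) ∧
      (∀ (α : Fin 3 → K) (x₀ x₁ x₂ : Vp n (orb σ φ.1 e) 0),
        frm σ φ.1 b e α x₀.1 x₁.1 x₂.1 = 0 → α = 0 ∧ x₀ = 0 ∧ x₁ = 0 ∧ x₂ = 0) ∧
      ∀ (α : Fin 3 → K) (x₀ x₁ x₂ : Vp n (orb σ φ.1 e) 0) (v : I → K),
        v = frm σ φ.1 b e α x₀.1 x₁.1 x₂.1 → tri n v v v = 6 * (α 0 * α 1 * α 2) -
          3 * (α 0 * C.b x₀ x₀ + α 1 * σ (C.b x₁ x₁) + α 2 * σ (σ (C.b x₂ x₂))) +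
          6 * C.b (C.mul x₁ x₂) x₀ := by
  have H : FrmAux.Hyp σ n m φ b e := ⟨h3, hA, hb, hσb, hφ, hφ3, he, h1⟩
  refine ⟨H.cy, fun x y => rfl, fun v => ?_, fun α x₀ x₁ x₂ h0 => ?_, fun α x₀ x₁ x₂ v hv => ?_⟩
  · obtain ⟨α, x, hx, hv⟩ := H.frame.exists_decomp hA v
    refine ⟨α, ⟨x 0, hx 0⟩, ⟨b⁻¹ • sl σ φ.1 (sl σ φ.1 (x 1)),
      Submodule.smul_mem _ _ (H.mem20 (H.mem12 (hx 1)))⟩, ⟨sl σ φ.1 (x 2), H.mem20 (hx 2)⟩, ?_⟩
    rw [frm_eq, H.surjA, H.surjB, hv]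
    simp only [Fin.sum_univ_three, cons_val_zero, cons_val_one, cons_val_two,
      Nat.succ_eq_add_one, Nat.reduceAdd, tail_cons, head_cons]
  · rw [frm_eq] at h0
    obtain ⟨hα, hx⟩ := H.frame.decomp_eq_zero hA (H.mem3 x₀ x₁ x₂) h0
    have k0 : x₀.1 = 0 := congrFun hx 0
    have k1 : pA σ φ b x₁.1 = 0 := congrFun hx 1
    have k2 : pB σ φ b x₂.1 = 0 := congrFun hx 2
    refine ⟨hα, Subtype.ext k0, Subtype.ext (H.inj ?_), Subtype.ext (H.inj (H.inj ?_))⟩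
    · exact (smul_eq_zero.1 k1).resolve_left (inv_ne_zero hb)
    · exact (smul_eq_zero.1 k2).resolve_left (pow_ne_zero _ (inv_ne_zero hb))
  · rw [frm_eq] at hv
    have k := H.frame.tri_decomp hA α (H.mem3 x₀ x₁ x₂) hv
    have k1 := H.qA x₁.1 x₁.1
    have k2 := H.qB x₂.1 x₂.1
    have k3 := H.tri_mul x₁.2 x₂.2 x₀.1
    rw [← hA.sym.tri_rotate x₀.1 (pA σ φ b x₁.1)] at k3
    simp only [Fin.sum_univ_three, orb, cons_val_zero, cons_val_one, cons_val_two,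
      Nat.succ_eq_add_one, Nat.reduceAdd, tail_cons, head_cons] at k
    change tri n v v v = 6 * (α 0 * α 1 * α 2) - 3 * (α 0 * -tri n e x₀.1 x₀.1 +
      α 1 * σ (-tri n e x₁.1 x₁.1) + α 2 * σ (σ (-tri n e x₂.1 x₂.1))) +
      6 * -tri n e (pst n m (orb σ φ.1 e) 0 (pA σ φ b x₁.1) (pB σ φ b x₂.1)) x₀.1
    rw [k, k1, k2, k3, map_neg, map_neg, map_neg]
    ring

omit [CharZero K] in
theorem sl_frm (h3 : ∀ a, σ (σ (σ a)) = a) (hb : b ≠ 0) (hσb : σ b = b)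
    (hφ3 : φ.1 * φ.1.map σ * (φ.1.map σ).map σ = b ^ 2 • (1 : Matrix I I K)) (α : Fin 3 → K)
    (x₀ x₁ x₂ : I → K) : sl σ φ.1 (frm σ φ.1 b e α x₀ x₁ x₂) =
      frm σ φ.1 b e ![b ^ 2 * σ (α 2), σ (α 0), σ (α 1)] x₂ (b • x₀) (b • x₁) := by
  have hi : σ b⁻¹ = b⁻¹ := by rw [map_inv₀, hσb]
  have e1 : b⁻¹ ^ 2 * b ^ 2 = 1 := by field_simp
  have e2 : b⁻¹ * b = 1 := inv_mul_cancel₀ hb
  have e3 : b⁻¹ ^ 2 * b = b⁻¹ := by field_simp
  simp only [frm, sl_add, sl_smul, sl_three h3 hφ3, map_pow, hi, hσb, smul_smul, e1, e2, e3,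
    one_smul, cons_val_zero, cons_val_one, cons_val_two, Nat.succ_eq_add_one, Nat.reduceAdd,
    tail_cons, head_cons, mul_comm (σ (α 2))]
  abel

theorem defn_of_noPlane {e : Fin 3 → I → K} (hA : IsAlb n m) (h : PFrame n e)
    (C : Cyc σ (Vp n e 0)) (hC : ∀ x y, C.b x y = -tri n (e 0) x.1 y.1) {ι : K →+* ℝ}
    (hι : NoPlane (n.map ι)) : C.Defn ι := by
  have an : ∀ x, C.b x x = 0 → x = 0 := fun x hx =>
    Subtype.ext (aniso hA h (hι.of_map ι) x.2 (neg_eq_zero.1 ((hC x x).symm.trans hx)))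
  refine ⟨an, fun x y => ?_⟩
  by_contra hlt
  rw [not_le] at hlt
  have hr : ι (C.b y y) ≠ 0 := fun h0 => by
    have hy : y = 0 := an y ((map_eq_zero ι).1 h0)
    simp [hy] at hlt
  have hz : ∀ u v : I → K, crs n u v = 0 → crs (n.map ι) (ι ∘ u) (ι ∘ v) = 0 := fun u v huv => by
    rw [crs_map, huv]
    funext c
    simp
  have hF : PFrame (n.map ι) fun i => ι ∘ e i :=
    ⟨fun i => hz _ _ (h.sing i), by rw [tri_map, h.one, map_one]⟩
  have hm : ∀ u : Vp n e 0, ι ∘ u.1 ∈ Vp (n.map ι) (fun i => ι ∘ e i) 0 :=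
    fun u j hj => hz _ _ (u.2 j hj)
  have ht : ∀ u v : Vp n e 0, tri (n.map ι) (ι ∘ e 0) (ι ∘ u.1) (ι ∘ v.1) = -ι (C.b u v) :=
    fun u v => by rw [tri_map, hC, map_neg, neg_neg]
  set p := ι (C.b x x)
  set q := ι (C.b x y) with hq
  set r := ι (C.b y y)
  obtain ⟨d, hd0, hd⟩ : ∃ d : ℝ, 0 < d ∧ d ^ 2 = q ^ 2 - p * r :=
    ⟨√(q ^ 2 - p * r), Real.sqrt_pos.2 (by linarith), Real.sq_sqrt (by linarith)⟩
  have hw : ι ∘ x.1 + ((d - q) / r) • ι ∘ y.1 = 0 := by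
    refine aniso (hA.map ι) hF hι (Submodule.add_mem _ (hm x) (Submodule.smul_mem _ _ (hm y))) ?_
    simp only [tri_add₂, tri_add₃, tri_smul₂, tri_smul₃, ht, C.symm y x]
    change -p + (d - q) / r * -q + (d - q) / r * (-q + (d - q) / r * -r) = 0
    field_simp
    linear_combination (-1 : ℝ) * hd
  have k : tri (n.map ι) (ι ∘ e 0) (ι ∘ x.1 + ((d - q) / r) • ι ∘ y.1) (ι ∘ y.1) = 0 := by
    rw [hw, tri_eq_dot, crs_zero_right, zero_dotProduct]
  rw [tri_add₂, tri_smul₂, ht, ht] at k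
  change -q + (d - q) / r * -r = 0 at k
  field_simp at k
  linarith

end Pool.Agent.P.MP_3c2f8c_gt.Ex
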