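import Mathlib

/-! Ex-HP-Gal3: the splitting field of a cubic polynomial without roots. -/

namespace Pool.Agent.P.MP_3c2f8c_gt.Ex

namespace Gal3Aux

open Polynomial Module

/-- an extension of degree at most two is generated by a square root -/
theorem quad {F L : Type*} [Field F] [CharZero F] [Field L] [Algebra F L] [FiniteDimensional F L]
    (h : finrank F L ≤ 2) :
    ∃ (δ : L) (d : F), δ ^ 2 = algebraMap F L d ∧
      ∀ w : L, ∃ x y : F, w = algebraMap F L x + algebraMap F L y * δ := by
  by_cases hall : ∀ w : L, ∃ x : F, w = algebraMap F L x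
  · refine ⟨0, 0, by simp, fun w => ?_⟩
    obtain ⟨x, hx⟩ := hall w
    exact ⟨x, 0, by simp [hx]⟩
  · push Not at hall
    obtain ⟨θ, hθ⟩ := hall
    have hli : LinearIndependent F ![(1 : L), θ] := by
      rw [LinearIndependent.pair_iff' (one_ne_zero)]
      intro a ha
      exact hθ a (by rw [← ha, Algebra.smul_def, mul_one])
    have hc : Fintype.card (Fin 2) = finrank F L := by
      have := hli.fintype_card_le_finrank
      simp only [Fintype.card_fin] at this ⊢
      omega
    have hsp := hli.span_eq_top_of_card_eq_finrank' hc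
    have hw : ∀ w : L, ∃ x y : F, w = algebraMap F L x + algebraMap F L y * θ := by
      intro w
      have hm : w ∈ Submodule.span F (Set.range ![(1 : L), θ]) := by rw [hsp]; trivial
      rw [Submodule.mem_span_range_iff_exists_fun] at hm
      obtain ⟨c, hc⟩ := hm
      refine ⟨c 0, c 1, ?_⟩
      rw [← hc]
      simp [Fin.sum_univ_two, Algebra.smul_def]
    obtain ⟨a, b, hab⟩ := hw (θ ^ 2)
    have h2 : algebraMap F L b = 2 * algebraMap F L (b / 2) := by
      have : b = 2 * (b / 2) := by ring
      conv_lhs => rw [this]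
      rw [map_mul, map_ofNat]
    refine ⟨θ - algebraMap F L (b / 2), a + (b / 2) ^ 2, ?_, fun w => ?_⟩
    · rw [map_add, map_pow]
      rw [h2] at hab
      linear_combination hab
    · obtain ⟨x, y, hxy⟩ := hw w
      refine ⟨x + y * (b / 2), y, ?_⟩
      rw [map_add, map_mul, hxy]
      ring

theorem card_gal_le {F : Type*} [Field F] (p : F[X]) (hs : p.Separable) (h3 : p.natDegree = 3) :
    Nat.card p.Gal ≤ 6 := by
  classical
  have : Fact ((p.map (algebraMap F p.SplittingField)).Splits) := ⟨SplittingField.splits p⟩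
  have h1 := Nat.card_le_card_of_injective _ (Gal.galActionHom_injective p p.SplittingField)
  have h2 := card_rootSet_eq_natDegree hs (SplittingField.splits p)
  rw [Nat.card_eq_fintype_card (α := Equiv.Perm _), Fintype.card_perm, h2, h3] at h1
  exact h1

end Gal3Aux

open Polynomial Module in
theorem exists_cubic_split {K₀ : Type} [Field K₀] [NumberField K₀] {c₀ c₁ c₂ c₃ : K₀}
    (h3 : c₃ ≠ 0) (hr : ∀ t : K₀, c₃ * t ^ 3 + c₂ * t ^ 2 + c₁ * t + c₀ ≠ 0) :
    ∃ (K : Type) (_ : Field K) (_ : NumberField K) (f : K₀ →+* K) (σ : K ≃+* K) (r δ : K) (d : K₀),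
      (∀ x, σ (f x) = f x) ∧ (∀ x, σ (σ (σ x)) = x) ∧ σ r ≠ r ∧
      f c₃ * r ^ 3 + f c₂ * r ^ 2 + f c₁ * r + f c₀ = 0 ∧ δ ^ 2 = f d ∧
      ∀ w, σ w = w → ∃ x y, w = f x + f y * δ := by
  classical
  let p : K₀[X] := C c₃ * X ^ 3 + C c₂ * X ^ 2 + C c₁ * X + C c₀
  have hdeg : p.natDegree = 3 := natDegree_cubic h3
  have hirr : Irreducible p := by
    refine irreducible_of_degree_le_three_of_not_isRoot (by rw [hdeg]; decide) fun x hx => hr x ?_
    simpa [p] using hx
  have hsep : p.Separable := hirr.separable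
  have hdvd : 3 ∣ Nat.card p.Gal := by
    have := Gal.prime_degree_dvd_card hirr (by rw [hdeg]; norm_num)
    rwa [hdeg] at this
  have : Fact (Nat.Prime 3) := ⟨by norm_num⟩
  obtain ⟨s, hs⟩ := exists_prime_orderOf_dvd_card' 3 hdvd
  have hs1 : s ≠ 1 := by
    intro h
    rw [h, orderOf_one] at hs
    omega
  have hroot : ∃ r ∈ p.rootSet p.SplittingField, s r ≠ r := by
    by_contra hcon
    push Not at hcon
    exact hs1 (Gal.ext p fun x hx => hcon x hx)
  obtain ⟨r, hr1, hr2⟩ := hroot
  let s' : p.SplittingField ≃ₐ[K₀] p.SplittingField := s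
  have hs' : orderOf s' = 3 := hs
  have hs3 : s' ^ 3 = 1 := by rw [← hs']; exact pow_orderOf_eq_one s'
  let L := IntermediateField.fixedField (Subgroup.zpowers s')
  have hL1 : finrank L p.SplittingField = 3 := by
    rw [IntermediateField.finrank_fixedField_eq_card, Nat.card_zpowers, hs']
  have hL2 : finrank K₀ L ≤ 2 := by
    have h1 := finrank_mul_finrank K₀ L p.SplittingField
    have h2 := Gal3Aux.card_gal_le p hsep hdeg
    rw [Gal.card_of_separable hsep] at h2
    rw [hL1] at h1
    omega
  obtain ⟨δ, d, hδ, hw⟩ := Gal3Aux.quad hL2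
  have : NumberField p.SplittingField := NumberField.of_module_finite K₀ _
  refine ⟨p.SplittingField, inferInstance, inferInstance, algebraMap K₀ _, s'.toRingEquiv, r,
    (δ : p.SplittingField), d, fun x => s'.commutes x, fun x => ?_, hr2, ?_, ?_, fun w hw' => ?_⟩
  · have : (s' ^ 3) x = x := by rw [hs3]; rfl
    exact this
  · have := aeval_eq_zero_of_mem_rootSet hr1
    simpa [p] using this
  · have := congrArg (fun x : L => (x : p.SplittingField)) hδ
    simpa using this
  · have hm : w ∈ L := by
      rw [IntermediateField.mem_fixedField_iff]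
      intro g hg
      have hle : Subgroup.zpowers s' ≤ MulAction.stabilizer _ w := by
        rw [Subgroup.zpowers_le]
        exact hw'
      exact hle hg
    obtain ⟨x, y, hxy⟩ := hw ⟨w, hm⟩
    refine ⟨x, y, ?_⟩
    have := congrArg (fun x : L => (x : p.SplittingField)) hxy
    simpa using this

end Pool.Agent.P.MP_3c2f8c_gt.Ex
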