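import Pool.Agent.P.MP_3c2f8c_gt.Ex.Al.Cub2
import Pool.Agent.Lib.CFT.Tr1
import Pool.Agent.P.MP_3c2f8c_gt.E6.Gal1

/-! Ex-HP-Ix: the action of the Galois group on the cubic field. -/

namespace Pool.Agent.P.MP_3c2f8c_gt.Ex

open Pool.Agent.Lib.CFT
open scoped TensorProduct

variable {F : Type} [Field F] [NumberField F] {j : Cub ℚ →+* F} {ix : Aut F → ℕ}

theorem IxAux.order : orderOf (Cub.sig : Cub ℚ ≃+* Cub ℚ) = 3 :=
  orderOf_eq_prime (RingEquiv.ext fun x => Cub.sig_sig_sig x) Cub.sig_ne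

/-- The automorphisms that fix the cubic field. -/
def IxAux.fix (j : Cub ℚ →+* F) : Subgroup (Aut F) where
  carrier := {s | ∀ x, s (j x) = j x}
  one_mem' _ := rfl
  mul_mem' {a b} ha hb x := by rw [AlgEquiv.mul_apply, hb, ha]
  inv_mem' {a} ha x := a.injective (by rw [← AlgEquiv.mul_apply, mul_inv_cancel, ha]; rfl)

theorem IxAux.isFix [IsGalois ℚ F] (j : Cub ℚ →+* F) : IsFix j (IxAux.fix j) := fun x => by
  refine ⟨fun h => ?_, fun ⟨y, e⟩ s hs => e ▸ hs y⟩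
  have : x ∈ j.toRatAlgHom.fieldRange := by
    rw [← IsGalois.fixedField_fixingSubgroup j.toRatAlgHom.fieldRange,
      IntermediateField.mem_fixedField_iff]
    exact fun s hs => h s fun y => (IntermediateField.mem_fixingSubgroup_iff _ _).1 hs _ ⟨y, rfl⟩
  exact this

theorem sig_pow_mod (k : ℕ) : (Cub.sig : Cub ℚ ≃+* Cub ℚ) ^ (k % 3) = Cub.sig ^ k := by
  rw [← IxAux.order, pow_mod_orderOf]

theorem ix_mul (hix : ∀ s x, s (j x) = j ((Cub.sig ^ ix s) x)) (s t : Aut F) :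
    ix (s * t) % 3 = (ix s + ix t) % 3 := by
  rw [← IxAux.order]
  refine pow_eq_pow_iff_modEq.1 (RingEquiv.ext fun x => j.injective ?_)
  rw [← hix, AlgEquiv.mul_apply, hix t, hix s, pow_add]
  rfl

theorem ix_zero_iff (hix : ∀ s x, s (j x) = j ((Cub.sig ^ ix s) x)) (s : Aut F) :
    ix s % 3 = 0 ↔ ∀ x, s (j x) = j x := by
  rw [← Nat.dvd_iff_mod_eq_zero, ← IxAux.order, orderOf_dvd_iff_pow_eq_one]
  refine ⟨fun h x => by rw [hix, h]; rfl, fun h => RingEquiv.ext fun x => j.injective ?_⟩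
  rw [← hix, h]
  rfl

theorem exists_ix_one [IsGalois ℚ F] (hix : ∀ s x, s (j x) = j ((Cub.sig ^ ix s) x)) :
    ∃ s, ix s % 3 = 1 := by
  by_contra! H
  have h0 : ∀ s, ix s % 3 = 0 := fun s => by
    have h1 := H s
    have h2 := H (s * s)
    rw [ix_mul hix] at h2
    omega
  obtain ⟨q, hq⟩ := (isFix_top (M := F) (j Cub.eta)).1 fun s _ => (ix_zero_iff hix s).1 (h0 s) _
  have e : (q : Cub ℚ) = Cub.eta := j.injective (by rw [map_ratCast, ← hq]; rfl)
  exact zero_ne_one (congrArg Cub.c1 e)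

theorem exists_of_fixed [IsGalois ℚ F] (hix : ∀ s x, s (j x) = j ((Cub.sig ^ ix s) x)) {x : F}
    (hx : ∀ s, ix s % 3 = 0 → s x = x) : ∃ y, j y = x :=
  (IxAux.isFix j x).1 fun s hs => hx s ((ix_zero_iff hix s).2 hs)

theorem exists_of_fixed_real [IsGalois ℚ F] (hix : ∀ s x, s (j x) = j ((Cub.sig ^ ix s) x))
    {x : ℝ ⊗[ℚ] F} (hx : ∀ s, ix s % 3 = 0 → lact ℝ s x = x) : ∃ y, lmap ℝ j y = x :=
  (IxAux.isFix j).exists_lmap fun s hs => hx s ((ix_zero_iff hix s).2 hs)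

theorem exists_speiser (H : Subgroup (Aut F)) (ψ : Aut F → GL I F)
    (h : ∀ s ∈ H, ∀ t ∈ H, (ψ (s * t)).1 = (ψ s).1 * (ψ t).1.map s) :
    ∃ P : GL I F, ∀ s ∈ H, (ψ s).1 * P.1.map s = P.1 := by
  classical
  let b := Module.finBasis ℚ F
  obtain ⟨P, hP⟩ := E6.speiser (Γ := H) (Ω := F) (A := fun s => ψ s.1)
    ⟨Finset.univ.image b, fun s t e => congrArg ψ (AlgEquiv.toLinearMap_injective
      (b.ext fun i => e _ (Finset.mem_image_of_mem _ (Finset.mem_univ i))))⟩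
    fun s t => Units.ext (h s.1 s.2 t.1 t.2)
  exact ⟨P, fun s hs => congrArg Units.val (hP ⟨s, hs⟩)⟩

theorem exists_gl_of_map {R S : Type} [CommRing R] [CommRing S] {f : R →+* S}
    (hf : Function.Injective f) (g : GL I S) (h : ∀ a c, ∃ y, f y = g.1 a c)
    (h' : ∀ a c, ∃ y, f y = (g⁻¹).1 a c) : ∃ g₀ : GL I R, g₀.1.map f = g.1 := by
  choose u hu using h
  choose v hv using h'
  have e1 : (Matrix.of u).map f = g.1 := Matrix.ext hu
  have e2 : (Matrix.of v).map f = (g⁻¹).1 := Matrix.ext hv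
  have o : (1 : Matrix I I R).map f = 1 := Matrix.map_one _ f.map_zero f.map_one
  refine ⟨⟨Matrix.of u, Matrix.of v, Matrix.map_injective hf ?_, Matrix.map_injective hf ?_⟩, e1⟩
  · change (Matrix.of u * Matrix.of v).map f = (1 : Matrix I I R).map f
    rw [Matrix.map_mul, e1, e2, o, Units.mul_inv]
  · change (Matrix.of v * Matrix.of u).map f = (1 : Matrix I I R).map f
    rw [Matrix.map_mul, e1, e2, o, Units.inv_mul]

end Pool.Agent.P.MP_3c2f8c_gt.Ex
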