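import Pool.Agent.P.MP_3c2f8c_gt.Ex.HP.Ix
import Pool.Agent.P.MP_3c2f8c_gt.Ex.Al.Tw
import Pool.Agent.Lib.CFT.Main

/-! Ex-HP-Nrm: normalising the factor system. -/

namespace Pool.Agent.P.MP_3c2f8c_gt.Ex

open Pool.Agent.Lib.CFT
open scoped TensorProduct

variable {F : Type} [Field F] [NumberField F]

theorem exists_split_idele (c : Aut F → Idele F) (κ : Aut F → Aut F → Fˣ)
    (h : ∀ s t, c s * s • c t = prin F (κ s t) * c (s * t)) :
    ∃ (r : Aut F → Fˣ) (z : Idele F), ∀ s, c s = prin F (r s) * (s • z * z⁻¹) := by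
  have hp : ∀ x : Fˣ, (QuotientGroup.mk (prin F x) : Cl F) = 1 := fun x =>
    (QuotientGroup.eq_one_iff _).2 ⟨x, rfl⟩
  obtain ⟨z, hz⟩ := h1_cl (⊤ : Subgroup (Aut F)) (fun s => (QuotientGroup.mk (c s.1) : Cl F))
    (fun s t => by
      rw [smul_mk, ← QuotientGroup.mk_mul, h, QuotientGroup.mk_mul, hp]
      exact (one_mul (QuotientGroup.mk (c (s.1 * t.1)) : Cl F)).symm)
  obtain ⟨z, rfl⟩ := QuotientGroup.mk_surjective z
  have key : ∀ s : Aut F, ∃ r : Fˣ, c s = prin F r * (s • z * z⁻¹) := fun s => by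
    have h1 := hz ⟨s, trivial⟩
    simp only at h1
    rw [smul_mk, ← QuotientGroup.mk_inv, ← QuotientGroup.mk_mul, eq_comm, QuotientGroup.eq] at h1
    obtain ⟨r, hr⟩ := h1
    exact ⟨r, by rw [hr, mul_comm, mul_inv_cancel_left]⟩
  choose r hr using key
  exact ⟨r, z, hr⟩

namespace NrmAux

theorem ph_pow (b : ℚ) (R : Type) [CommRing R] [Algebra ℚ R] (n : ℕ) :
    ph b R ^ n = algebraMap ℚ R b ^ (2 * (n / 3)) • ph b R ^ (n % 3) := by
  have h3 : ph b R ^ 3 = algebraMap ℚ R b ^ 2 • (1 : Matrix I I R) := by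
    rw [pow_three', ph, phi_cube]
  conv_lhs => rw [← Nat.div_add_mod n 3]
  rw [pow_add, pow_mul, h3, smul_pow, one_pow, Matrix.smul_mul, Matrix.one_mul, ← pow_mul]

theorem smul_cancel {R : Type} [CommRing R] {M : Matrix I I R} (hM : IsUnit M) {a c : R}
    (h : a • M = c • M) : a = c := by
  obtain ⟨u, rfl⟩ := hM
  have h1 := congrArg (· * (u⁻¹).1) h
  simp only [Matrix.smul_mul, Units.mul_inv] at h1
  simpa using congrFun (congrFun h1 (.inl 0)) (.inl 0)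

theorem map_smul' {R S : Type} [CommRing R] [CommRing S] {T : Type} [FunLike T R S]
    [RingHomClass T R S] (f : T) (a : R) (M : Matrix I I R) :
    (a • M).map f = f a • M.map f := by
  ext i j
  simp

theorem isUnit_map {R S : Type} [CommRing R] [CommRing S] (f : R →+* S) (g : GL I R) :
    IsUnit (g.1.map f) := (Units.isUnit g).map f.mapMatrix

variable (k : Type) [CommRing k] [Algebra ℚ k]

theorem ph_lact (b : ℚ) (s : Aut F) (n : ℕ) :
    (ph b (k ⊗[ℚ] F) ^ n).map (lact k s) = ph b (k ⊗[ℚ] F) ^ n := by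
  have h := ph_map b (lact k s).toRingEquiv.toRingHom
  have h2 := map_pow (lact k s).toRingEquiv.toRingHom.mapMatrix (ph b (k ⊗[ℚ] F)) n
  rw [RingHom.mapMatrix_apply, RingHom.mapMatrix_apply, h] at h2
  exact h2

theorem inc_rat (b : ℚ) : inc k F (algebraMap ℚ F b) = algebraMap ℚ (k ⊗[ℚ] F) b :=
  (Algebra.TensorProduct.includeRight : F →ₐ[ℚ] k ⊗[ℚ] F).commutes b

theorem loc {b : ℚ} (hb : b ≠ 0) (ix : Aut F → ℕ) (ψ : Aut F → GL I F) {s t : Aut F} {κ : F}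
    (hi : ix (s * t) % 3 = (ix s + ix t) % 3)
    (hco : (ψ s).1 * (ψ t).1.map s = κ • (ψ (s * t)).1)
    (g : GL I (k ⊗[ℚ] F)) (c : Aut F → k ⊗[ℚ] F)
    (hc : ∀ s : Aut F, g.1 * (ψ s).1.map (inc k F) =
      c s • (ph b _ ^ ix s * g.1.map (lact k s))) :
    c s * lact k s (c t) * inc k F (algebraMap ℚ F b ^ (2 * ((ix s + ix t) / 3))) =
      inc k F (κ * algebraMap ℚ F b ^ (2 * (ix (s * t) / 3))) * c (s * t) := by
  have e1 : ((ψ t).1.map s).map (inc k F) = ((ψ t).1.map (inc k F)).map (lact k s) := by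
    ext i j
    exact (lact_inc k s _).symm
  have e2 : (g.1.map (lact k t)).map (lact k s) = g.1.map (lact k (s * t)) := by
    ext i j
    exact (lact_mul k s t _).symm
  have h1 : g.1 * ((ψ s).1 * (ψ t).1.map s).map (inc k F) =
      (c s * lact k s (c t)) • (ph b _ ^ (ix s + ix t) * g.1.map (lact k (s * t))) := by
    rw [Matrix.map_mul, ← Matrix.mul_assoc, hc s, e1, Matrix.smul_mul, Matrix.mul_assoc,
      ← Matrix.map_mul, hc t, map_smul', Matrix.map_mul, ph_lact, e2, Matrix.mul_smul, smul_smul,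
      ← Matrix.mul_assoc, ← pow_add]
  rw [hco, map_smul', Matrix.mul_smul, hc (s * t), smul_smul, ph_pow b _ (ix (s * t)),
    ph_pow b _ (ix s + ix t), hi, Matrix.smul_mul, Matrix.smul_mul, smul_smul, smul_smul] at h1
  obtain ⟨φ, hφ⟩ := exists_phU hb (k ⊗[ℚ] F)
  have hu : IsUnit (ph b (k ⊗[ℚ] F) ^ ((ix s + ix t) % 3) * g.1.map (lact k (s * t))) :=
    ((hφ ▸ Units.isUnit φ).pow _).mul (isUnit_map (lact k (s * t)).toRingEquiv.toRingHom g)
  have h2 := smul_cancel hu h1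
  rw [map_mul, map_pow, map_pow, inc_rat, ← h2]
  ring

end NrmAux

theorem exists_normal {b : ℚ} (hb : b ≠ 0) (j : Cub ℚ →+* F) (ix : Aut F → ℕ)
    (hix : ∀ s x, s (j x) = j ((Cub.sig ^ ix s) x)) (ψ : Aut F → GL I F)
    (hco : ∀ s t : Aut F, ∃ κ : F, (ψ s).1 * (ψ t).1.map s = κ • (ψ (s * t)).1)
    (g : ∀ p : Nat.Primes, GL I (ℚ_[p] ⊗[ℚ] F)) (g' : GL I (ℝ ⊗[ℚ] F)) (c : Aut F → Idele F)
    (hc : ∀ (p : Nat.Primes) (s : Aut F), (g p).1 * (ψ s).1.map (inc ℚ_[p] F) =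
      ((c s).1.1 p).1 • (ph b _ ^ ix s * (g p).1.map (lact ℚ_[p] s)))
    (hc' : ∀ s : Aut F, g'.1 * (ψ s).1.map (inc ℝ F) =
      (c s).1.2.1 • (ph b _ ^ ix s * g'.1.map (lact ℝ s))) :
    ∃ (r : Aut F → Fˣ) (ψ' : Aut F → GL I F) (z : (ℝ ⊗[ℚ] F)ˣ) (G : GL I (ℝ ⊗[ℚ] F)),
      (∀ s, (ψ s).1 = (r s).1 • (ψ' s).1) ∧ G.1 = z.1 • g'.1 ∧
      ∀ s, G.1 * (ψ' s).1.map (inc ℝ F) = ph b _ ^ (ix s % 3) * G.1.map (lact ℝ s) := by
  choose κ hκ using hco
  have hκ0 : ∀ s t, κ s t ≠ 0 := fun s t h0 => by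
    have hu : IsUnit ((ψ s).1 * (ψ t).1.map s) :=
      (Units.isUnit _).mul (NrmAux.isUnit_map s.toRingEquiv.toRingHom (ψ t))
    rw [hκ, h0, zero_smul] at hu
    exact not_isUnit_zero hu
  have hb0 : algebraMap ℚ F b ≠ 0 := by simpa using hb
  let β : Fˣ := Units.mk0 (algebraMap ℚ F b) hb0
  let κ' : Aut F → Aut F → Fˣ := fun s t => Units.mk0 (κ s t) (hκ0 s t) *
    β ^ (2 * (ix (s * t) / 3)) * (β ^ (2 * ((ix s + ix t) / 3)))⁻¹
  obtain ⟨r, z, hr⟩ := exists_split_idele c κ' fun s t => by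
    have h : c s * s • c t * prin F (β ^ (2 * ((ix s + ix t) / 3))) =
        prin F (Units.mk0 (κ s t) (hκ0 s t) * β ^ (2 * (ix (s * t) / 3))) * c (s * t) :=
      Subtype.ext (Prod.ext (funext fun p => Units.ext
        (NrmAux.loc ℚ_[p] hb ix ψ (ix_mul hix s t) (hκ s t) (g p) (fun s => ((c s).1.1 p).1)
          (hc p))) (Units.ext
        (NrmAux.loc ℝ hb ix ψ (ix_mul hix s t) (hκ s t) g' (fun s => (c s).1.2.1) hc')))
    simp only [κ']
    rw [map_mul (prin F) _ (_)⁻¹, map_inv, mul_right_comm, ← h, mul_inv_cancel_right]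
  let r' : Aut F → Fˣ := fun s => r s * β ^ (2 * (ix s / 3))
  refine ⟨r', fun s => (r' s)⁻¹ • ψ s, z.1.2, z.1.2 • g', fun s => ?_, rfl, fun s => ?_⟩
  · show (ψ s).1 = (r' s).1 • ((r' s)⁻¹).1 • (ψ s).1
    rw [smul_smul, Units.mul_inv, one_smul]
  · show z.1.2.1 • g'.1 * (((r' s)⁻¹).1 • (ψ s).1).map (inc ℝ F) =
      ph b _ ^ (ix s % 3) * (z.1.2.1 • g'.1).map (lact ℝ s)
    have h1 : (c s).1.2.1 = inc ℝ F (r s).1 * (lact ℝ s z.1.2.1 * (z.1.2⁻¹).1) := by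
      rw [hr s]
      rfl
    have h2 : inc ℝ F ((r' s)⁻¹).1 * (inc ℝ F (r s).1 *
        algebraMap ℚ (ℝ ⊗[ℚ] F) b ^ (2 * (ix s / 3))) = 1 := by
      rw [← NrmAux.inc_rat, ← map_pow, ← map_mul, ← map_mul]
      have : (r s).1 * algebraMap ℚ F b ^ (2 * (ix s / 3)) = (r' s).1 := rfl
      rw [this, Units.inv_mul, map_one]
    rw [NrmAux.map_smul', NrmAux.map_smul', Matrix.smul_mul, Matrix.mul_smul, hc' s,
      NrmAux.ph_pow b _ (ix s), Matrix.smul_mul, Matrix.mul_smul, smul_smul, smul_smul, smul_smul,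
      h1]
    congr 1
    have h3 : z.1.2.1 * (z.1.2⁻¹).1 = 1 := Units.mul_inv _
    linear_combination (lact ℝ s z.1.2.1 * z.1.2.1 * (z.1.2⁻¹).1) * h2 + lact ℝ s z.1.2.1 * h3

end Pool.Agent.P.MP_3c2f8c_gt.Ex
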