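import Pool.Agent.P.MP_3c2f8c_gt.Ex.Grp
import Pool.Agent.Lib.CFT.Main
import Pool.Agent.P.MP_3c2f8c_gt.Ex.HP.Core
import Pool.Agent.P.MP_3c2f8c_gt.Ex.HP.Nrm
import Pool.Agent.P.MP_3c2f8c_gt.Ex.HP.Dsc1
import Pool.Agent.P.MP_3c2f8c_gt.Ex.HP.Dsc2

/-!
The Hasse principle for twisted forms, over a Galois splitting field.
-/

namespace Pool.Agent.P.MP_3c2f8c_gt.Ex

open Pool.Agent.Lib.CFT
open scoped TensorProduct

theorem hasse {b : ℚ} (hb : Good b) {F : Type} [Field F] [NumberField F] [IsGalois ℚ F]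
    (j : Cub ℚ →+* F) (ix : Aut F → ℕ) (hix : ∀ s x, s (j x) = j ((Cub.sig ^ ix s) x))
    {n m : T3 F} (hA : IsAlb n m) (ψ : Aut F → GL I F)
    (hψ : ∀ s : Aut F, ∃ ν, Sim (n.map s) n (ψ s).1 ν)
    (hco : ∀ s t : Aut F, ∃ κ : F, (ψ s).1 * (ψ t).1.map s = κ • (ψ (s * t)).1)
    (g : ∀ p : Nat.Primes, GL I (ℚ_[p] ⊗[ℚ] F)) (g' : GL I (ℝ ⊗[ℚ] F)) (c : Aut F → Idele F)
    (hg : ∀ p : Nat.Primes, ∃ ν, Sim (n.map (inc ℚ_[p] F)) (nJ _) (g p).1 ν)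
    (hg' : ∃ ν, Sim (n.map (inc ℝ F)) (nJ _) g'.1 ν)
    (hc : ∀ (p : Nat.Primes) (s : Aut F), (g p).1 * (ψ s).1.map (inc ℚ_[p] F) =
      ((c s).1.1 p).1 • (ph b _ ^ ix s * (g p).1.map (lact ℚ_[p] s)))
    (hc' : ∀ s : Aut F, g'.1 * (ψ s).1.map (inc ℝ F) =
      (c s).1.2.1 • (ph b _ ^ ix s * g'.1.map (lact ℝ s))) :
    ∃ θ : GL I F, (∃ ν, Sim n (nJ F) θ.1 ν) ∧
      ∀ s : Aut F, ∃ κ : F, θ.1 * (ψ s).1 = κ • (ph b F ^ ix s * θ.1.map s) := by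
  obtain ⟨r, ψ', z, G, hr, hz, hG⟩ := exists_normal hb.ne j ix hix ψ hco g g' c hc hc'
  have hψ' : ∀ s : Aut F, ∃ ν, Sim (n.map s) n (ψ' s).1 ν := fun s => by
    obtain ⟨ν, h⟩ := hψ s
    have h2 := h.smul ((r s)⁻¹).1
    rw [hr, smul_smul, Units.inv_mul, one_smul] at h2
    exact ⟨_, h2⟩
  obtain ⟨P, φ, G₀, h3, hG₀, h0, h1, h2⟩ := exists_frame_descent hb.ne hix ψ' hG
  obtain ⟨u, n₀, m₀, ν, hA₀, hP, hφ⟩ := exists_tensor_descent hix hA ψ' hψ' h0 h1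
  obtain ⟨ν', hν'⟩ := hg'
  have hGs := hν'.smul z.1
  rw [← hz] at hGs
  obtain ⟨G₁, ν₁, hG₁⟩ := exists_real_point hA₀ hP hGs hG₀
  obtain ⟨θ₀, ⟨ν₀, hθ₀⟩, hθ⟩ := core (K := Cub ℚ) Cub.sig_sig_sig Cub.sig_ne
    (fun a h => ⟨a.c0, (Cub.eq_C_of_sig h).trans rfl⟩) (b := algebraMap ℚ (Cub ℚ) b)
    (Cub.sig_C _) (fun x h => hb.not_norm x (Cub.C_injective (by
      rw [Cub.C_nrm, h, map_pow]
      rfl))) hA₀ hφ h3 hG₁
  have hθ' : θ₀.1 * φ.1 = ph b (Cub ℚ) * θ₀.1.map Cub.sig := hθ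
  have hPi : P.1 * (P⁻¹).1 = 1 := by rw [← Units.val_mul, mul_inv_cancel, Units.val_one]
  have hPi' : (P⁻¹).1 * P.1 = 1 := by rw [← Units.val_mul, inv_mul_cancel, Units.val_one]
  refine ⟨glmap j θ₀ * P⁻¹, ⟨_, by simpa using (hθ₀.map j).mul hP.inv⟩, fun s => ?_⟩
  have hs : ∀ x, s (j x) = j ((Cub.sig ^ (ix s % 3)) x) := fun x => by rw [sig_pow_mod, hix]
  have e1 : (θ₀.1.map j).map s = (θ₀.1.map (Cub.sig ^ (ix s % 3) : Cub ℚ ≃+* Cub ℚ)).map j := by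
    ext a c
    exact hs _
  have e2 : P.1.map s * (P⁻¹).1.map s = 1 := by
    have := Matrix.map_mul (L := P.1) (M := (P⁻¹).1) (f := (s : F →+* F))
    rw [hPi, Matrix.map_one _ (map_zero _) (map_one _)] at this
    exact this.symm
  have key : θ₀.1.map j * ((P⁻¹).1 * ((ψ' s).1 * P.1.map s)) =
      ph b F ^ (ix s % 3) * (θ₀.1.map j).map s := by
    rw [e1]
    have hlt : ix s % 3 = 0 ∨ ix s % 3 = 1 ∨ ix s % 3 = 2 := by omega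
    rcases hlt with h | h | h
    · rw [h0 s h, hPi', h]
      simp
    · rw [h1 s h, ← Matrix.mul_assoc (P⁻¹).1, hPi', h, Matrix.one_mul, ← Matrix.map_mul, hθ',
        Matrix.map_mul, ph_map, pow_one, pow_one]
    · have e3 : θ₀.1.map Cub.sig * φ.1.map Cub.sig =
          ph b (Cub ℚ) * (θ₀.1.map Cub.sig).map Cub.sig := by
        have := congrArg (fun X : Matrix I I (Cub ℚ) =>
          X.map (Cub.sig : Cub ℚ ≃+* Cub ℚ).toRingHom) hθ'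
        simp only [Matrix.map_mul, ph_map] at this
        exact this
      rw [h2 s h, ← Matrix.mul_assoc (P⁻¹).1, hPi', h, Matrix.one_mul, ← Matrix.map_mul,
        ← Matrix.mul_assoc, hθ', Matrix.mul_assoc, e3, Matrix.map_mul, Matrix.map_mul, ph_map,
        pow_two, pow_two, Matrix.mul_assoc]
      rfl
  have hb0 : algebraMap ℚ F b ≠ 0 := (map_ne_zero _).2 hb.ne
  have e4 : ph b F ^ ix s = (algebraMap ℚ F b ^ 2) ^ (ix s / 3) • ph b F ^ (ix s % 3) := by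
    have h3' : ph b F ^ 3 = algebraMap ℚ F b ^ 2 • (1 : Matrix I I F) := by
      rw [pow_three', ph, phi_cube]
    conv_lhs => rw [← Nat.div_add_mod (ix s) 3, pow_add, pow_mul, h3', smul_pow, one_pow]
    rw [Matrix.smul_mul, Matrix.one_mul]
  refine ⟨(r s).1 * ((algebraMap ℚ F b ^ 2) ^ (ix s / 3))⁻¹, ?_⟩
  have e5 : (glmap j θ₀ * P⁻¹).1 = θ₀.1.map j * (P⁻¹).1 := rfl
  have e6 : (θ₀.1.map j * (P⁻¹).1).map s = (θ₀.1.map j).map s * (P⁻¹).1.map s :=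
    Matrix.map_mul (f := (s : F →+* F))
  rw [e5, e6, e4, Matrix.smul_mul, smul_smul,
    inv_mul_cancel_right₀ (pow_ne_zero _ (pow_ne_zero _ hb0)), ← Matrix.mul_assoc, ← key, hr,
    Matrix.mul_smul]
  congr 1
  simp only [Matrix.mul_assoc, e2, Matrix.mul_one]

end Pool.Agent.P.MP_3c2f8c_gt.Ex
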