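import Pool.Agent.P.MP_3c2f8c_gt.Ex.HP.CyB
import Pool.Agent.P.MP_3c2f8c_gt.Ex.HP.Cmp1

/-! Ex-HP-Oc1: the composition algebra of a cyclic composition with an idempotent. -/

namespace Pool.Agent.P.MP_3c2f8c_gt.Ex

variable {K : Type} [Field K] [CharZero K] {σ : K ≃+* K} {W : Type} [AddCommGroup W] [Module K W]

namespace Oc1Aux

variable (C : Cyc σ W) (ε : W)

/-- The reflection attached to the idempotent. -/
def cj : W →ₗ[K] W := (C.b.flip ε).smulRight ε - LinearMap.id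

omit [CharZero K] in
theorem cj_apply (x : W) : cj C ε x = C.b x ε • ε - x := rfl

/-- The semilinear map of order three. -/
def th : W →+ W := (C.mul.flip ε).comp (cj C ε).toAddMonoidHom

omit [CharZero K] in
theorem th_apply (x : W) : th C ε x = C.mul (cj C ε x) ε := rfl

omit [CharZero K] in
theorem th_smul (a : K) (x : W) : th C ε (a • x) = σ a • th C ε x := by
  rw [th_apply, map_smul, C.smul_mul, th_apply]

variable {C ε}

omit [CharZero K] in
theorem cj_one (h2 : C.b ε ε = 2) : cj C ε ε = ε := by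
  rw [cj_apply, h2, two_smul, add_sub_cancel_right]

omit [CharZero K] in
theorem b_cj (h2 : C.b ε ε = 2) (x y : W) : C.b (cj C ε x) (cj C ε y) = C.b x y := by
  simp only [cj_apply, map_sub, map_smul, LinearMap.sub_apply, LinearMap.smul_apply, smul_eq_mul,
    h2]
  rw [C.symm ε y]
  ring

omit [CharZero K] in
theorem cj_cj (h2 : C.b ε ε = 2) (x : W) : cj C ε (cj C ε x) = x := by
  rw [cj_apply C ε x, map_sub, map_smul, cj_one h2, cj_apply, sub_sub_cancel]

theorem LR (h2 : C.b ε ε = 2) (x : W) : C.mul ε (C.mul x ε) = x := by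
  have h := C.left ε x
  rw [h2, map_ofNat] at h
  exact smul_right_injective W two_ne_zero h

theorem RL (h2 : C.b ε ε = 2) (x : W) : C.mul (C.mul ε x) ε = x := by
  have h := C.right ε x
  rw [h2, map_ofNat, map_ofNat] at h
  exact smul_right_injective W two_ne_zero h

theorem RRR (h1 : C.mul ε ε = ε) (h2 : C.b ε ε = 2) (x : W) :
    C.mul (C.mul (C.mul x ε) ε) ε = cj C ε x := by
  have h := C.right_pol x ε ε
  rw [h1] at h
  rw [eq_sub_of_add_eq h, map_sub, AddMonoidHom.sub_apply, C.smul_mul, C.three, h1, RL h2,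
    cj_apply]

theorem b_R (h2 : C.b ε ε = 2) (x y : W) : C.b (C.mul x ε) (C.mul y ε) = σ (C.b x y) := by
  have h := C.comp_left x y ε
  rw [h2, map_ofNat, map_ofNat] at h
  linear_combination h / 2

theorem cj_R (h1 : C.mul ε ε = ε) (h2 : C.b ε ε = 2) (x : W) :
    cj C ε (C.mul x ε) = th C ε x := by
  rw [th_apply, ← RRR h1 h2, ← RRR h1 h2]

omit [CharZero K] in
theorem th_one (h1 : C.mul ε ε = ε) (h2 : C.b ε ε = 2) : th C ε ε = ε := by
  rw [th_apply, cj_one h2, h1]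

theorem th_cj (h1 : C.mul ε ε = ε) (h2 : C.b ε ε = 2) (x : W) :
    th C ε (cj C ε x) = cj C ε (th C ε x) := by
  rw [th_apply, cj_cj h2, ← cj_R h1 h2, cj_cj h2]

theorem th_th (h1 : C.mul ε ε = ε) (h2 : C.b ε ε = 2) (x : W) :
    th C ε (th C ε x) = C.mul (C.mul x ε) ε := by
  rw [th_apply, ← cj_R h1 h2 x, cj_cj h2]

theorem th_three (h1 : C.mul ε ε = ε) (h2 : C.b ε ε = 2) (x : W) :
    th C ε (th C ε (th C ε x)) = x := by
  rw [th_th h1 h2, th_apply, RRR h1 h2, cj_cj h2]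

theorem b_th (h2 : C.b ε ε = 2) (x y : W) : C.b (th C ε x) (th C ε y) = σ (C.b x y) := by
  rw [th_apply, th_apply, b_R h2, b_cj h2]

/-- The composition algebra. -/
def alg (h1 : C.mul ε ε = ε) (h2 : C.b ε ε = 2) : CompAlg K W where
  mul := LinearMap.mk₂ K (fun x y => cj C ε (C.mul (th C ε (th C ε x)) (th C ε y)))
    (fun x x' y => by simp only [map_add, AddMonoidHom.add_apply])
    (fun a x y => by rw [th_smul, th_smul, C.smul_mul, C.three, map_smul])
    (fun x y y' => by simp only [map_add])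
    (fun a x y => by rw [th_smul, C.mul_smul, C.three, map_smul])
  one := ε
  b := C.b
  one_mul x := by
    rw [LinearMap.mk₂_apply, th_one h1 h2, th_one h1 h2, th_apply, LR h2, cj_cj h2]
  mul_one x := by
    rw [LinearMap.mk₂_apply, th_one h1 h2, th_th h1 h2, RRR h1 h2, cj_cj h2]
  symm := C.symm
  nondeg := C.nondeg
  comp x y := by
    rw [LinearMap.mk₂_apply, b_cj h2, C.comp, b_th h2, b_th h2, b_th h2, C.three, C.three]
  dim := C.dim

theorem alg_mul (h1 : C.mul ε ε = ε) (h2 : C.b ε ε = 2) (x y : W) :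
    (alg h1 h2).mul x y = cj C ε (C.mul (th C ε (th C ε x)) (th C ε y)) := rfl

theorem mul_eq (h1 : C.mul ε ε = ε) (h2 : C.b ε ε = 2) (x y : W) :
    C.mul x y = (alg h1 h2).conj ((alg h1 h2).mul (th C ε x) (th C ε (th C ε y))) := by
  change _ = cj C ε _
  rw [alg_mul, cj_cj h2, th_three h1 h2, th_three h1 h2]

theorem th_mul (h1 : C.mul ε ε = ε) (h2 : C.b ε ε = 2) (y z : W) :
    th C ε (C.mul y z) = C.mul (th C ε y) (th C ε z) := by
  refine sub_eq_zero.1 (C.nondeg _ fun w => ?_)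
  have key : ∀ x, C.b (th C ε (C.mul y z)) (th C ε x) =
      C.b (C.mul (th C ε y) (th C ε z)) (th C ε x) := fun x => by
    rw [b_th h2, ← C.cyc, mul_eq h1 h2 x y, mul_eq h1 h2 (th C ε y), th_three h1 h2]
    exact (alg h1 h2).b_conj_rotate _ _ _
  rw [map_sub, LinearMap.sub_apply, ← th_three h1 h2 w, key, sub_self]

end Oc1Aux

theorem Cyc.exists_comp (C : Cyc σ W) {ε : W} (h1 : C.mul ε ε = ε) (h2 : C.b ε ε = 2) :
    ∃ (A : CompAlg K W) (Θ : W →+ W), A.b = C.b ∧ A.one = ε ∧ Θ ε = ε ∧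
      (∀ (a : K) x, Θ (a • x) = σ a • Θ x) ∧ (∀ x, Θ (Θ (Θ x)) = x) ∧
      (∀ x y, C.b (Θ x) (Θ y) = σ (C.b x y)) ∧ (∀ x y, Θ (A.mul x y) = A.mul (Θ x) (Θ y)) ∧
      ∀ x y, C.mul x y = A.conj (A.mul (Θ x) (Θ (Θ y))) := by
  refine ⟨Oc1Aux.alg h1 h2, Oc1Aux.th C ε, rfl, rfl, Oc1Aux.th_one h1 h2, Oc1Aux.th_smul C ε,
    Oc1Aux.th_three h1 h2, Oc1Aux.b_th h2, fun x y => ?_, Oc1Aux.mul_eq h1 h2⟩
  rw [Oc1Aux.alg_mul, Oc1Aux.alg_mul, Oc1Aux.th_cj h1 h2, Oc1Aux.th_mul h1 h2]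

end Pool.Agent.P.MP_3c2f8c_gt.Ex
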