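import Pool.Agent.P.MP_3c2f8c_gt.Ex.HP.Defs
import Pool.Agent.P.MP_3c2f8c_gt.Ex.Al.B1

/-! Ex-HP-Pe1: the Peirce decomposition of a frame. -/

namespace Pool.Agent.P.MP_3c2f8c_gt.Ex

open Matrix

variable {K : Type} [Field K] [CharZero K] {n m : T3 K} {e : Fin 3 → I → K}

namespace Pe1Aux

theorem third {i j : Fin 3} (h : i ≠ j) : ∃ k, i ≠ k ∧ j ≠ k := by
  revert i j
  decide

theorem two (i : Fin 3) : ∃ j k, i ≠ j ∧ i ≠ k ∧ j ≠ k := by
  revert i
  decide

theorem sum3 {M : Type} [AddCommMonoid M] {i j k : Fin 3} (hij : i ≠ j) (hik : i ≠ k) (hjk : j ≠ k)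
    (f : Fin 3 → M) : ∑ a, f a = f i + f j + f k := by
  have : (Finset.univ : Finset (Fin 3)) = {i, j, k} := by
    revert i j k
    decide
  rw [this, Finset.sum_insert (by simp [hij, hik]), Finset.sum_pair hjk, add_assoc]

omit [CharZero K] in
theorem rep (h : PFrame n e) (i : Fin 3) (w : I → K) : tri n (e i) (e i) w = 0 := by
  rw [tri_eq_dot, h.sing, zero_dotProduct]

theorem adj (hA : IsAlb n m) (h : PFrame n e) (i : Fin 3) (z w : I → K) :
    crs m (crs n (e i) z) (crs n (e i) w) = tri n (e i) z w • e i := by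
  have := hA.adj₃ (e i) z w
  rw [h.sing, crs_zero_left, rep h, rep h, zero_smul, zero_smul, zero_add, zero_add, zero_add,
    mul_smul] at this
  exact smul_right_injective _ (two_ne_zero (α := K)) this

omit [CharZero K] in
theorem crs_sum (n : T3 K) (x : I → K) (f : Fin 3 → I → K) :
    crs n x (∑ i, f i) = ∑ i, crs n x (f i) := map_sum (crsL n x) f _

end Pe1Aux

open Pe1Aux

set_option linter.unusedSectionVars false
set_option linter.unusedVariables false

theorem PFrame.xi_dot (hA : IsAlb n m) (h : PFrame n e) (i j : Fin 3) :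
    xi n e i ⬝ᵥ e j = if i = j then 1 else 0 := by
  rw [xi, ← tri_eq_dot]
  split_ifs with hij
  · subst hij
    fin_cases i
    · exact (hA.sym.tri_rotate _ _ _).symm.trans h.one
    · exact (hA.sym.tri_rotate _ _ _).trans h.one
    · exact h.one
  · have : j = i + 1 ∨ j = i + 2 := by
      revert i j
      decide
    rcases this with rfl | rfl
    · rw [hA.sym.tri_swap₂₃, rep h]
    · rw [hA.sym.tri_rotate, rep h]

theorem PFrame.crs_e (hA : IsAlb n m) (h : PFrame n e) {i j k : Fin 3} (hij : i ≠ j) (hik : i ≠ k)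
    (hjk : j ≠ k) : crs n (e i) (e j) = xi n e k := by
  have : i = k + 1 ∧ j = k + 2 ∨ i = k + 2 ∧ j = k + 1 := by
    revert i j k
    decide
  rcases this with ⟨rfl, rfl⟩ | ⟨rfl, rfl⟩
  · rfl
  · exact hA.sym.crs_comm _ _

theorem Pe1Aux.e_dot (hA : IsAlb n m) (h : PFrame n e) {i j k : Fin 3} (hij : i ≠ j) (hik : i ≠ k)
    (hjk : j ≠ k) (w : I → K) : e j ⬝ᵥ crs n (e i) w = xi n e k ⬝ᵥ w := by
  rw [dotProduct_comm, ← tri_eq_dot, hA.sym.tri_swap₂₃, tri_eq_dot, h.crs_e hA hij hik hjk]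

theorem Pe1Aux.xi_crs (hA : IsAlb n m) (h : PFrame n e) {i j k : Fin 3} (hij : i ≠ j) (hik : i ≠ k)
    (hjk : j ≠ k) : crs m (xi n e i) (xi n e j) = e k := by
  have := adj hA h k (e j) (e i)
  rw [tri_eq_dot, h.crs_e hA hjk.symm hik.symm hij.symm, h.crs_e hA hik.symm hjk.symm hij,
    h.xi_dot hA, if_pos rfl, one_smul] at this
  exact this

theorem PFrame.dual (hA : IsAlb n m) (h : PFrame n e) : PFrame m (xi n e) := by
  refine ⟨fun k => ?_, ?_⟩
  · rw [xi, adj hA h, hA.sym.tri_rotate, rep h, zero_smul]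
  · rw [tri_eq_dot, xi_crs hA h (k := 2) (by decide) (by decide) (by decide), dotProduct_comm,
      h.xi_dot hA, if_pos rfl]

theorem PFrame.xi_xi (hA : IsAlb n m) (h : PFrame n e) : xi m (xi n e) = e := by
  funext i
  rw [xi]
  refine xi_crs hA h ?_ ?_ ?_ <;> revert i <;> decide

theorem PFrame.crs_xi_ne (hA : IsAlb n m) (h : PFrame n e) {i j : Fin 3} (hij : i ≠ j) (w : I → K) :
    crs m (xi n e j) (crs n (e i) w) = (xi n e j ⬝ᵥ w) • e i := by
  obtain ⟨k, hik, hjk⟩ := third hij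
  rw [← h.crs_e hA hik hij hjk.symm, adj hA h, tri_eq_dot]

theorem PFrame.crs_e_ne (hA : IsAlb n m) (h : PFrame n e) {i j : Fin 3} (hij : i ≠ j) (η : I → K) :
    crs n (e j) (crs m (xi n e i) η) = (e j ⬝ᵥ η) • xi n e i := by
  have := (h.dual hA).crs_xi_ne hA.symm hij η
  rwa [h.xi_xi hA] at this

theorem PFrame.sum_proj (hA : IsAlb n m) (h : PFrame n e) (w : I → K) :
    ∑ i, crs m (xi n e i) (crs n (e i) w) = w + ∑ i, (xi n e i ⬝ᵥ w) • e i := by
  have := hA.f4 (e 0) (e 1) (e 2) w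
  rw [h.one, one_smul, tri_eq_dot, tri_eq_dot, tri_eq_dot,
    h.crs_e hA (i := 0) (j := 1) (k := 2) (by decide) (by decide) (by decide),
    h.crs_e hA (i := 0) (j := 2) (k := 1) (by decide) (by decide) (by decide),
    h.crs_e hA (i := 1) (j := 2) (k := 0) (by decide) (by decide) (by decide),
    hA.sym'.crs_comm (crs n (e 0) w)] at this
  rw [Fin.sum_univ_three, Fin.sum_univ_three]
  linear_combination (exp := 1) this

theorem PFrame.crs_proj (hA : IsAlb n m) (h : PFrame n e) (i : Fin 3) (w : I → K) :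
    crs n (e i) (crs m (xi n e i) (crs n (e i) w)) = crs n (e i) w := by
  obtain ⟨j, k, hij, hik, hjk⟩ := two i
  have := (h.dual hA).sum_proj hA.symm (crs n (e i) w)
  have z : e i ⬝ᵥ crs n (e i) w = 0 := by
    rw [dotProduct_comm, ← tri_eq_dot, hA.sym.tri_swap₂₃, rep h]
  rw [h.xi_xi hA, sum3 hij hik hjk, sum3 hij hik hjk, h.crs_xi_ne hA hij, h.crs_xi_ne hA hik,
    crs_smul_right, crs_smul_right, h.crs_e hA hij.symm hjk hik, h.crs_e hA hik.symm hjk.symm hij,
    z, e_dot hA h hij hik hjk, e_dot hA h hik hij hjk.symm, zero_smul] at this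
  linear_combination (exp := 1) this

theorem PFrame.xi_dot_Vp (hA : IsAlb n m) {i : Fin 3} {x : I → K} (hx : x ∈ Vp n e i) (j : Fin 3) :
    xi n e j ⬝ᵥ x = 0 := by
  rw [xi, ← tri_eq_dot]
  have : ∀ i j : Fin 3, j + 1 ≠ i ∨ j + 2 ≠ i := by decide
  rcases this i j with a | a
  · rw [hA.sym.tri_swap₂₃, tri_eq_dot, hx _ a, zero_dotProduct]
  · rw [hA.sym.tri_rotate, tri_eq_dot, hx _ a, zero_dotProduct]

theorem PFrame.proj_Vp (hA : IsAlb n m) (h : PFrame n e) {i : Fin 3} {x : I → K}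
    (hx : x ∈ Vp n e i) : crs m (xi n e i) (crs n (e i) x) = x := by
  have := h.sum_proj hA x
  rw [Finset.sum_eq_single i (fun j _ hj => by rw [hx j hj, crs_zero_right]) (by simp)] at this
  simpa [PFrame.xi_dot_Vp hA hx] using this

theorem PFrame.crs_e_mem (hA : IsAlb n m) (h : PFrame n e) {i : Fin 3} {x : I → K}
    (hx : x ∈ Vp n e i) : crs n (e i) x ∈ Vp m (xi n e) i := fun j hj => by
  rw [h.crs_xi_ne hA hj.symm, PFrame.xi_dot_Vp hA hx, zero_smul]

theorem PFrame.dot_Vp_ne (hA : IsAlb n m) (h : PFrame n e) {i j : Fin 3} (hij : i ≠ j)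
    {x η : I → K} (hx : x ∈ Vp n e i) (hη : η ∈ Vp m (xi n e) j) : η ⬝ᵥ x = 0 := by
  rw [← h.proj_Vp hA hx, dotProduct_comm, ← tri_eq_dot, hA.sym'.tri_swap₂₃, tri_eq_dot, hη i hij,
    zero_dotProduct]

/-- The projection onto a Peirce space. -/
def Pe1Aux.pr (n m : T3 K) (e : Fin 3 → I → K) (i : Fin 3) : (I → K) →ₗ[K] (I → K) :=
  (crsL m (xi n e i)).comp (crsL n (e i)) + (dotProductBilin K K (xi n e i)).smulRight (e i) -
    ∑ j, (dotProductBilin K K (xi n e j)).smulRight (e j)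

theorem Pe1Aux.pr_apply (i : Fin 3) (v : I → K) : pr n m e i v =
    crs m (xi n e i) (crs n (e i) v) + (xi n e i ⬝ᵥ v) • e i - ∑ j, (xi n e j ⬝ᵥ v) • e j := by
  simp [pr, LinearMap.sum_apply]

theorem Pe1Aux.pr_mem (hA : IsAlb n m) (h : PFrame n e) (i : Fin 3) (v : I → K) :
    pr n m e i v ∈ Vp n e i := fun j hj => by
  obtain ⟨k, hik, hjk⟩ := third hj.symm
  rw [pr_apply, crs_sub_right, crs_add_right, h.crs_e_ne hA hj.symm, e_dot hA h hj.symm hik hjk,
    sum3 hj.symm hik hjk, crs_add_right, crs_add_right, crs_smul_right, crs_smul_right,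
    crs_smul_right, h.sing, h.crs_e hA hjk hj hik.symm, smul_zero]
  abel

theorem PFrame.exists_decomp (hA : IsAlb n m) (h : PFrame n e) (v : I → K) :
    ∃ (α : Fin 3 → K) (x : Fin 3 → I → K), (∀ i, x i ∈ Vp n e i) ∧
      v = ∑ i, α i • e i + ∑ i, x i := by
  refine ⟨fun j => xi n e j ⬝ᵥ v, fun i => pr n m e i v, fun i => pr_mem hA h i v, ?_⟩
  simp only [pr_apply, Finset.sum_sub_distrib, Finset.sum_add_distrib, h.sum_proj hA,
    Finset.sum_const, Finset.card_univ, Fintype.card_fin]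
  module

theorem PFrame.decomp_eq_zero (hA : IsAlb n m) (h : PFrame n e) {α : Fin 3 → K}
    {x : Fin 3 → I → K} (hx : ∀ i, x i ∈ Vp n e i) (h0 : ∑ i, α i • e i + ∑ i, x i = 0) :
    α = 0 ∧ x = 0 := by
  have ha : α = 0 := funext fun j => by
    have := congrArg (xi n e j ⬝ᵥ ·) h0
    simpa [dotProduct_sum, h.xi_dot hA, PFrame.xi_dot_Vp hA (hx _)] using this
  refine ⟨ha, funext fun i => ?_⟩
  subst ha
  simp only [Pi.zero_apply, zero_smul, Finset.sum_const_zero, zero_add] at h0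
  have := congrArg (fun v => crs m (xi n e i) (crs n (e i) v)) h0
  simp only [crs_zero_right] at this
  rw [crs_sum, Finset.sum_eq_single i (fun j _ hj => hx j i hj.symm) (by simp),
    h.proj_Vp hA (hx i)] at this
  exact this

theorem PFrame.nondeg (hA : IsAlb n m) (h : PFrame n e) {i : Fin 3} {x : I → K}
    (hx : x ∈ Vp n e i) (h0 : ∀ y ∈ Vp n e i, tri n (e i) x y = 0) : x = 0 := by
  have hη := h.crs_e_mem hA hx
  have z : crs n (e i) x = 0 := B1Aux.dot_ext fun v => by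
    obtain ⟨α, y, hy, rfl⟩ := h.exists_decomp hA v
    have a : ∀ j, crs n (e i) x ⬝ᵥ e j = 0 := fun j => by
      have := PFrame.xi_dot_Vp hA.symm hη j
      rwa [h.xi_xi hA, dotProduct_comm] at this
    have b : ∀ j, crs n (e i) x ⬝ᵥ y j = 0 := fun j => by
      by_cases hj : j = i
      · subst hj
        rw [← tri_eq_dot, h0 _ (hy j)]
      · exact h.dot_Vp_ne hA hj (hy j) hη
    simp [dotProduct_sum, a, b]
  rw [← h.proj_Vp hA hx, z, crs_zero_right]

theorem PFrame.finrank_Vp (hA : IsAlb n m) (h : PFrame n e) (i : Fin 3) :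
    Module.finrank K (Vp n e i) = 8 := by
  have hp : LinearMap.IsProj (Vp n e i) (pr n m e i) := ⟨pr_mem hA h i, fun x hx => by
    simp [pr_apply, h.proj_Vp hA hx, PFrame.xi_dot_Vp hA hx]⟩
  have t := hp.trace
  have t1 : LinearMap.trace K _ ((crsL m (xi n e i)).comp (crsL n (e i))) = 10 := by
    have := hA.trace (e i) (xi n e i)
    rw [h.xi_dot hA, if_pos rfl, mul_one] at this
    rw [LinearMap.trace_eq_matrix_trace K (Pi.basisFun K I), ← this]
    simp [Matrix.trace]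
  have t2 : ∀ j, LinearMap.trace K _ ((dotProductBilin K K (xi n e j)).smulRight (e j)) = 1 :=
    fun j => by
      rw [LinearMap.trace_smulRight]
      exact (h.xi_dot hA j j).trans (if_pos rfl)
  rw [pr, map_sub, map_add, map_sum, t1, t2] at t
  simp only [t2, Finset.sum_const, Finset.card_univ, Fintype.card_fin] at t
  have : ((Module.finrank K (Vp n e i) : ℕ) : K) = (8 : ℕ) := by
    rw [← t]
    norm_num
  exact_mod_cast this

end Pool.Agent.P.MP_3c2f8c_gt.Ex
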