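import Pool.Agent.P.MP_3c2f8c_gt.Ex.HP.Pe1

/-! Ex-HP-Pe2: products of Peirce spaces, triality, the cubic form in Peirce coordinates. -/

namespace Pool.Agent.P.MP_3c2f8c_gt.Ex

open Matrix

variable {K : Type} [Field K] [CharZero K] {n m : T3 K} {e : Fin 3 → I → K} {i j k : Fin 3}
  {x y z : I → K}

namespace Pe2Aux

theorem third : ∀ i : Fin 3, ∃ j k, i ≠ j ∧ i ≠ k ∧ j ≠ k := by decide

theorem two : ∀ i j k l : Fin 3, i ≠ j → i ≠ k → j ≠ k → l ≠ k → l = i ∨ l = j := by decide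

theorem univ3 : ∀ i j k : Fin 3, i ≠ j → i ≠ k → j ≠ k →
    (Finset.univ : Finset (Fin 3)) = {i, j, k} := by decide

theorem sum3 {M : Type} [AddCommMonoid M] (hij : i ≠ j) (hik : i ≠ k) (hjk : j ≠ k)
    (f : Fin 3 → M) : ∑ l, f l = f i + (f j + f k) := by
  rw [univ3 i j k hij hik hjk, Finset.sum_insert (by simp [hij, hik]), Finset.sum_pair hjk]

omit [CharZero K] in
theorem t12 {a b : I → K} (h0 : crs n a b = 0) (c : I → K) : tri n a b c = 0 := by
  rw [tri_eq_dot, h0, zero_dotProduct]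

omit [CharZero K] in
theorem t13 (hs : Sym3 n) {a b : I → K} (h0 : crs n a b = 0) (c : I → K) : tri n a c b = 0 := by
  rw [hs.tri_swap₂₃, t12 h0]

omit [CharZero K] in
theorem t23 (hs : Sym3 n) {a b : I → K} (h0 : crs n a b = 0) (c : I → K) : tri n c a b = 0 := by
  rw [hs.tri_rotate, t12 h0]

theorem xi_crs (hA : IsAlb n m) (h : PFrame n e) (hij : i ≠ j) (hik : i ≠ k) (hjk : j ≠ k)
    (hx : crs n (e k) x = 0) (hy : crs n (e k) y = 0) :
    crs m (xi n e i) (crs n x y) = tri n (e j) x y • e k := by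
  have h1 := hA.f4 (e k) (e j) x y
  rw [h.crs_e hA hjk.symm hik.symm hij.symm, hx, hy, crs_zero_left, crs_zero_left,
    t13 hA.sym hx, t13 hA.sym hy, t12 hx, zero_smul, zero_smul, zero_smul] at h1
  simpa only [add_zero, zero_add] using h1

omit [CharZero K] in
theorem cube2 (hs : Sym3 n) (a b : I → K) : tri n (a + b) (a + b) (a + b) =
    tri n a a a + 3 * tri n a a b + 3 * tri n a b b + tri n b b b := by
  simp only [tri_add₁, tri_add₂, tri_add₃]
  linear_combination hs.tri_swap₂₃ a b a + hs.tri_rotate b a a + hs.tri_swap₁₂ b a b -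
    hs.tri_rotate a b b

omit [CharZero K] in
theorem cube3 (hs : Sym3 n) {a : Fin 3 → I → K} (h0 : ∀ i j, tri n (a i) (a i) (a j) = 0) :
    tri n (∑ i, a i) (∑ i, a i) (∑ i, a i) = 6 * tri n (a 0) (a 1) (a 2) := by
  have h1 : ∀ i j, tri n (a i) (a j) (a i) = 0 := fun i j => by rw [hs.tri_swap₂₃, h0]
  have h2 : ∀ i j, tri n (a j) (a i) (a i) = 0 := fun i j => by rw [hs.tri_rotate, h0]
  simp only [Fin.sum_univ_three, tri_add₁, tri_add₂, tri_add₃, h0, h1, h2]
  linear_combination hs.tri_swap₂₃ (a 0) (a 2) (a 1) + hs.tri_swap₁₂ (a 1) (a 0) (a 2) -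
    hs.tri_rotate (a 0) (a 1) (a 2) + hs.tri_rotate (a 2) (a 0) (a 1) +
    hs.tri_rotate (a 2) (a 1) (a 0) + hs.tri_swap₁₂ (a 1) (a 0) (a 2)

end Pe2Aux

open Pe2Aux

theorem PFrame.crs_same (hA : IsAlb n m) (h : PFrame n e) (hx : x ∈ Vp n e i) (hy : y ∈ Vp n e i) :
    crs n x y = tri n (e i) x y • xi n e i := by
  obtain ⟨j, k, hij, hik, hjk⟩ := third i
  have xj := hx j hij.symm
  have xk := hx k hik.symm
  have d : ∀ l, e l ⬝ᵥ crs n x y = tri n (e l) x y := fun l => by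
    rw [dotProduct_comm, ← tri_eq_dot, ← hA.sym.tri_rotate]
  have h1 := (h.dual hA).sum_proj hA.symm (crs n x y)
  rw [h.xi_xi hA, sum3 hij hik hjk, sum3 hij hik hjk, d, d, d, t12 xj, t12 xk,
    xi_crs hA h hij hik hjk xk (hy k hik.symm), t12 xj,
    xi_crs hA h hij.symm hjk hik xk (hy k hik.symm),
    xi_crs hA h hik.symm hjk.symm hij xj (hy j hij.symm), crs_smul_right,
    crs_smul_right, crs_smul_right, h.crs_e hA hjk hij.symm hik.symm,
    h.crs_e hA hjk.symm hik.symm hij.symm] at h1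
  linear_combination (norm := module) -h1

theorem PFrame.crs_mem (hA : IsAlb n m) (h : PFrame n e) (hij : i ≠ j) (hik : i ≠ k) (hjk : j ≠ k)
    (hx : x ∈ Vp n e i) (hy : y ∈ Vp n e j) : crs n x y ∈ Vp m (xi n e) k := fun l hl => by
  rcases two i j k l hij hik hjk hl with rfl | rfl
  · rw [xi_crs hA h hij hik hjk (hx k hik.symm) (hy k hjk.symm),
      t12 (hx j hij.symm), zero_smul]
  · rw [xi_crs hA h hij.symm hjk hik (hx k hik.symm) (hy k hjk.symm),
      t13 hA.sym (hy i hij), zero_smul]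

theorem PFrame.pst_mem (hA : IsAlb n m) (h : PFrame n e) (hij : i ≠ j) (hik : i ≠ k) (hjk : j ≠ k)
    (hx : x ∈ Vp n e i) (hy : y ∈ Vp n e j) : pst n m e k x y ∈ Vp n e k := by
  have h1 := (h.dual hA).crs_e_mem hA.symm (h.crs_mem hA hij hik hjk hx hy)
  rw [h.xi_xi hA] at h1
  exact neg_mem h1

theorem PFrame.tri_pst (hA : IsAlb n m) (h : PFrame n e) (hij : i ≠ j) (hik : i ≠ k) (hjk : j ≠ k)
    (hx : x ∈ Vp n e i) (hy : y ∈ Vp n e j) (z : I → K) :
    tri n (e k) (pst n m e k x y) z = -tri n x y z := by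
  have h1 := (h.dual hA).proj_Vp hA.symm (h.crs_mem hA hij hik hjk hx hy)
  rw [h.xi_xi hA] at h1
  rw [tri_eq_dot, pst, crs_neg_right, h1, neg_dotProduct, tri_eq_dot]

theorem PFrame.pst_pst (hA : IsAlb n m) (h : PFrame n e) (hij : i ≠ j) (hik : i ≠ k) (hjk : j ≠ k)
    (hx : x ∈ Vp n e i) (hy : y ∈ Vp n e j) :
    (2 : K) • pst n m e j (pst n m e k x y) x = -tri n (e i) x x • y := by
  have e1 : crs m (xi n e i) (crs n x y) = 0 := h.crs_mem hA hij hik hjk hx hy i hik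
  have e2 : crs m (xi n e k) (crs n (e i) x) = 0 := h.crs_e_mem hA hx k hik.symm
  have e3 : crs m (xi n e i) (xi n e k) = e j := by
    rw [(h.dual hA).crs_e hA.symm hik hij hjk.symm, h.xi_xi hA]
  have e4 : tri n x x y = 0 := by
    rw [tri_eq_dot, h.crs_same hA hx hx, smul_dotProduct, PFrame.xi_dot_Vp hA hy, smul_zero]
  have h1 := hA.f4' (xi n e i) (crs n (e i) x) (xi n e k) (crs n x y)
  rw [h.proj_Vp hA hx, e1, e3, crs_zero_left, t13 hA.sym' e1, t13 hA.sym' e1,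
    hA.sym'.tri_swap₂₃ (xi n e i), t23 hA.sym' e2, hA.sym'.tri_swap₁₂ (crs n (e i) x), t12 e2,
    zero_smul, zero_smul, zero_smul, zero_smul] at h1
  have h2 := hA.adj₃ x (e i) y
  rw [hy i hij, crs_zero_right, e4, t23 hA.sym (hy i hij), hA.sym.crs_comm x (e i),
    ← hA.sym.tri_rotate (e i) x x, mul_zero, zero_smul, zero_smul, zero_add, add_zero,
    add_zero] at h2
  have h3 : crs n (crs m (xi n e k) (crs n x y)) x =
      -crs n (e j) (crs m (crs n (e i) x) (crs n x y)) := by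
    rw [hA.sym.crs_comm]
    linear_combination (norm := module) h1
  rw [pst, pst, crs_neg_left, crs_neg_right, neg_neg, h3, crs_neg_right, smul_neg,
    ← crs_smul_right, ← crs_smul_right, h2, crs_smul_right, crs_smul_right, h.proj_Vp hA hy,
    neg_smul]

theorem pst_comm (hA : IsAlb n m) (k : Fin 3) (x y : I → K) :
    pst n m e k x y = pst n m e k y x := by
  rw [pst, pst, hA.sym.crs_comm x]

theorem PFrame.tri_decomp (hA : IsAlb n m) (h : PFrame n e) (α : Fin 3 → K) {x : Fin 3 → I → K}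
    (hx : ∀ i, x i ∈ Vp n e i) {v : I → K} (hv : v = ∑ i, α i • e i + ∑ i, x i) :
    tri n v v v = 6 * (α 0 * α 1 * α 2) + 3 * ∑ i, α i * tri n (e i) (x i) (x i) +
      6 * tri n (x 0) (x 1) (x 2) := by
  have hx' : ∀ i j, tri n (x i) (x i) (x j) = 0 := fun i j => by
    rw [tri_eq_dot, h.crs_same hA (hx i) (hx i), smul_dotProduct, PFrame.xi_dot_Vp hA (hx j),
      smul_zero]
  have he : ∀ i j, tri n (α i • e i) (α i • e i) (α j • e j) = 0 := fun i j => by
    rw [tri_smul₁, tri_smul₂, t12 (h.sing i), mul_zero, mul_zero]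
  have h1 : ∀ i j l, tri n (e i) (e j) (x l) = 0 := fun i j l => by
    by_cases hi : i = l
    · by_cases hj : j = l
      · rw [hi, hj, t12 (h.sing l)]
      · exact t23 hA.sym (hx l j hj) _
    · exact t13 hA.sym (hx l i hi) _
  have h2 : ∀ i, tri n (e i) (∑ l, x l) (∑ l, x l) = tri n (e i) (x i) (x i) := fun i => by
    obtain ⟨j, k, hij, hik, hjk⟩ := third i
    simp only [sum3 hij hik hjk, tri_add₂, tri_add₃, t12 (hx j i hij), t12 (hx k i hik),
      t13 hA.sym (hx j i hij), t13 hA.sym (hx k i hik), add_zero]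
  have h3 : tri n (∑ i, α i • e i) (∑ i, α i • e i) (∑ i, x i) = 0 := by
    simp only [Fin.sum_univ_three, tri_add₁, tri_add₂, tri_add₃, tri_smul₁, tri_smul₂, h1,
      mul_zero, add_zero]
  have h4 : tri n (∑ i, α i • e i) (∑ i, x i) (∑ i, x i) =
      ∑ i, α i * tri n (e i) (x i) (x i) := by
    rw [Fin.sum_univ_three fun i => α i • e i, tri_add₁, tri_add₁, tri_smul₁, tri_smul₁, tri_smul₁,
      h2, h2, h2, Fin.sum_univ_three]
  rw [hv, cube2 hA.sym, cube3 hA.sym he, cube3 hA.sym hx', h3, h4, tri_smul₁, tri_smul₂,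
    tri_smul₃, h.one]
  ring

end Pool.Agent.P.MP_3c2f8c_gt.Ex
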