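import Pool.Agent.P.MP_3c2f8c_gt.Ex.HP.Defs
import Pool.Agent.P.MP_3c2f8c_gt.Ex.Al.B1

/-! Ex-HP-Red1: singular vectors. -/

namespace Pool.Agent.P.MP_3c2f8c_gt.Ex

open Matrix

variable {K : Type} [Field K] [CharZero K] {n m : T3 K}

namespace Red1Aux

theorem cube {R : Type} [CommRing R] {n : T3 R} (h : Sym3 n) (s t : R) (x y : I → R) :
    tri n (s • x + t • y) (s • x + t • y) (s • x + t • y) = s ^ 3 * tri n x x x +
      3 * s ^ 2 * t * tri n x x y + 3 * s * t ^ 2 * tri n x y y + t ^ 3 * tri n y y y := by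
  simp only [tri_add₁, tri_add₂, tri_add₃, tri_smul₁, tri_smul₂, tri_smul₃]
  rw [h.tri_swap₂₃ x y x, h.tri_rotate y x x, h.tri_swap₁₂ y x y, h.tri_rotate y y x,
    h.tri_swap₁₂ y x y]
  ring

theorem cube' {R : Type} [CommRing R] {n : T3 R} (h : Sym3 n) (t : R) (x y : I → R) :
    tri n (x + t • y) (x + t • y) (x + t • y) = tri n x x x +
      3 * t * tri n x x y + 3 * t ^ 2 * tri n x y y + t ^ 3 * tri n y y y := by
  have := cube h 1 t x y
  rw [one_smul] at this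
  rw [this]
  ring

theorem exists_dot {R : Type} [CommRing R] {η : I → R} (h0 : η ≠ 0) : ∃ w, η ⬝ᵥ w ≠ 0 := by
  obtain ⟨a, ha⟩ := Function.ne_iff.1 h0
  exact ⟨Pi.single a 1, by rwa [dotProduct_single_one]⟩

theorem exists_gen (hA : IsAlb n m) {η : I → K} (h0 : η ≠ 0) :
    ∃ u, tri n u u u ≠ 0 ∧ η ⬝ᵥ u ≠ 0 := by
  obtain ⟨u, hu⟩ := hA.exists_ne
  obtain ⟨w, hw⟩ := exists_dot h0
  by_cases h : η ⬝ᵥ u = 0
  swap
  · exact ⟨u, hu, h⟩
  by_contra hn
  push Not at hn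
  have key : ∀ s : K, s ≠ 0 → tri n u u u + 3 * s * tri n u u w + 3 * s ^ 2 * tri n u w w +
      s ^ 3 * tri n w w w = 0 := fun s hs => by
    rw [← cube' hA.sym]
    by_contra h1
    have h2 := hn _ h1
    rw [dotProduct_add, h, dotProduct_smul, zero_add, smul_eq_mul] at h2
    exact mul_ne_zero hs hw h2
  have k1 := key 1 (by norm_num)
  have k2 := key 2 (by norm_num)
  have k3 := key 3 (by norm_num)
  have k4 := key 4 (by norm_num)
  exact hu (by linear_combination 4 * k1 - 6 * k2 + 4 * k3 - k4)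

omit [CharZero K] in
theorem orb_eig {σ : K ≃+* K} {φ : Matrix I I K} {y : I → K} {c : K} (h : sl σ φ y = c • y) :
    sl σ φ (sl σ φ (sl σ φ y)) = (c * σ c * σ (σ c)) • y := by
  simp only [h, sl_smul, smul_smul, map_mul]
  congr 1
  ring

end Red1Aux

open Red1Aux

theorem IsAlb.exists_sing_of_dual (hA : IsAlb n m) {η : I → K} (h0 : η ≠ 0)
    (hη : crs m η η = 0) : ∃ v, v ≠ 0 ∧ crs n v v = 0 := by
  obtain ⟨u, hN, ht⟩ := exists_gen hA h0
  have h1 := hA.adj₁ u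
  have h2 := hA.tri_adj u
  have h3 := hA.symm.adj₂ (crs n u u) η
  have h4 := hA.symm.adj₃ η (crs n u u) (crs n u u)
  set A := crs n u u with hA'
  set N := tri n u u u
  set t := η ⬝ᵥ u with ht'
  have e1 : crs m A A = (4 / 3 * N) • u := by
    refine smul_right_injective _ (three_ne_zero (α := K)) ?_
    linear_combination (norm := module) h1
  have e2 : tri m A A η = 4 / 3 * N * t := by
    rw [tri_eq_dot, e1, smul_dotProduct, dotProduct_comm, smul_eq_mul]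
  have e3 : tri m η η A = 0 := by rw [tri_eq_dot, hη, zero_dotProduct]
  have e4 : tri m A A A = 4 / 3 * N ^ 2 := by linear_combination h2 / 3
  rw [hA.sym'.crs_comm A η, e1, e2, e4, crs_smul_left] at h3
  rw [hη, crs_zero_left, e3, hA.sym'.tri_rotate η A A, e2] at h4
  set B := crs m η A with hB
  have e5 : crs n u B = (N / 3) • η + t • A := by
    refine smul_right_injective _ (mul_ne_zero (show (4 : K) ≠ 0 by norm_num) hN) ?_
    linear_combination (norm := module) h3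
  have e6 : crs n B B = (4 / 3 * N * t) • η := by
    refine smul_right_injective _ (two_ne_zero (α := K)) ?_
    linear_combination (norm := module) h4
  refine ⟨(2 * t) • u - B, fun h => ?_, ?_⟩
  · have h5 := congrArg (η ⬝ᵥ ·) h
    have h6 : η ⬝ᵥ B = 0 := by
      rw [dotProduct_comm, hB, ← tri_eq_dot, hA.sym'.tri_swap₂₃, e3]
    simp only [dotProduct_sub, dotProduct_smul, dotProduct_zero, h6, ← ht', smul_eq_mul,
      sub_zero] at h5
    exact mul_ne_zero (mul_ne_zero two_ne_zero ht) ht h5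
  · simp only [crs_sub_left, crs_sub_right, crs_smul_left, crs_smul_right]
    rw [hA.sym.crs_comm B u, e5, e6, ← hA']
    module

theorem IsAlb.exists_sing_of_zero (hA : IsAlb n m) {v : I → K} (h0 : v ≠ 0)
    (hv : tri n v v v = 0) : (∃ x, x ≠ 0 ∧ crs n x x = 0) ∧ ∃ η, η ≠ 0 ∧ crs m η η = 0 := by
  by_cases h : crs n v v = 0
  · exact ⟨⟨v, h0, h⟩, hA.symm.exists_sing_of_dual h0 h⟩
  · have h1 := hA.adj₁ v
    rw [hv, mul_zero, zero_smul] at h1
    have h2 := (smul_eq_zero.1 h1).resolve_left three_ne_zero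
    exact ⟨hA.exists_sing_of_dual h h2, _, h, h2⟩

theorem IsAlb.tri_line (hA : IsAlb n m) {u a : I → K} (hu : tri n u u u ≠ 0) {r : Fin 3 → K}
    (hr : Function.Injective r) {x : Fin 3 → I → K} (hx : ∀ i, x i = r i • u - a)
    (h0 : ∀ i, tri n (x i) (x i) (x i) = 0) :
    tri m (crs n (x 0) (x 0)) (crs n (x 1) (x 1)) (crs n (x 2) (x 2)) ≠ 0 := by
  have d01 : r 0 - r 1 ≠ 0 := sub_ne_zero.2 (hr.ne (by decide))
  have d21 : r 2 - r 1 ≠ 0 := sub_ne_zero.2 (hr.ne (by decide))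
  have d02 : r 0 - r 2 ≠ 0 := sub_ne_zero.2 (hr.ne (by decide))
  obtain ⟨s, hs⟩ : ∃ s, s = (r 2 - r 1) / (r 0 - r 1) := ⟨_, rfl⟩
  obtain ⟨t, ht⟩ : ∃ t, t = (r 0 - r 2) / (r 0 - r 1) := ⟨_, rfl⟩
  have s0 : s ≠ 0 := hs ▸ div_ne_zero d21 d01
  have t0 : t ≠ 0 := ht ▸ div_ne_zero d02 d01
  have a1 : s + t = 1 := by rw [hs, ht]; field_simp; ring
  have a2 : s * r 0 + t * r 1 = r 2 := by rw [hs, ht]; field_simp; ring
  have e2 : x 2 = s • x 0 + t • x 1 := by
    rw [hx, hx, hx, ← a2]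
    linear_combination (norm := module) a1 • a
  have e3 : (r 0 - r 1) • u = (1 : K) • x 0 + (-1 : K) • x 1 := by
    rw [hx, hx]
    module
  have h2 := h0 2
  rw [e2, cube hA.sym, h0, h0] at h2
  have h3 := cube hA.sym 1 (-1) (x 0) (x 1)
  rw [← e3, h0, h0, tri_smul₁, tri_smul₂, tri_smul₃] at h3
  have sq : ∀ i, crs m (crs n (x i) (x i)) (crs n (x i) (x i)) = 0 := fun i => by
    have h1 := hA.adj₁ (x i)
    rw [h0, mul_zero, zero_smul] at h1
    exact (smul_eq_zero.1 h1).resolve_left three_ne_zero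
  have h4 := hA.adj₂ (x 0) (x 1)
  rw [h0, zero_smul, zero_add, mul_smul] at h4
  have h5 := smul_right_injective _ (three_ne_zero (α := K)) h4
  have h6 : crs n (x 1) (x 1) ⬝ᵥ x 0 = tri n (x 0) (x 1) (x 1) := by
    rw [← tri_eq_dot, hA.sym.tri_rotate (x 0)]
  rw [e2]
  simp only [crs_add_left, crs_add_right, crs_smul_left, crs_smul_right, tri_add₃, tri_smul₃]
  rw [hA.sym.crs_comm (x 1) (x 0)]
  set p := tri n (x 0) (x 0) (x 1)
  set q := tri n (x 0) (x 1) (x 1)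
  set A := crs n (x 0) (x 0) with hA0
  set B := crs n (x 0) (x 1)
  set C := crs n (x 1) (x 1) with hC0
  have b1 : tri m A C A = 0 := by
    rw [hA.sym'.tri_swap₂₃, tri_eq_dot, hA0, sq, zero_dotProduct]
  have b2 : tri m A C C = 0 := by
    rw [hA.sym'.tri_rotate, tri_eq_dot, hC0, sq, zero_dotProduct]
  have b3 : tri m A C B = p * q := by
    rw [hA.sym'.tri_swap₂₃, tri_eq_dot, h5, smul_dotProduct, dotProduct_comm, h6, smul_eq_mul]
  rw [b1, b2, b3]
  have h7 : s * p + t * q = 0 := by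
    refine mul_left_cancel₀ (mul_ne_zero (mul_ne_zero three_ne_zero s0) t0) ?_
    linear_combination h2
  have h8 : ¬ (p = 0 ∧ q = 0) := by
    rintro ⟨hp, hq⟩
    rw [hp, hq] at h3
    exact mul_ne_zero d01 (mul_ne_zero d01 (mul_ne_zero d01 hu)) (by linear_combination h3)
  have hp : p ≠ 0 := fun hp => h8 ⟨hp, mul_left_cancel₀ t0 (by linear_combination h7 - s * hp)⟩
  have hq : q ≠ 0 := fun hq => h8 ⟨mul_left_cancel₀ s0 (by linear_combination h7 - t * hq), hq⟩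
  intro h
  exact mul_ne_zero (mul_ne_zero (mul_ne_zero two_ne_zero s0) t0) (mul_ne_zero hp hq)
    (by linear_combination h)

theorem cubic_descent {K' : Type} [Field K'] (f : K →+* K') (hn : Sym3 n) {δ : K'} {d : K}
    (hδ : δ ^ 2 = f d) {x y : I → K} {v : I → K'} (hv : v = f ∘ x + δ • f ∘ y) (h0 : v ≠ 0)
    (h : tri (n.map f) v v v = 0) : ∃ z, z ≠ 0 ∧ tri n z z z = 0 := by
  by_contra hc
  have hz : ∀ z, tri n z z z = 0 → z = 0 := fun z hz => by
    by_contra h1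
    exact hc ⟨z, h1, hz⟩
  have hf : ∀ z, v = f ∘ z → False := fun z e => by
    rw [e, tri_map, map_eq_zero] at h
    rw [hz z h] at e
    exact h0 (e.trans (funext fun _ => map_zero f))
  have hr : ∀ t, δ ≠ f t := fun t e => hf (x + t • y) (by
    rw [hv, e]
    funext a
    simp)
  have c3 : tri n y y y ≠ 0 := fun e => hf x (by
    rw [hv, hz y e]
    funext a
    simp)
  have h1 := h
  rw [hv, cube' (hn.map f), tri_map, tri_map, tri_map, tri_map] at h1
  have h2 : f (tri n x x x + 3 * d * tri n x y y) + δ * f (3 * tri n x x y + d * tri n y y y) = 0 := by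
    simp only [map_add, map_mul, map_ofNat, ← hδ]
    linear_combination h1
  have h3 : 3 * tri n x x y + d * tri n y y y = 0 := by
    by_contra e
    refine hr (-(tri n x x x + 3 * d * tri n x y y) / (3 * tri n x x y + d * tri n y y y)) ?_
    rw [map_div₀, eq_div_iff ((map_ne_zero f).2 e), map_neg]
    linear_combination h2
  rw [h3, map_zero, mul_zero, add_zero, map_eq_zero] at h2
  obtain ⟨t, ht⟩ : ∃ t, tri n y y y * t + 3 * tri n x y y = 0 :=
    ⟨-(3 * tri n x y y) / tri n y y y, by field_simp; ring⟩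
  have h4 := hz (x + t • y) (by
    rw [cube' hn]
    linear_combination h2 + t * h3 + (t ^ 2 - d) * ht)
  have h5 : v = (δ - f t) • f ∘ y := by
    rw [hv, eq_neg_of_add_eq_zero_left h4]
    funext a
    simp
    ring
  rw [h5, tri_smul₁, tri_smul₂, tri_smul₃, tri_map] at h
  have h6 := sub_ne_zero.2 (hr t)
  exact mul_ne_zero h6 (mul_ne_zero h6 (mul_ne_zero h6 ((map_ne_zero f).2 c3))) h

/-- The orbit of a singular vector is a frame up to a scalar. -/
theorem tri_orb_ne {σ : K ≃+* K} (h3 : ∀ a, σ (σ (σ a)) = a) (hA : IsAlb n m) {φ : GL I K}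
    {ν β : K} (hφ : Sim (n.map σ) n φ.1 ν)
    (hφ3 : φ.1 * φ.1.map σ * (φ.1.map σ).map σ = β • (1 : Matrix I I K))
    (hβ : ∀ x, x * σ x * σ (σ x) ≠ β) (hn : NoPlane n) (hm : NoPlane m) {y : I → K} (h0 : y ≠ 0)
    (hy : crs n y y = 0) : tri n y (sl σ φ.1 y) (sl σ φ.1 (sl σ φ.1 y)) ≠ 0 := by
  intro hN
  have s1 : crs n (sl σ φ.1 y) (sl σ φ.1 y) = 0 := by rw [hφ.crs_sl, hy, sl_zero, smul_zero]
  have s2 : crs n (sl σ φ.1 (sl σ φ.1 y)) (sl σ φ.1 (sl σ φ.1 y)) = 0 := by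
    rw [hφ.crs_sl, s1, sl_zero, smul_zero]
  have hz : crs n y (sl σ φ.1 y) ≠ 0 := fun e => by
    obtain ⟨c, hc⟩ := hn _ _ hy e s1 h0
    have h1 := orb_eig hc
    rw [sl_three h3 hφ3] at h1
    exact hβ c (smul_left_injective K h0 h1).symm
  have hz' := hφ.crs_sl y (sl σ φ.1 y)
  set y1 := sl σ φ.1 y
  set y2 := sl σ φ.1 y1
  have key : ∀ a b, tri n y1 a b = 0 → crs m (crs n y1 a) (crs n y1 b) = 0 := fun a b e => by
    have h1 := hA.adj₃ y1 a b
    rw [e, tri_eq_dot, tri_eq_dot, s1] at h1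
    simpa using h1
  have k1 := key y y (by rw [hA.sym.tri_rotate, tri_eq_dot, hy, zero_dotProduct])
  have k2 := key y y2 (by rw [hA.sym.tri_swap₁₂, hN])
  have k3 := key y2 y2 (by rw [hA.sym.tri_rotate, tri_eq_dot, s2, zero_dotProduct])
  rw [hA.sym.crs_comm y1 y] at k1 k2
  obtain ⟨c, hc⟩ := hm _ _ k1 k2 k3 hz
  have hν : ν ≠ 0 := (Sim.isUnit hA hφ).ne_zero
  have h1 : sl σ (dag φ).1 (crs n y y1) = (ν⁻¹ * c) • crs n y y1 := by
    rw [mul_smul, ← hc, hz', inv_smul_smul₀ hν]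
  obtain ⟨w, hw⟩ := exists_dot hz
  have h2 : sl σ (dag φ).1 (sl σ (dag φ).1 (sl σ (dag φ).1 (crs n y y1))) ⬝ᵥ
      sl σ φ.1 (sl σ φ.1 (sl σ φ.1 w)) = crs n y y1 ⬝ᵥ w := by
    rw [dot_sl, dot_sl, dot_sl, h3]
  rw [orb_eig h1, sl_three h3 hφ3, smul_dotProduct, dotProduct_smul,
    smul_eq_mul, smul_eq_mul, ← mul_assoc] at h2
  have h4 := mul_right_cancel₀ hw (h2.trans (one_mul _).symm)
  refine hβ (ν⁻¹ * c)⁻¹ ?_
  rw [map_inv₀, map_inv₀, ← mul_inv, ← mul_inv]
  exact (eq_inv_of_mul_eq_one_right h4).symm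

end Pool.Agent.P.MP_3c2f8c_gt.Ex
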