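import Pool.Agent.P.MP_3c2f8c_gt.Ex.HP.ThS1
import Pool.Agent.Lib.CFT.Main
import Pool.Agent.P.MP_3c2f8c_gt.NT.HM

/-! Ex-HP-ThS2: the cubic form of a cyclic composition over a number field has a zero. -/

namespace Pool.Agent.P.MP_3c2f8c_gt.Ex

open Pool.Agent.Lib.CFT

variable {K : Type} [Field K] [NumberField K] {σ : K ≃+* K} {W : Type} [AddCommGroup W]
  [Module K W]

theorem exists_imag (h3 : ∀ a, σ (σ (σ a)) = a) (hi : ∀ a : K, a ^ 2 ≠ -1) :
    ∃ (K' : Type) (_ : Field K') (_ : NumberField K') (f : K →+* K') (σ' : K' ≃+* K') (i : K'),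
      (∀ a, σ' (σ' (σ' a)) = a) ∧ (∀ a, σ' (f a) = f (σ a)) ∧ σ' i = i ∧ i ^ 2 = -1 ∧
      ∀ w, ∃ x y, w = f x + f y * i := by
  have : Fact (∀ r : K, r ^ 2 ≠ -1 + 0 * r) := ⟨fun r => by simpa using hi r⟩
  have : NumberField (QuadraticAlgebra K (-1) 0) := NumberField.of_module_finite K _
  let σ' : QuadraticAlgebra K (-1) 0 ≃+* QuadraticAlgebra K (-1) 0 :=
    { toFun := fun z => ⟨σ z.re, σ z.im⟩
      invFun := fun z => ⟨σ.symm z.re, σ.symm z.im⟩
      left_inv := fun z => by ext <;> simp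
      right_inv := fun z => by ext <;> simp
      map_mul' := fun z w => by ext <;> simp
      map_add' := fun z w => by ext <;> simp }
  have e : ∀ z, σ' z = ⟨σ z.re, σ z.im⟩ := fun _ => rfl
  refine ⟨QuadraticAlgebra K (-1) 0, inferInstance, inferInstance, algebraMap K _, σ', ⟨0, 1⟩,
    fun a => ?_, fun a => ?_, ?_, ?_, fun w => ⟨w.re, w.im, ?_⟩⟩
  · ext <;> simp [e, h3]
  · ext <;> simp [e]
  · ext <;> simp [e]
  · ext <;> simp [sq] <;> rfl
  · ext <;> simp

theorem Cyc.exists_iso (C : Cyc σ W) {i : K} (hi : i ^ 2 = -1) : ∃ a, a ≠ 0 ∧ C.b a a = 0 := by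
  have hF : IsEmpty (K →+* ℝ) := ⟨fun φ => by
    have h1 := congrArg φ hi
    rw [map_pow, map_neg, map_one] at h1
    nlinarith [sq_nonneg (φ i)]⟩
  have : Module.Finite K W := Module.finite_of_finrank_pos (by rw [C.dim]; norm_num)
  let β := Module.finBasisOfFinrankEq K W C.dim
  obtain ⟨x, hx, e⟩ := hm5M hF (ι := Fin 8) (by simp) (Matrix.of fun p q => C.b (β p) (β q))
    (by ext p q; exact C.symm _ _)
  refine ⟨∑ p, x p • β p, fun h => hx (funext fun p => ?_), ?_⟩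
  · exact Fintype.linearIndependent_iff.1 β.linearIndependent x h p
  · rw [← e]
    simp only [map_sum, map_smul, LinearMap.sum_apply, LinearMap.smul_apply, smul_eq_mul,
      dotProduct, Matrix.mulVec, Matrix.of_apply, Finset.mul_sum]
    refine Finset.sum_congr rfl fun p _ => Finset.sum_congr rfl fun q _ => ?_
    rw [C.symm (β q) (β p)]
    ring

namespace ThS2Aux

theorem zero_of_i (C : Cyc σ W) (hσ : σ ≠ RingEquiv.refl K) {i : K} (hi : i ^ 2 = -1) :
    ∃ x, x ≠ 0 ∧ C.T x = 0 := by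
  obtain ⟨a, ha, h0⟩ := C.exists_iso hi
  refine C.T_zero_of_iso (fun μ t hμ ht h => nrd_surjective (σ.trans σ) (fun x => ?_) ?_ ?_ ?_ h)
    ha h0
  · simp only [RingEquiv.trans_apply, C.three]
  · intro e
    refine hσ (RingEquiv.ext fun x => ?_)
    have h1 : σ (σ (σ x)) = σ x := congrArg (fun g : K ≃+* K => g (σ x)) e
    rw [C.three] at h1
    exact h1.symm
  · rw [RingEquiv.trans_apply, hμ, hμ]
  · rw [RingEquiv.trans_apply, ht, ht]

omit [NumberField K] in
theorem T_add (C : Cyc σ W) {t : K} (ht : σ t = t) (x y : W) :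
    C.T (x + t • y) = C.T x +
      t * (C.b (C.mul x x) y + C.b (C.mul x y) x + C.b (C.mul y x) x) +
      t ^ 2 * (C.b (C.mul x y) y + C.b (C.mul y x) y + C.b (C.mul y y) x) + t ^ 3 * C.T y := by
  unfold Cyc.T
  simp only [map_add, AddMonoidHom.add_apply, C.smul_mul, C.mul_smul, ht, map_smul,
    LinearMap.add_apply, LinearMap.smul_apply, smul_eq_mul]
  ring

omit [NumberField K] in
theorem T_smul (C : Cyc σ W) {t : K} (ht : σ t = t) (y : W) : C.T (t • y) = t ^ 3 * C.T y := by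
  unfold Cyc.T
  simp only [C.smul_mul, C.mul_smul, ht, map_smul, LinearMap.smul_apply, smul_eq_mul]
  ring

theorem descend (C : Cyc σ W) {x y : W} (hxy : ¬ (x = 0 ∧ y = 0))
    (h0 : C.b (C.mul x y) y + C.b (C.mul y x) y + C.b (C.mul y y) x = C.T x)
    (h1 : C.b (C.mul x x) y + C.b (C.mul x y) x + C.b (C.mul y x) x = C.T y) :
    ∃ z, z ≠ 0 ∧ C.T z = 0 := by
  by_cases hy : y = 0
  · refine ⟨x, fun hx => hxy ⟨hx, hy⟩, ?_⟩
    rw [← h0, hy]
    simp
  by_cases h3 : C.T y = 0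
  · exact ⟨y, hy, h3⟩
  have key : ∀ s : K, σ s = s → C.T (x + s • y) = (1 + s ^ 2) * (C.T x + C.T y * s) := by
    intro s hs
    rw [T_add C hs, h0, h1]
    ring
  obtain ⟨t, ht, e⟩ : ∃ t : K, σ t = t ∧ C.T x + C.T y * t = 0 :=
    ⟨-C.T x / C.T y, by rw [map_div₀, map_neg, C.T_fixed, C.T_fixed], by field_simp; ring⟩
  refine ⟨x + t • y, fun hz => ?_, by rw [key t ht, e, mul_zero]⟩
  have k1 := key (t + 1) (by rw [map_add, ht, map_one])
  have k2 := key (t + -1) (by rw [map_add, ht, map_neg, map_one])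
  rw [add_smul, ← add_assoc, hz, zero_add, one_smul] at k1
  rw [add_smul, ← add_assoc, hz, zero_add, T_smul C (by rw [map_neg, map_one])] at k2
  have k3 : (t + 1) ^ 2 = 0 := by
    apply mul_left_cancel₀ h3
    linear_combination (-1 : K) * k1 - (1 + (t + 1) ^ 2) * e
  have k4 : (t - 1) ^ 2 = 0 := by
    apply mul_left_cancel₀ h3
    linear_combination k2 + (1 + (t - 1) ^ 2) * e
  have k5 := pow_eq_zero_iff two_ne_zero |>.1 k3
  have k6 := pow_eq_zero_iff two_ne_zero |>.1 k4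
  exact two_ne_zero (α := K) (by linear_combination k5 - k6)

end ThS2Aux

theorem Cyc.exists_T_zero (C : Cyc σ W) (hσ : σ ≠ RingEquiv.refl K) : ∃ x, x ≠ 0 ∧ C.T x = 0 := by
  by_cases hi : ∃ a : K, a ^ 2 = -1
  · exact ThS2Aux.zero_of_i C hσ hi.choose_spec
  push Not at hi
  obtain ⟨K', _, _, f, σ', i, h3, hf, hσi, hi2, hc⟩ := exists_imag C.three hi
  obtain ⟨C', β, hm, hb⟩ := C.exists_ext f h3 hf
  have hσ' : σ' ≠ RingEquiv.refl K' := fun e =>
    hσ (RingEquiv.ext fun a => f.injective (by rw [← hf, e]; rfl))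
  obtain ⟨w, hw, hT⟩ := ThS2Aux.zero_of_i C' hσ' hi2
  choose xs ys hxy using fun j => hc (w j)
  obtain ⟨x, rfl⟩ := β.surjective xs
  obtain ⟨y, rfl⟩ := β.surjective ys
  have e : w = f ∘ β x + i • f ∘ β y := funext fun j => by
    rw [hxy j, mul_comm]
    rfl
  have ind : ∀ a b : K, f a + f b * i = 0 → a = 0 ∧ b = 0 := by
    intro a b h
    by_cases hb0 : b = 0
    · rw [hb0, map_zero, zero_mul, add_zero, map_eq_zero] at h
      exact ⟨h, hb0⟩
    · refine absurd (f.injective ?_) (hi (a / b))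
      have h1 : f b ≠ 0 := (map_ne_zero f).2 hb0
      rw [map_pow, map_div₀, map_neg, map_one, ← hi2, show f a = -(f b * i) by linear_combination h]
      field_simp
  rw [e, ThS2Aux.T_add C' hσi] at hT
  unfold Cyc.T at hT
  simp only [hm, hb] at hT
  obtain ⟨h0, h1⟩ := ind
    (C.T x - (C.b (C.mul x y) y + C.b (C.mul y x) y + C.b (C.mul y y) x))
    (C.b (C.mul x x) y + C.b (C.mul x y) x + C.b (C.mul y x) x - C.T y) (by
      unfold Cyc.T
      simp only [map_sub, map_add]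
      linear_combination hT - (f (C.b (C.mul x y) y) + f (C.b (C.mul y x) y) +
        f (C.b (C.mul y y) x) + i * f (C.b (C.mul y y) y)) * hi2)
  refine ThS2Aux.descend C (fun h => hw ?_) (sub_eq_zero.1 h0).symm (sub_eq_zero.1 h1)
  rw [e, h.1, h.2]
  funext j
  simp

end Pool.Agent.P.MP_3c2f8c_gt.Ex
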