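import Pool.Agent.P.MP_3c2f8c_gt.Ex.HP.Red1
import Pool.Agent.P.MP_3c2f8c_gt.Ex.HP.Gal3
import Pool.Agent.P.MP_3c2f8c_gt.Ex.HP.Frm
import Pool.Agent.P.MP_3c2f8c_gt.Ex.HP.ThS2

/-! Ex-HP-Red2: Albert pairs over number fields are reduced. -/

namespace Pool.Agent.P.MP_3c2f8c_gt.Ex

namespace Red2Aux

theorem expand {R : Type} [CommRing R] {n : T3 R} (h : Sym3 n) (t : R) (u a : I → R) :
    tri n (t • u - a) (t • u - a) (t • u - a) = tri n u u u * t ^ 3 + -3 * tri n u u a * t ^ 2 +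
      3 * tri n u a a * t + -tri n a a a := by
  rw [sub_eq_add_neg, ← neg_one_smul R a]
  simp only [tri_add₁, tri_add₂, tri_add₃, tri_smul₁, tri_smul₂, tri_smul₃]
  rw [h.tri_swap₂₃ u a u, h.tri_swap₁₂ a u u, h.tri_swap₂₃ u a u, h.tri_swap₁₂ a u a,
    h.tri_swap₂₃ a a u, h.tri_swap₁₂ a u a]
  ring

variable {L : Type} [Field L] {σ : L ≃+* L}

theorem tri_fix {n : T3 L} (h : n.map σ = n) (x y z : I → L) :
    tri n (σ ∘ x) (σ ∘ y) (σ ∘ z) = σ (tri n x y z) := by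
  have := tri_map σ.toRingHom n x y z
  exact (congrArg (fun k => tri k (σ ∘ x) (σ ∘ y) (σ ∘ z)) h).symm.trans this

theorem crs_fix {n : T3 L} (h : n.map σ = n) (x y : I → L) :
    crs n (σ ∘ x) (σ ∘ y) = σ ∘ crs n x y := by
  have := crs_map σ.toRingHom n x y
  exact (congrArg (fun k => crs k (σ ∘ x) (σ ∘ y)) h).symm.trans this

theorem exists_fixed [NumberField L] (h3 : ∀ a, σ (σ (σ a)) = a) (hσ : σ ≠ RingEquiv.refl L)
    {n m : T3 L} (hA : IsAlb n m) (hn : n.map σ = n) {e : I → L} (he : crs n e e = 0)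
    (h1 : tri n e (σ ∘ e) (σ ∘ σ ∘ e) ≠ 0) : ∃ v, v ≠ 0 ∧ σ ∘ v = v ∧ tri n v v v = 0 := by
  obtain ⟨τ, hτ⟩ : ∃ τ : Lˣ, τ.1 = tri n e (σ ∘ e) (σ ∘ σ ∘ e) := ⟨Units.mk0 _ h1, rfl⟩
  have e3 : σ ∘ σ ∘ σ ∘ e = e := funext fun c => h3 _
  have hστ : σ τ.1 = τ.1 := by
    rw [hτ, ← tri_fix hn, e3, ← hA.sym.tri_rotate]
  have hστ' : σ (τ⁻¹).1 = (τ⁻¹).1 := by
    rw [Units.val_inv_eq_inv_val, map_inv₀, hστ]
  have hN : T3.map σ ((τ⁻¹).1 • n) = (τ⁻¹).1 • n := by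
    funext a b c
    change σ ((τ⁻¹).1 * n a b c) = (τ⁻¹).1 * n a b c
    rw [map_mul, hστ']
    exact congrArg _ (congrFun (congrFun (congrFun hn a) b) c)
  have hφ3 : (1 : GL I L).1 * (1 : GL I L).1.map σ * ((1 : GL I L).1.map σ).map σ =
      (1 : L) ^ 2 • (1 : Matrix I I L) := by
    simp
  obtain ⟨C, -, -, hinj, hval⟩ := exists_cyc (φ := 1) (b := 1) (e := e) h3 (hA.smul τ⁻¹)
    one_ne_zero (map_one σ) (by rw [hN, one_pow]; exact sim_one _) hφ3
    (by rw [crs_smul_tensor, he, smul_zero])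
    (by rw [tri_smul_tensor, Units.val_one, sl_one, sl_one, ← hτ, Units.inv_mul])
  obtain ⟨y, hy0, hy⟩ := C.exists_T_zero hσ
  refine ⟨frm σ (1 : GL I L).1 1 e 0 y.1 y.1 y.1, fun h => hy0 (hinj 0 y y y h).2.1, ?_, ?_⟩
  · have h := sl_frm (φ := 1) (e := e) h3 one_ne_zero (map_one σ) hφ3 0 y.1 y.1 y.1
    rw [← sl_one]
    refine h.trans ?_
    simp [frm]
  · have h := hval 0 y y y _ rfl
    rw [tri_smul_tensor, show C.b (C.mul y y) y = 0 from hy] at h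
    simpa using h

end Red2Aux

open Red2Aux in
theorem IsAlb.exists_sing {K : Type} [Field K] [NumberField K] {n m : T3 K} (hA : IsAlb n m) :
    ∃ v, v ≠ 0 ∧ crs n v v = 0 := by
  by_contra hno
  have hn : ∀ v, v ≠ 0 → tri n v v v ≠ 0 := fun v h0 hv => hno (hA.exists_sing_of_zero h0 hv).1
  obtain ⟨u, a, hu, hua⟩ : ∃ u a : I → K, u ≠ 0 ∧ ∀ t : K, t • u - a ≠ 0 :=
    ⟨Pi.single (.inl 0) 1, Pi.single (.inl 1) 1, by simp,
      fun t h => by simpa using congrFun h (.inl 1)⟩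
  obtain ⟨L, _, _, f, σ, r, δ, d, hf, h3, hr, hroot, hδ, hfix⟩ := exists_cubic_split (hn u hu)
    fun t => expand hA.sym t u a ▸ hn _ (hua t)
  have hA' := hA.map f
  have en : (n.map f).map σ = n.map f := funext fun _ => funext fun _ => funext fun _ => hf _
  have em : (m.map f).map σ = m.map f := funext fun _ => funext fun _ => funext fun _ => hf _
  have hs : ∀ t : L, σ ∘ (t • f ∘ u - f ∘ a) = σ t • f ∘ u - f ∘ a := fun t => funext fun c => by
    simp [hf]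
  obtain ⟨x, hx⟩ : ∃ x, x = r • f ∘ u - f ∘ a := ⟨_, rfl⟩
  have h0 : tri (n.map f) x x x = 0 := by
    rw [hx, expand hA'.sym, tri_map, tri_map, tri_map, tri_map, ← hroot]
    simp [map_ofNat]
  have h1 : tri (n.map f) (σ ∘ x) (σ ∘ x) (σ ∘ x) = 0 := by rw [tri_fix en, h0, map_zero]
  have h2 : tri (n.map f) (σ ∘ σ ∘ x) (σ ∘ σ ∘ x) (σ ∘ σ ∘ x) = 0 := by
    rw [tri_fix en, h1, map_zero]
  have r1 : σ (σ r) ≠ σ r := σ.injective.ne hr
  have r2 : r ≠ σ (σ r) := by simpa [h3] using σ.injective.ne r1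
  have hτ := hA'.tri_line (u := f ∘ u) (a := f ∘ a) (r := ![r, σ r, σ (σ r)])
    (x := ![x, σ ∘ x, σ ∘ σ ∘ x]) (by rw [tri_map]; exact (map_ne_zero f).2 (hn u hu))
    (by
      intro i j h
      fin_cases i <;> fin_cases j <;>
        first | rfl | exact absurd h hr | exact absurd h.symm hr | exact absurd h r1 |
          exact absurd h.symm r1 | exact absurd h r2 | exact absurd h.symm r2)
    (fun | 0 => hx | 1 => by rw [hx]; exact hs r | 2 => by rw [hx, hs]; exact hs _)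
    (fun | 0 => h0 | 1 => h1 | 2 => h2)
  have hη : crs (m.map f) (crs (n.map f) x x) (crs (n.map f) x x) = 0 := by
    have h := hA'.adj₁ x
    rw [h0, mul_zero, zero_smul] at h
    exact (smul_eq_zero.1 h).resolve_left three_ne_zero
  obtain ⟨v, hv0, hv, hz⟩ := exists_fixed h3 (fun h => hr (by rw [h]; rfl)) hA'.symm em hη
    (by rw [← crs_fix en, ← crs_fix en]; exact hτ)
  choose p q hpq using fun c => hfix (v c) (congrFun hv c)
  obtain ⟨z, hz0, hz⟩ := cubic_descent (x := p) (y := q) f hA.sym' hδ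
    (funext fun c => (hpq c).trans (by simp [mul_comm])) hv0 hz
  exact hno (hA.symm.exists_sing_of_zero hz0 hz).2

end Pool.Agent.P.MP_3c2f8c_gt.Ex
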