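import Pool.Agent.P.MP_3c2f8c_gt.Ex.HP.CyB
import Pool.Agent.Lib.CFT.Defs

/-! Ex-HP-ThS1: zeros of the cubic form of an isotropic cyclic composition. -/

namespace Pool.Agent.P.MP_3c2f8c_gt.Ex

open Pool.Agent.Lib.CFT

variable {K : Type} [Field K] [CharZero K] {σ : K ≃+* K} {W : Type} [AddCommGroup W] [Module K W]

namespace ThS1Aux

omit [CharZero K] in
theorem alt_det (F : W →ₗ[K] W →ₗ[K] W →ₗ[K] K) (E : Submodule K W)
    (h1 : ∀ x ∈ E, ∀ z ∈ E, F x x z = 0) (h2 : ∀ x ∈ E, ∀ y ∈ E, F x y y = 0)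
    {u v w : W} (hu : u ∈ E) (hv : v ∈ E) (hw : w ∈ E) (a0 a1 a2 b0 b1 b2 c0 c1 c2 : K) :
    F (a0 • u + a1 • v + a2 • w) (c0 • u + c1 • v + c2 • w) (b0 • u + b1 • v + b2 • w) =
      Matrix.det !![a0, a1, a2; b0, b1, b2; c0, c1, c2] * F u w v := by
  have s1 : ∀ x ∈ E, ∀ y ∈ E, ∀ z ∈ E, F x y z = -F y x z := fun x hx y hy z hz => by
    have h := h1 _ (E.add_mem hx hy) z hz
    simp only [map_add, LinearMap.add_apply, h1 x hx z hz, h1 y hy z hz] at h
    linear_combination h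
  have s2 : ∀ x ∈ E, ∀ y ∈ E, ∀ z ∈ E, F x y z = -F x z y := fun x hx y hy z hz => by
    have h := h2 x hx _ (E.add_mem hy hz)
    simp only [map_add, LinearMap.add_apply, h2 x hx y hy, h2 x hx z hz] at h
    linear_combination h
  have h3 : ∀ x ∈ E, ∀ y ∈ E, F x y x = 0 := fun x hx y hy => by
    rw [s2 x hx y hy x hx, h1 x hx y hy, neg_zero]
  have e1 : F u v w = -F u w v := s2 u hu v hv w hw
  have e2 : F v u w = F u w v := by rw [s1 v hv u hu w hw, e1, neg_neg]
  have e3 : F v w u = -F u w v := by rw [s2 v hv w hw u hu, e2]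
  have e4 : F w u v = -F u w v := s1 w hw u hu v hv
  have e5 : F w v u = F u w v := by rw [s2 w hw v hv u hu, e4, neg_neg]
  simp only [map_add, map_smul, LinearMap.add_apply, LinearMap.smul_apply, smul_eq_mul, e1, e2, e3,
    e4, e5, h1 u hu u hu, h1 u hu v hv, h1 u hu w hw, h1 v hv u hu, h1 v hv v hv, h1 v hv w hw,
    h1 w hw u hu, h1 w hw v hv, h1 w hw w hw, h2 u hu v hv, h2 u hu w hw, h2 v hv u hu,
    h2 v hv w hw, h2 w hw u hu, h2 w hw v hv, h3 u hu v hv, h3 u hu w hw, h3 v hv u hu,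
    h3 v hv w hw, h3 w hw u hu, h3 w hw v hv, Matrix.det_fin_three, Matrix.of_apply,
    Matrix.cons_val', Matrix.cons_val_zero, Matrix.cons_val_one, Matrix.cons_val,
    Matrix.cons_val_fin_one]
  ring

variable (C : Cyc σ W) (a : W)

/-- The vectors killed by right multiplication with `a` and orthogonal to `a`. -/
def E1 : Submodule K W where
  carrier := {z | C.mul z a = 0 ∧ C.b z a = 0}
  add_mem' := fun {x y} hx hy => ⟨by rw [map_add, AddMonoidHom.add_apply, hx.1, hy.1, add_zero],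
    by rw [map_add, LinearMap.add_apply, hx.2, hy.2, add_zero]⟩
  zero_mem' := ⟨by simp, by simp⟩
  smul_mem' := fun t x hx => ⟨by rw [C.smul_mul, hx.1, smul_zero],
    by rw [map_smul, LinearMap.smul_apply, hx.2, smul_zero]⟩

/-- The bilinear map behind the alternating form. -/
def M : W →ₗ[K] W →ₗ[K] W :=
  LinearMap.mk₂ K (fun y z => C.mul (C.mul a y) (C.mul a (C.mul a z)))
    (fun y y' z => by simp only [map_add, AddMonoidHom.add_apply])
    (fun t y z => by rw [C.mul_smul, C.smul_mul, C.three])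
    (fun y z z' => by simp only [map_add])
    (fun t y z => by rw [C.mul_smul, C.mul_smul, C.mul_smul, C.three, C.three])

/-- The alternating form. -/
def F : W →ₗ[K] W →ₗ[K] W →ₗ[K] K where
  toFun x := (M C a).compr₂ (C.b x)
  map_add' x x' := by ext; simp
  map_smul' t x := by ext; simp

omit [CharZero K] in
theorem F_apply (x y z : W) :
    F C a x y z = C.b x (C.mul (C.mul a y) (C.mul a (C.mul a z))) := rfl

theorem two_cancel {x : W} (h : (2 : K) • x = 0) : x = 0 :=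
  (smul_eq_zero.1 h).resolve_left two_ne_zero

variable {C a}

omit [CharZero K] in
theorem iso (ha : a ≠ 0) {z : W} (hz : z ∈ E1 C a) : C.b z z = 0 := by
  have h := C.right z a
  rw [hz.1, map_zero, AddMonoidHom.zero_apply, smul_zero] at h
  simpa using (smul_eq_zero.1 h.symm).resolve_right ha

omit [CharZero K] in
theorem sq_orth {z : W} (hz : z ∈ E1 C a) : C.b (C.mul a a) z = 0 := by
  rw [C.cyc', hz.1]
  simp

theorem mul_mul_a (h0 : C.b a a = 0) (z : W) : C.mul (C.mul a z) a = 0 := by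
  refine two_cancel (K := K) ?_
  rw [C.right, h0]
  simp

theorem L_mem (h0 : C.b a a = 0) {z : W} (hz : z ∈ E1 C a) : C.mul a z ∈ E1 C a :=
  ⟨mul_mul_a h0 z, by rw [C.cyc, hz.1]; simp⟩

theorem L_three {z : W} (hz : z ∈ E1 C a) :
    C.mul a (C.mul a (C.mul a z)) = (-C.T a) • z := by
  have h1 := C.left_pol a a z
  rw [C.symm a z, hz.2, map_zero, zero_smul] at h1
  have h2 := C.left_pol a z (C.mul a a)
  rw [hz.1, map_zero, add_zero, C.symm a] at h2
  rw [eq_neg_of_add_eq_zero_left h1, map_neg, h2, neg_smul, ← C.T_fixed a]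
  rfl

theorem T_add (h0 : C.b a a = 0) {z : W} (hz : z ∈ E1 C a) : C.T (a + z) = C.T a + C.T z := by
  have e1 : C.b (C.mul a z) z = 0 := by rw [C.cyc', hz.1]; simp
  have e2 : C.b (C.mul z z) a = 0 := by rw [C.cyc, hz.1]; simp
  simp only [Cyc.T, map_add, AddMonoidHom.add_apply, LinearMap.add_apply, hz.1, e1, e2,
    sq_orth hz, (L_mem h0 hz).2, map_zero, LinearMap.zero_apply]
  ring

theorem sandwich (ha : a ≠ 0) {w : W} (hw : w ∈ E1 C a) : C.mul w (C.mul a w) = 0 := by
  refine two_cancel (K := K) ?_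
  rw [C.left, iso ha hw]
  simp

theorem F_T {z : W} (hz : z ∈ E1 C a) :
    F C a z (C.mul a (C.mul a z)) (C.mul a z) = C.T a ^ 2 * C.T z := by
  rw [F_apply, L_three hz, C.smul_mul, C.mul_smul, map_smul, map_smul, map_neg, map_neg,
    C.T_fixed, C.T_fixed, C.symm z]
  simp only [Cyc.T, smul_eq_mul]
  ring

theorem T_comb (ha : a ≠ 0) (h0 : C.b a a = 0) (hT : C.T a ≠ 0) {z : W} (hz : z ∈ E1 C a)
    (x y t : K) :
    C.T (x • z + y • C.mul a z + t • C.mul a (C.mul a z)) =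
      nrdC (σ.trans σ) (-C.T a) x y t * C.T z := by
  have hz1 := L_mem h0 hz
  have hz2 := L_mem h0 hz1
  have hu : x • z + y • C.mul a z + t • C.mul a (C.mul a z) ∈ E1 C a :=
    add_mem (add_mem (Submodule.smul_mem _ _ hz) (Submodule.smul_mem _ _ hz1))
      (Submodule.smul_mem _ _ hz2)
  have hL : ∀ x y t : K, C.mul a (x • z + y • C.mul a z + t • C.mul a (C.mul a z)) =
      (-C.T a * σ (σ t)) • z + σ (σ x) • C.mul a z + σ (σ y) • C.mul a (C.mul a z) := by
    intro x y t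
    simp only [map_add, C.mul_smul, L_three hz]
    module
  have h := F_T hu
  rw [hL, hL, alt_det (F C a) (E1 C a) (fun x hx z _ => by
      rw [F_apply, C.symm, C.cyc', sandwich ha hx]; simp)
    (fun x _ y hy => by rw [F_apply, sandwich ha (L_mem h0 hy), map_zero]) hz hz1 hz2,
    F_T hz] at h
  refine mul_left_cancel₀ (pow_ne_zero 2 hT) ?_
  rw [← h, nrdC]
  simp only [RingEquiv.trans_apply, map_mul, map_neg, C.T_fixed]
  ring

theorem exists_mem (ha : a ≠ 0) (h0 : C.b a a = 0) (hT : C.T a ≠ 0) :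
    ∃ z ∈ E1 C a, z ≠ 0 := by
  by_contra hne
  push Not at hne
  have h1 : ∀ y, C.b (C.mul a a) y = 0 → C.b y y = 0 := fun y hy => by
    have hm : C.mul a y ∈ E1 C a := ⟨mul_mul_a h0 y, by rw [C.cyc', hy]; simp⟩
    have h := C.left y a
    rw [hne _ hm, map_zero, smul_zero] at h
    simpa using (smul_eq_zero.1 h.symm).resolve_right ha
  have h2 : ∀ y y', C.b (C.mul a a) y = 0 → C.b (C.mul a a) y' = 0 → C.b y y' = 0 :=
    fun y y' hy hy' => by
      have h := h1 (y + y') (by rw [map_add, hy, hy', add_zero])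
      simp only [map_add, LinearMap.add_apply, h1 y hy, h1 y' hy', C.symm y' y] at h
      linear_combination h / 2
  have hinj : Function.Injective ((C.b a).prod (C.b (C.mul a a))) := by
    rw [injective_iff_map_eq_zero]
    intro y hy
    have hy1 : C.b a y = 0 := congrArg Prod.fst hy
    have hy2 : C.b (C.mul a a) y = 0 := congrArg Prod.snd hy
    refine C.nondeg y fun w => ?_
    have h := h2 y (w - (C.b (C.mul a a) w / C.T a) • a) hy2 (by
      rw [map_sub, map_smul, smul_eq_mul]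
      exact sub_eq_zero.2 (div_mul_cancel₀ _ hT).symm)
    rwa [map_sub, map_smul, C.symm y a, hy1, smul_zero, sub_zero] at h
  have := LinearMap.finrank_le_finrank_of_injective hinj
  rw [C.dim] at this
  simp at this

end ThS1Aux

open ThS1Aux in
theorem Cyc.T_zero_of_iso (C : Cyc σ W)
    (hN : ∀ μ t : K, σ μ = μ → σ t = t → μ ≠ 0 → ∃ x y z, nrdC (σ.trans σ) μ x y z = t)
    {a : W} (ha : a ≠ 0) (h0 : C.b a a = 0) : ∃ x, x ≠ 0 ∧ C.T x = 0 := by
  by_cases hT : C.T a = 0
  · exact ⟨a, ha, hT⟩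
  obtain ⟨z, hz, hz0⟩ := exists_mem ha h0 hT
  by_cases hTz : C.T z = 0
  · exact ⟨z, hz0, hTz⟩
  obtain ⟨x, y, t, h⟩ := hN (-C.T a) (-C.T a / C.T z) (by rw [map_neg, C.T_fixed])
    (by rw [map_div₀, map_neg, C.T_fixed, C.T_fixed]) (neg_ne_zero.2 hT)
  have hz1 := L_mem h0 hz
  have hu : x • z + y • C.mul a z + t • C.mul a (C.mul a z) ∈ E1 C a :=
    add_mem (add_mem (Submodule.smul_mem _ _ hz) (Submodule.smul_mem _ _ hz1))
      (Submodule.smul_mem _ _ (L_mem h0 hz1))
  refine ⟨a + (x • z + y • C.mul a z + t • C.mul a (C.mul a z)), fun h1 => hT ?_, ?_⟩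
  · have h2 := congrArg (C.b (C.mul a a)) h1
    rwa [map_add, sq_orth hu, add_zero, map_zero] at h2
  · rw [T_add h0 hu, T_comb ha h0 hT hz, h, div_mul_cancel₀ _ hTz, add_neg_cancel]

end Pool.Agent.P.MP_3c2f8c_gt.Ex
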